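import Mathlib

/-!
Entropies of random variables on finite probability spaces.
-/

set_option autoImplicit false

namespace Pool.Agent.BR

open Finset Real
open scoped Classical

/-- A law (probability weights) on a finite type. -/
structure IsLaw {Ω : Type} [Fintype Ω] (P : Ω → ℝ) : Prop where
  nn : ∀ x, 0 ≤ P x
  sum : ∑ x, P x = 1

/-- The law of the random variable `X`. -/
noncomputable def pr {Ω α : Type} [Fintype Ω] (P : Ω → ℝ) (X : Ω → α) (a : α) : ℝ :=
  ∑ ω with X ω = a, P ω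

/-- The entropy of the random variable `X`. -/
noncomputable def H {Ω α : Type} [Fintype Ω] (P : Ω → ℝ) (X : Ω → α) : ℝ :=
  ∑ a ∈ univ.image X, negMulLog (pr P X a)

/-- The mass of the fibre of `ω`. -/
noncomputable def fb {Ω α : Type} [Fintype Ω] (P : Ω → ℝ) (X : Ω → α) (ω : Ω) : ℝ :=
  ∑ ω' with X ω' = X ω, P ω'

section

variable {Ω Ω' α β γ δ : Type} [Fintype Ω] [Fintype Ω']

theorem fb_eq (P : Ω → ℝ) (X : Ω → α) (ω : Ω) : fb P X ω = pr P X (X ω) := rfl

theorem fb_pos {P : Ω → ℝ} (hP : ∀ ω, 0 ≤ P ω) (X : Ω → α) {ω : Ω} (h : P ω ≠ 0) :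
    0 < fb P X ω := by
  have h1 : 0 < P ω := lt_of_le_of_ne (hP ω) (Ne.symm h)
  exact h1.trans_le (single_le_sum (f := P) (fun i _ => hP i)
    (mem_filter.2 ⟨mem_univ ω, rfl⟩))

theorem pr_nonneg {P : Ω → ℝ} (hP : ∀ ω, 0 ≤ P ω) (X : Ω → α) (a : α) : 0 ≤ pr P X a :=
  sum_nonneg fun i _ => hP i

theorem pr_not_mem {P : Ω → ℝ} {X : Ω → α} {a : α} (h : ∀ ω, X ω ≠ a) : pr P X a = 0 := by
  unfold pr
  rw [filter_eq_empty_iff.2 (fun ω _ => h ω), sum_empty]

theorem sum_pr_mul {P : Ω → ℝ} {X : Ω → α} (s : Finset α) (hs : ∀ ω, X ω ∈ s) (f : α → ℝ) :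
    ∑ a ∈ s, pr P X a * f a = ∑ ω, P ω * f (X ω) := by
  unfold pr
  rw [← sum_fiberwise_of_maps_to (s := univ) (t := s) (g := X) (fun ω _ => hs ω)]
  refine sum_congr rfl fun a _ => ?_
  rw [sum_mul]
  refine sum_congr rfl fun ω hω => ?_
  rw [(mem_filter.1 hω).2]

theorem sum_pr [Fintype α] (P : Ω → ℝ) (X : Ω → α) : ∑ a, pr P X a = ∑ ω, P ω := by
  have h := sum_pr_mul (P := P) (X := X) univ (fun _ => mem_univ _) (fun _ => (1 : ℝ))
  simpa using h

theorem isLaw_pr [Fintype α] {P : Ω → ℝ} (hP : IsLaw P) (X : Ω → α) : IsLaw (pr P X) :=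
  ⟨pr_nonneg hP.nn X, by rw [sum_pr, hP.sum]⟩

/-- The entropy as a sum over any finite set containing the range. -/
theorem H_eq_sum {P : Ω → ℝ} {X : Ω → α} (s : Finset α) (hs : ∀ ω, X ω ∈ s) :
    H P X = ∑ a ∈ s, negMulLog (pr P X a) := by
  unfold H
  refine sum_subset ?_ ?_
  · intro a ha
    obtain ⟨ω, -, rfl⟩ := mem_image.1 ha
    exact hs ω
  · intro a _ ha
    rw [pr_not_mem, negMulLog_zero]
    intro ω h
    exact ha (mem_image.2 ⟨ω, mem_univ ω, h⟩)

theorem H_eq_univ [Fintype α] (P : Ω → ℝ) (X : Ω → α) : H P X = ∑ a, negMulLog (pr P X a) :=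
  H_eq_sum univ fun _ => mem_univ _

/-- The entropy as an expectation. -/
theorem H_eq_pt (P : Ω → ℝ) (X : Ω → α) : H P X = -∑ ω, P ω * log (fb P X ω) := by
  have h := sum_pr_mul (P := P) (X := X) (univ.image X)
    (fun ω => mem_image_of_mem X (mem_univ ω)) (fun a => log (pr P X a))
  rw [show (∑ ω, P ω * log (fb P X ω)) = ∑ ω, P ω * log (pr P X (X ω)) from rfl, ← h]
  unfold H negMulLog
  rw [← sum_neg_distrib]
  refine sum_congr rfl fun a _ => by ring

/-- Random variables with the same level sets have the same entropy. -/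
theorem H_eq {P : Ω → ℝ} {X : Ω → α} {Y : Ω → β} (h : ∀ ω ω', X ω = X ω' ↔ Y ω = Y ω') :
    H P X = H P Y := by
  rw [H_eq_pt, H_eq_pt]
  congr 1
  refine sum_congr rfl fun ω _ => ?_
  have : fb P X ω = fb P Y ω := by
    unfold fb
    refine sum_congr ?_ fun _ _ => rfl
    ext ω'
    simp only [mem_filter, mem_univ, true_and]
    exact h ω' ω
  rw [this]

theorem H_mono {P : Ω → ℝ} (hP : ∀ ω, 0 ≤ P ω) {X : Ω → α} {Y : Ω → β}
    (h : ∀ ω ω', X ω = X ω' → Y ω = Y ω') : H P Y ≤ H P X := by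
  rw [H_eq_pt, H_eq_pt]
  refine neg_le_neg (sum_le_sum fun ω _ => ?_)
  rcases eq_or_ne (P ω) 0 with h0 | h0
  · rw [h0, zero_mul, zero_mul]
  · refine mul_le_mul_of_nonneg_left ?_ (hP ω)
    refine log_le_log (fb_pos hP X h0) ?_
    refine sum_le_sum_of_subset_of_nonneg ?_ (fun i _ _ => hP i)
    intro ω' hω'
    rw [mem_filter] at hω' ⊢
    exact ⟨mem_univ _, h _ _ hω'.2⟩

theorem H_nonneg {P : Ω → ℝ} (hP : IsLaw P) (X : Ω → α) : 0 ≤ H P X := by
  unfold H
  refine sum_nonneg fun a _ => negMulLog_nonneg (pr_nonneg hP.nn X a) ?_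
  calc pr P X a ≤ ∑ ω, P ω := sum_le_sum_of_subset_of_nonneg (filter_subset _ _)
        (fun i _ _ => hP.nn i)
    _ = 1 := hP.sum

/-- Submodularity: if `Z` is a function of `U` and a function of `V` then
`H(U,V) + H(Z) ≤ H(U) + H(V)`. -/
theorem H_submod {P : Ω → ℝ} (hP : IsLaw P) {U : Ω → α} {V : Ω → β} {Z : Ω → γ}
    (hU : ∀ ω ω', U ω = U ω' → Z ω = Z ω') (hV : ∀ ω ω', V ω = V ω' → Z ω = Z ω') :
    H P (fun ω => (U ω, V ω)) + H P Z ≤ H P U + H P V := by
  set W : Ω → α × β := fun ω => (U ω, V ω) with hW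
  have key : ∑ ω, P ω * (fb P U ω * fb P V ω / (fb P W ω * fb P Z ω)) ≤ 1 := by
    have e1 : ∀ ω, P ω * (fb P U ω * fb P V ω / (fb P W ω * fb P Z ω)) =
        ∑ ω₁, ∑ ω₂, P ω₁ * P ω₂ *
          (if U ω₁ = U ω ∧ V ω₂ = V ω then P ω / (fb P W ω * fb P Z ω) else 0) := by
      intro ω
      have a1 : fb P U ω = ∑ ω₁, if U ω₁ = U ω then P ω₁ else 0 := by
        unfold fb; rw [sum_filter]
      have a2 : fb P V ω = ∑ ω₂, if V ω₂ = V ω then P ω₂ else 0 := by
        unfold fb; rw [sum_filter]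
      rw [show P ω * (fb P U ω * fb P V ω / (fb P W ω * fb P Z ω)) =
        fb P U ω * fb P V ω * (P ω / (fb P W ω * fb P Z ω)) by ring]
      rw [a1, a2, sum_mul_sum, sum_mul]
      refine sum_congr rfl fun ω₁ _ => ?_
      rw [sum_mul]
      refine sum_congr rfl fun ω₂ _ => ?_
      by_cases h1 : U ω₁ = U ω <;> by_cases h2 : V ω₂ = V ω <;> simp [h1, h2]
    simp only [e1]
    rw [sum_comm]
    have e2 : ∀ ω₁, ∑ ω, ∑ ω₂, P ω₁ * P ω₂ *
          (if U ω₁ = U ω ∧ V ω₂ = V ω then P ω / (fb P W ω * fb P Z ω) else 0) ≤ P ω₁ := by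
      intro ω₁
      rw [sum_comm]
      have e3 : ∀ ω₂, ∑ ω, P ω₁ * P ω₂ *
          (if U ω₁ = U ω ∧ V ω₂ = V ω then P ω / (fb P W ω * fb P Z ω) else 0) ≤
          P ω₁ * (P ω₂ * (if Z ω₂ = Z ω₁ then 1 / fb P Z ω₁ else 0)) := by
        intro ω₂
        rw [← mul_sum, mul_assoc]
        rcases eq_or_ne (P ω₁) 0 with h0 | h0
        · rw [h0, zero_mul, zero_mul]
        refine mul_le_mul_of_nonneg_left ?_ (hP.nn ω₁)
        refine mul_le_mul_of_nonneg_left ?_ (hP.nn ω₂)
        have hz : 0 < fb P Z ω₁ := fb_pos hP.nn Z h0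
        by_cases hex : ∃ ω, U ω₁ = U ω ∧ V ω₂ = V ω
        · obtain ⟨ω₀, h1, h2⟩ := hex
          have hZ : Z ω₂ = Z ω₁ := (hV _ _ h2).trans (hU _ _ h1).symm
          rw [if_pos hZ]
          have e4 : ∀ ω, (if U ω₁ = U ω ∧ V ω₂ = V ω then P ω / (fb P W ω * fb P Z ω) else 0) =
              (if W ω = W ω₀ then P ω else 0) * (1 / (fb P W ω₀ * fb P Z ω₁)) := by
            intro ω
            by_cases hc : U ω₁ = U ω ∧ V ω₂ = V ω
            · have hWe : W ω = W ω₀ := by
                simp only [hW, Prod.mk.injEq]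
                exact ⟨hc.1.symm.trans h1, hc.2.symm.trans h2⟩
              rw [if_pos hc, if_pos hWe]
              have f1 : fb P W ω = fb P W ω₀ := by
                unfold fb
                rw [hWe]
              have f2 : fb P Z ω = fb P Z ω₁ := by
                unfold fb
                rw [hU _ _ hc.1]
              rw [f1, f2]
              ring
            · have hWe : ¬ W ω = W ω₀ := by
                intro hh
                simp only [hW, Prod.mk.injEq] at hh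
                exact hc ⟨h1.trans hh.1.symm, h2.trans hh.2.symm⟩
              rw [if_neg hc, if_neg hWe, zero_mul]
          simp only [e4]
          rw [← sum_mul, ← sum_filter]
          have hfw : (∑ a with W a = W ω₀, P a) = fb P W ω₀ :=
            sum_congr (by ext; simp) fun _ _ => rfl
          rw [hfw]
          have hw : 0 ≤ fb P W ω₀ := sum_nonneg fun i _ => hP.nn i
          rcases hw.eq_or_lt with hw0 | hw0
          · rw [← hw0, zero_mul]
            positivity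
          · rw [show fb P W ω₀ * (1 / (fb P W ω₀ * fb P Z ω₁)) = 1 / fb P Z ω₁ by
              field_simp]
        · push Not at hex
          have e5 : ∀ ω, (if U ω₁ = U ω ∧ V ω₂ = V ω then P ω / (fb P W ω * fb P Z ω) else 0) =
              0 := by
            intro ω
            rw [if_neg]
            rintro ⟨h1, h2⟩
            exact hex ω h1 h2
          simp only [e5]
          rw [sum_const_zero]
          split_ifs
          · positivity
          · exact le_rfl
      refine (sum_le_sum fun ω₂ _ => e3 ω₂).trans ?_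
      rw [← mul_sum]
      rcases eq_or_ne (P ω₁) 0 with h0 | h0
      · rw [h0, zero_mul]
      have hz : 0 < fb P Z ω₁ := fb_pos hP.nn Z h0
      have e6 : ∑ ω₂, P ω₂ * (if Z ω₂ = Z ω₁ then 1 / fb P Z ω₁ else 0) = 1 := by
        have : ∀ ω₂, P ω₂ * (if Z ω₂ = Z ω₁ then 1 / fb P Z ω₁ else 0) =
            (if Z ω₂ = Z ω₁ then P ω₂ else 0) * (1 / fb P Z ω₁) := by
          intro ω₂
          by_cases h : Z ω₂ = Z ω₁ <;> simp [h]
        simp only [this]
        rw [← sum_mul, ← sum_filter]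
        change fb P Z ω₁ * _ = 1
        field_simp
      rw [e6, mul_one]
    calc ∑ ω₁, ∑ ω, ∑ ω₂, P ω₁ * P ω₂ *
          (if U ω₁ = U ω ∧ V ω₂ = V ω then P ω / (fb P W ω * fb P Z ω) else 0) ≤ ∑ ω₁, P ω₁ :=
        sum_le_sum fun ω₁ _ => e2 ω₁
      _ = 1 := hP.sum
  have hpt : ∀ ω, P ω * (log (fb P U ω) + log (fb P V ω) - log (fb P W ω) - log (fb P Z ω)) ≤
      P ω * (fb P U ω * fb P V ω / (fb P W ω * fb P Z ω)) - P ω := by
    intro ω
    rcases eq_or_ne (P ω) 0 with h0 | h0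
    · rw [h0]; simp
    have u := fb_pos hP.nn U h0
    have v := fb_pos hP.nn V h0
    have w := fb_pos hP.nn W h0
    have z := fb_pos hP.nn Z h0
    have h1 := log_le_sub_one_of_pos (x := fb P U ω * fb P V ω / (fb P W ω * fb P Z ω))
      (by positivity)
    rw [log_div (by positivity) (by positivity), log_mul u.ne' v.ne', log_mul w.ne' z.ne'] at h1
    calc P ω * (log (fb P U ω) + log (fb P V ω) - log (fb P W ω) - log (fb P Z ω)) ≤
        P ω * (fb P U ω * fb P V ω / (fb P W ω * fb P Z ω) - 1) :=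
          mul_le_mul_of_nonneg_left (by linarith) (hP.nn ω)
      _ = _ := by ring
  have hs := sum_le_sum fun ω (_ : ω ∈ (univ : Finset Ω)) => hpt ω
  rw [sum_sub_distrib, hP.sum] at hs
  rw [H_eq_pt, H_eq_pt, H_eq_pt, H_eq_pt]
  have hexp : ∑ ω, P ω * (log (fb P U ω) + log (fb P V ω) - log (fb P W ω) - log (fb P Z ω)) =
      ∑ ω, P ω * log (fb P U ω) + ∑ ω, P ω * log (fb P V ω) - ∑ ω, P ω * log (fb P W ω) -
        ∑ ω, P ω * log (fb P Z ω) := by
    rw [← sum_add_distrib, ← sum_sub_distrib, ← sum_sub_distrib]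
    refine sum_congr rfl fun ω _ => by ring
  rw [hexp] at hs
  linarith

/-- Subadditivity. -/
theorem H_pair_le {P : Ω → ℝ} (hP : IsLaw P) (U : Ω → α) (V : Ω → β) :
    H P (fun ω => (U ω, V ω)) ≤ H P U + H P V := by
  have h := H_submod hP (U := U) (V := V) (Z := fun _ => (0 : ℕ)) (fun _ _ _ => rfl)
    (fun _ _ _ => rfl)
  have h0 := H_nonneg hP (fun _ : Ω => (0 : ℕ))
  linarith

/-- Gibbs' inequality. -/
theorem gibbs {ι : Type} (s : Finset ι) (p q : ι → ℝ) (hp : ∀ i ∈ s, 0 ≤ p i)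
    (hq : ∀ i ∈ s, 0 ≤ q i) (hpq : ∀ i ∈ s, q i = 0 → p i = 0) (hs : ∑ i ∈ s, q i ≤ ∑ i ∈ s, p i) :
    ∑ i ∈ s, p i * log (q i) ≤ ∑ i ∈ s, p i * log (p i) := by
  have h : ∀ i ∈ s, p i * log (q i) - p i * log (p i) ≤ q i - p i := by
    intro i hi
    rcases (hp i hi).eq_or_lt with h0 | h0
    · rw [← h0]
      simpa using hq i hi
    · have hq0 : 0 < q i := by
        rcases (hq i hi).eq_or_lt with h1 | h1
        · exact absurd (hpq i hi h1.symm) h0.ne'
        · exact h1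
      have h2 := log_le_sub_one_of_pos (x := q i / p i) (by positivity)
      rw [log_div hq0.ne' h0.ne'] at h2
      calc p i * log (q i) - p i * log (p i) = p i * (log (q i) - log (p i)) := by ring
        _ ≤ p i * (q i / p i - 1) := mul_le_mul_of_nonneg_left h2 h0.le
        _ = q i - p i := by field_simp
  have h1 := sum_le_sum h
  rw [sum_sub_distrib, sum_sub_distrib] at h1
  linarith

theorem H_le_log [Fintype α] {P : Ω → ℝ} (hP : IsLaw P) (X : Ω → α) :
    H P X ≤ log (Fintype.card α) := by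
  have hl := isLaw_pr hP X
  have hne : 0 < (Fintype.card α : ℝ) := by
    rcases Nat.eq_zero_or_pos (Fintype.card α) with h0 | h0
    · exfalso
      have : IsEmpty α := Fintype.card_eq_zero_iff.1 h0
      have h1 := hl.sum
      rw [Fintype.sum_empty] at h1
      norm_num at h1
    · exact_mod_cast h0
  have h := gibbs univ (pr P X) (fun _ => 1 / (Fintype.card α : ℝ)) (fun i _ => hl.nn i)
    (fun _ _ => by positivity) (fun _ _ h => by
      exfalso
      have : (0 : ℝ) < 1 / (Fintype.card α : ℝ) := by positivity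
      linarith) (by
      rw [hl.sum, sum_const, card_univ, nsmul_eq_mul]
      rw [mul_one_div_cancel hne.ne'])
  rw [← sum_mul, hl.sum, one_mul, one_div, log_inv] at h
  rw [H_eq_univ]
  have e : ∑ a, negMulLog (pr P X a) = -∑ a, pr P X a * log (pr P X a) := by
    rw [← sum_neg_distrib]
    refine sum_congr rfl fun a _ => by unfold negMulLog; ring
  rw [e]
  linarith

/-- Independent variables on a product space. -/
theorem H_prod {P : Ω → ℝ} {Q : Ω' → ℝ} (hP : IsLaw P) (hQ : IsLaw Q) (X : Ω → α) (Y : Ω' → β) :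
    H (fun ω : Ω × Ω' => P ω.1 * Q ω.2) (fun ω => (X ω.1, Y ω.2)) = H P X + H Q Y := by
  rw [H_eq_pt, H_eq_pt, H_eq_pt]
  have hfb : ∀ ω : Ω × Ω', fb (fun ω : Ω × Ω' => P ω.1 * Q ω.2) (fun ω => (X ω.1, Y ω.2)) ω =
      fb P X ω.1 * fb Q Y ω.2 := by
    intro ω
    unfold fb
    rw [sum_mul_sum, ← sum_product']
    refine sum_congr ?_ fun _ _ => rfl
    ext ω'
    simp only [mem_filter, mem_univ, true_and, mem_product, Prod.mk.injEq]
  have h1 : ∀ ω : Ω × Ω', P ω.1 * Q ω.2 *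
      log (fb (fun ω : Ω × Ω' => P ω.1 * Q ω.2) (fun ω => (X ω.1, Y ω.2)) ω) =
      (P ω.1 * log (fb P X ω.1)) * Q ω.2 + P ω.1 * (Q ω.2 * log (fb Q Y ω.2)) := by
    intro ω
    rw [hfb]
    rcases eq_or_ne (P ω.1) 0 with h0 | h0
    · rw [h0]; ring
    rcases eq_or_ne (Q ω.2) 0 with h2 | h2
    · rw [h2]; ring
    rw [log_mul (fb_pos hP.nn X h0).ne' (fb_pos hQ.nn Y h2).ne']
    ring
  simp only [h1]
  rw [sum_add_distrib, Fintype.sum_prod_type, Fintype.sum_prod_type]
  simp only [← mul_sum, ← sum_mul]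
  rw [hP.sum, hQ.sum]
  ring

/-- Change of the probability space. -/
theorem H_push {P : Ω → ℝ} {Q : Ω' → ℝ} (f : Ω → Ω') (h : ∀ ω', Q ω' = pr P f ω')
    (X : Ω' → α) : H Q X = H P (fun ω => X (f ω)) := by
  have hpr : ∀ a, pr Q X a = pr P (fun ω => X (f ω)) a := by
    intro a
    unfold pr
    rw [sum_congr rfl fun ω' _ => h ω']
    unfold pr
    rw [← sum_fiberwise_of_maps_to (s := univ.filter fun ω => X (f ω) = a)
      (t := univ.filter fun ω' => X ω' = a) (g := f) (by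
        intro ω hω
        rw [mem_filter] at hω ⊢
        exact ⟨mem_univ _, hω.2⟩)]
    refine sum_congr rfl fun ω' hω' => ?_
    refine sum_congr ?_ fun _ _ => rfl
    ext ω
    simp only [mem_filter, mem_univ, true_and]
    constructor
    · intro hh
      rw [hh]
      exact ⟨(mem_filter.1 hω').2, rfl⟩
    · exact fun hh => hh.2
  set s : Finset α := univ.image X ∪ univ.image (fun ω => X (f ω)) with hs
  rw [H_eq_sum s (fun ω' => mem_union_left _ (mem_image_of_mem X (mem_univ ω'))),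
    H_eq_sum (X := fun ω => X (f ω)) s
      (fun ω => mem_union_right _ (mem_image_of_mem (fun ω => X (f ω)) (mem_univ ω)))]
  exact sum_congr rfl fun a _ => by rw [hpr]

theorem pr_equiv (P : Ω → ℝ) (e : Ω ≃ Ω') (ω' : Ω') : pr P e ω' = P (e.symm ω') := by
  unfold pr
  rw [sum_eq_single (e.symm ω')]
  · intro ω hω hne
    exfalso
    exact hne (by rw [← (mem_filter.1 hω).2, e.symm_apply_apply])
  · intro hh
    exact (hh (mem_filter.2 ⟨mem_univ _, e.apply_symm_apply ω'⟩)).elim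

theorem H_equiv {P : Ω → ℝ} {Q : Ω' → ℝ} (e : Ω ≃ Ω') (h : ∀ ω, Q (e ω) = P ω)
    (X : Ω' → α) : H Q X = H P (fun ω => X (e ω)) := by
  refine H_push e (fun ω' => ?_) X
  rw [pr_equiv, ← h, e.apply_symm_apply]

/-- The entropy of a law. -/
noncomputable def ent (p : Ω → ℝ) : ℝ := ∑ x, negMulLog (p x)

theorem ent_eq_H (p : Ω → ℝ) : ent p = H p (fun x => x) := by
  rw [H_eq_univ]
  refine sum_congr rfl fun a _ => ?_
  congr 1
  unfold pr
  rw [sum_eq_single a]
  · intro b hb hne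
    exact absurd (mem_filter.1 hb).2 hne
  · intro h
    exact (h (mem_filter.2 ⟨mem_univ a, rfl⟩)).elim

theorem H_eq_ent [Fintype α] (P : Ω → ℝ) (X : Ω → α) : H P X = ent (pr P X) :=
  H_eq_univ P X

/-- Chain rule with conditional laws given by a kernel `R`. -/
theorem H_fib [Fintype α] [Fintype β] {P : Ω → ℝ} (Z : Ω → α) (X : Ω → β) (R : α → β → ℝ)
    (hR : ∀ z, pr P Z z ≠ 0 → ∑ b, R z b = 1)
    (h : ∀ z b, pr P (fun ω => (Z ω, X ω)) (z, b) = pr P Z z * R z b) :
    H P (fun ω => (Z ω, X ω)) = H P Z + ∑ z, pr P Z z * ent (R z) := by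
  rw [H_eq_univ, H_eq_univ, Fintype.sum_prod_type, ← sum_add_distrib]
  refine sum_congr rfl fun z _ => ?_
  simp only [h, negMulLog_mul]
  rw [sum_add_distrib, ← sum_mul, ← mul_sum]
  rcases eq_or_ne (pr P Z z) 0 with h0 | h0
  · rw [h0]; simp
  · rw [hR z h0, one_mul]
    rfl

end

end Pool.Agent.BR
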