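import Pool.Agent.BR.Fib

/-!
Conditioning on an event, splitting off the diagonal.
-/

set_option autoImplicit false

namespace Pool.Agent.BR

open Finset Real
open scoped Classical

theorem thm_Cond : St_Cond := by
  intro Ω _ P E hP hE
  set m : ℝ := ∑ ω, (if ω ∈ E then P ω else 0) with hm
  have hm0 : 0 < m := by linarith
  have hm1 : m ≤ 1 := by
    rw [hm, ← hP.sum]
    refine sum_le_sum fun ω _ => ?_
    split_ifs
    · exact le_rfl
    · exact hP.nn ω
  set Q : Ω → ℝ := fun ω => (if ω ∈ E then P ω else 0) / m with hQ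
  have hQl : IsLaw Q := by
    refine ⟨fun ω => div_nonneg ?_ hm0.le, ?_⟩
    · split_ifs
      · exact hP.nn ω
      · exact le_rfl
    · rw [hQ, ← sum_div, ← hm, div_self hm0.ne']
  refine ⟨Q, hQl, fun ω h => ?_, ?_⟩
  · by_contra hc
    apply h
    simp only [hQ, if_neg hc, zero_div]
  -- `ent P ≤ m ent Q + (1-m) log card + log 2`
  have hcard : 0 ≤ log (Fintype.card Ω : ℝ) := (ent_nonneg hP).trans (ent_le_log hP)
  have key : ent P ≤ m * ent Q + (1 - m) * log (Fintype.card Ω) + log 2 := by
    have h1 : H P (fun ω => ω) ≤ H P (fun ω => (decide (ω ∈ E), ω)) :=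
      H_mono hP.nn fun ω ω' h => (Prod.mk.inj h).2
    rcases hm1.eq_or_lt with h1m | h1m
    · -- m = 1
      have hPQ : P = Q := by
        have h2 : ∀ ω ∈ univ, (if ω ∈ E then P ω else 0) ≤ P ω := by
          intro ω _
          split_ifs
          · exact le_rfl
          · exact hP.nn ω
        have h3 : ∑ ω, (if ω ∈ E then P ω else 0) = ∑ ω, P ω := by
          rw [hP.sum]
          exact h1m
        have h4 := (sum_eq_sum_iff_of_le h2).1 h3
        funext ω
        simp only [hQ]
        rw [h4 ω (mem_univ ω), h1m, div_one]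
      have hl2 : 0 ≤ log 2 := log_nonneg (by norm_num)
      rw [← hPQ, h1m]
      linarith
    · set R : Ω → ℝ := fun ω => (if ω ∈ E then 0 else P ω) / (1 - m) with hR
      have hmm : 0 < 1 - m := by linarith
      have hsplit : ∀ ω, (if ω ∈ E then P ω else 0) + (if ω ∈ E then 0 else P ω) = P ω := by
        intro ω
        split_ifs <;> simp
      have hRs : ∑ ω, (if ω ∈ E then 0 else P ω) = 1 - m := by
        have := hP.sum
        rw [← sum_congr rfl fun ω _ => hsplit ω, sum_add_distrib, ← hm] at this
        linarith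
      have hRl : IsLaw R := by
        refine ⟨fun ω => div_nonneg ?_ hmm.le, ?_⟩
        · split_ifs
          · exact le_rfl
          · exact hP.nn ω
        · rw [hR, ← sum_div, hRs, div_self hmm.ne']
      have hpt : ∀ ω, negMulLog (P ω) = m * negMulLog (Q ω) + Q ω * negMulLog m +
          ((1 - m) * negMulLog (R ω) + R ω * negMulLog (1 - m)) := by
        intro ω
        by_cases hw : ω ∈ E
        · have e1 : P ω = m * Q ω := by
            simp only [hQ, if_pos hw]
            field_simp
          have e2 : R ω = 0 := by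
            simp only [hR, if_pos hw, zero_div]
          rw [e2, negMulLog_zero]
          rw [show negMulLog (P ω) = negMulLog (m * Q ω) by rw [e1], negMulLog_mul]
          ring
        · have e1 : P ω = (1 - m) * R ω := by
            simp only [hR, if_neg hw]
            field_simp
          have e2 : Q ω = 0 := by
            simp only [hQ, if_neg hw, zero_div]
          rw [e2, negMulLog_zero]
          rw [show negMulLog (P ω) = negMulLog ((1 - m) * R ω) by rw [e1], negMulLog_mul]
          ring
      have hent : ent P = m * ent Q + negMulLog m + ((1 - m) * ent R + negMulLog (1 - m)) := by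
        unfold ent
        simp only [hpt, sum_add_distrib, ← mul_sum, ← sum_mul, hQl.sum, hRl.sum, one_mul]
      have hbin : negMulLog m + negMulLog (1 - m) ≤ log 2 := by
        have := binEntropy_le_log_two (p := m)
        rw [binEntropy_eq_negMulLog_add_negMulLog_one_sub] at this
        exact this
      have hRle := mul_le_mul_of_nonneg_left (ent_le_log hRl) hmm.le
      linarith
  have hQle := ent_le_log hQl
  have hPle := ent_le_log hP
  -- m (log card - ent Q) ≤ log card - ent P + log 2
  have h2 : m * (log (Fintype.card Ω) - ent Q) ≤ log (Fintype.card Ω) - ent P + log 2 := by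
    linarith
  have h3 : 1 / 2 * (log (Fintype.card Ω) - ent Q) ≤ m * (log (Fintype.card Ω) - ent Q) :=
    mul_le_mul_of_nonneg_right hE (by linarith)
  linarith

theorem thm_Diag : St_Diag := by
  intro G _ _ h2 N Q hN hQ
  obtain ⟨M, rfl⟩ : ∃ M, N = M + 1 := ⟨N - 1, by omega⟩
  set Z : (Fin (M + 1) → G) → (Fin M → G) := fun y i => y i.succ + y 0 with hZ
  set cc : (Fin M → G) → G → (Fin (M + 1) → G) := fun z t i => (Fin.cons 0 z : Fin (M + 1) → G) i + t
    with hcc
  have hcc0 : ∀ z t, cc z t 0 = t := by
    intro z t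
    simp only [hcc, Fin.cons_zero, zero_add]
  have hccs : ∀ z t (i : Fin M), cc z t i.succ = z i + t := by
    intro z t i
    simp only [hcc, Fin.cons_succ]
  have huniq : ∀ (z : Fin M → G) (t : G) (y : Fin (M + 1) → G),
      (Z y, y 0) = (z, t) ↔ y = cc z t := by
    intro z t y
    rw [Prod.mk.injEq]
    constructor
    · rintro ⟨h1, h3⟩
      funext i
      refine Fin.cases ?_ (fun i => ?_) i
      · rw [hcc0, h3]
      · rw [hccs, ← h1, ← h3]
        simp only [hZ]
        rw [add_add_self h2]
    · rintro rfl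
      refine ⟨?_, hcc0 z t⟩
      funext i
      simp only [hZ]
      rw [hcc0, hccs, add_add_self h2]
  have hpr : ∀ z t, pr Q (fun y => (Z y, y 0)) (z, t) = Q (cc z t) := fun z t =>
    pr_single (cc z t) (huniq z t)
  have hmass : ∀ z, pr Q Z z = ∑ t, Q (cc z t) := by
    intro z
    have h3 : pr Q Z z = ∑ t, pr Q (fun y => (Z y, y 0)) (z, t) := by
      unfold pr
      simp only [sum_filter]
      rw [sum_comm]
      refine sum_congr rfl fun y _ => ?_
      rw [sum_eq_single (y 0)]
      · by_cases h : Z y = z
        · rw [if_pos h, if_pos (by rw [h])]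
        · rw [if_neg h, if_neg (fun hh => h (Prod.mk.inj hh).1)]
      · intro t _ ht
        exact if_neg (fun hh => ht (Prod.mk.inj hh).2.symm)
      · intro hh
        exact absurd (mem_univ _) hh
    rw [h3]
    exact sum_congr rfl fun t _ => hpr z t
  set R : (Fin M → G) → G → ℝ := fun z t => Q (cc z t) / pr Q Z z with hR
  have hRl : ∀ z, pr Q Z z ≠ 0 → IsLaw (R z) := by
    intro z hz
    refine ⟨fun t => div_nonneg (hQ.nn _) (pr_nonneg hQ.nn _ _), ?_⟩
    simp only [hR]
    rw [← sum_div, ← hmass, div_self hz]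
  have hfib := H_fib (P := Q) Z (fun y => y 0) R (fun z hz => (hRl z hz).sum) (fun z t => by
    rw [hpr]
    simp only [hR]
    rcases eq_or_ne (pr Q Z z) 0 with h0 | h0
    · rw [h0, zero_mul]
      have h3 := hmass z
      rw [h0] at h3
      exact (sum_eq_zero_iff_of_nonneg (fun t _ => hQ.nn _)).1 h3.symm t (mem_univ t)
    · field_simp)
  have e1 : H Q (fun y => (Z y, y 0)) = ent Q := by
    rw [ent_eq_H]
    refine H_eq ?_
    intro y y'
    constructor
    · intro h
      have h3 := (huniq (Z y') (y' 0) y).1 h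
      have h4 := (huniq (Z y') (y' 0) y').1 rfl
      exact h3.trans h4.symm
    · rintro h
      rw [show y = y' from h]
  have e2 := H_le_log hQ Z
  have hcard1 : (Fintype.card (Fin M → G) : ℝ) = (Fintype.card G : ℝ) ^ M := by
    rw [Fintype.card_fun, Fintype.card_fin]
    push_cast
    rfl
  have hcard2 : (Fintype.card (Fin (M + 1) → G) : ℝ) = (Fintype.card G : ℝ) ^ (M + 1) := by
    rw [Fintype.card_fun, Fintype.card_fin]
    push_cast
    rfl
  rw [hcard1, log_pow] at e2
  rw [e1] at hfib
  have hsum1 : ∑ z, pr Q Z z = 1 := by rw [sum_pr, hQ.sum]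
  have hav : ∑ z, pr Q Z z * Df (R z) ≤ log (Fintype.card (Fin (M + 1) → G)) - ent Q := by
    have : ∑ z, pr Q Z z * Df (R z) = log (Fintype.card G) - ∑ z, pr Q Z z * ent (R z) := by
      unfold Df
      simp only [mul_sub, sum_sub_distrib, ← sum_mul, hsum1, one_mul]
    rw [this, hcard2, log_pow]
    push_cast
    linarith
  obtain ⟨z, hz0, hz1⟩ : ∃ z, pr Q Z z ≠ 0 ∧
      Df (R z) ≤ log (Fintype.card (Fin (M + 1) → G)) - ent Q := by
    by_contra hcon
    push Not at hcon
    set D := log (Fintype.card (Fin (M + 1) → G)) - ent Q with hD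
    have h3 : ∑ z, pr Q Z z * D < ∑ z, pr Q Z z * Df (R z) := by
      obtain ⟨z₀, hz₀⟩ : ∃ z, pr Q Z z ≠ 0 := by
        by_contra hh
        push Not at hh
        simp only [hh, sum_const_zero] at hsum1
        exact zero_ne_one hsum1
      refine sum_lt_sum (fun z _ => ?_) ⟨z₀, mem_univ _, ?_⟩
      · rcases eq_or_ne (pr Q Z z) 0 with h0 | h0
        · rw [h0, zero_mul, zero_mul]
        · exact mul_le_mul_of_nonneg_left (hcon z h0).le (pr_nonneg hQ.nn _ _)
      · exact mul_lt_mul_of_pos_left (hcon z₀ hz₀)
          (lt_of_le_of_ne (pr_nonneg hQ.nn _ _) (Ne.symm hz₀))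
    rw [← sum_mul, hsum1, one_mul] at h3
    linarith
  refine ⟨fun i => (Fin.cons 0 z : Fin (M + 1) → G) i, R z, hRl z hz0, fun t ht => ?_, hz1⟩
  intro h
  apply ht
  simp only [hR]
  rw [show Q (cc z t) = 0 from h, zero_div]

end Pool.Agent.BR
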