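import Pool.Agent.BR.St

/-!
Lemma C: the core of a law.
-/

set_option autoImplicit false

namespace Pool.Agent.BR

open Finset Real
open scoped Classical

theorem core_Df_equiv {Ω Ω' : Type} [Fintype Ω] [Fintype Ω'] (e : Ω ≃ Ω') (p : Ω → ℝ)
    (q : Ω' → ℝ) (h : ∀ x, p x = q (e x)) : Df p = Df q := by
  unfold Df ent
  rw [Fintype.card_congr e]
  congr 1
  exact Fintype.sum_equiv e _ _ fun x => by rw [h]

section

variable {G : Type} [AddCommGroup G] [Fintype G]

theorem core_fw_law (W : AddSubgroup G) {B : G → ℝ} (hB : IsLaw B) (b : G)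
    (h : 0 < ∑ w : W, B (b + w)) : IsLaw (fw W B b) := by
  refine ⟨fun w => div_nonneg (hB.nn _) h.le, ?_⟩
  unfold fw
  rw [← sum_div, div_self h.ne']

/-- the piece of a piece -/
theorem core_fw_fw (W : AddSubgroup G) (U : AddSubgroup W) (B : G → ℝ) (b : G) (x : W)
    (h : 0 < ∑ w : W, B (b + w)) (u : U) :
    fw U (fw W B b) x u = fw (U.map W.subtype) B (b + x)
      (U.equivMapOfInjective W.subtype W.subtype_injective u) := by
  unfold fw
  have hne : (∑ w : W, B (b + w)) ≠ 0 := h.ne'
  have e1 : ∀ u : U, ((b + x : G) + ((U.equivMapOfInjective W.subtype W.subtype_injective u :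
      U.map W.subtype) : G)) = b + ((x + (u : W) : W) : G) := by
    intro u
    rw [AddSubgroup.coe_equivMapOfInjective_apply]
    simp only [AddSubgroup.coe_add, AddSubgroup.coe_subtype]
    rw [add_assoc]
  have e2 : ∑ w' : (U.map W.subtype : AddSubgroup G), B ((b + x : G) + (w' : G)) =
      ∑ u : U, B (b + ((x + (u : W) : W) : G)) := by
    symm
    refine Fintype.sum_equiv (U.equivMapOfInjective W.subtype W.subtype_injective).toEquiv _ _ ?_
    intro u
    exact congrArg B (e1 u).symm
  rw [e1, e2, ← sum_div, div_div_div_cancel_right₀ hne]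

end

/-- Lemma C -/
theorem thm_Core (hDW : St_DW) : St_Core := by
  intro G _ _ h2 B hB
  let s : Set (AddSubgroup G × G) := {q | 0 < ∑ w : q.1, B (q.2 + w)}
  let f : AddSubgroup G × G → ℝ := fun q => Df (fw q.1 B q.2) + cod q.1 / 4
  have hsum : ∑ w : (⊤ : AddSubgroup G), B (0 + w) = 1 := by
    rw [← hB.sum]
    refine Fintype.sum_equiv AddSubgroup.topEquiv.toEquiv _ _ ?_
    intro w
    rw [zero_add]
    rfl
  have htop : ((⊤ : AddSubgroup G), (0 : G)) ∈ s := by
    show 0 < ∑ w : (⊤ : AddSubgroup G), B (0 + w)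
    rw [hsum]
    exact one_pos
  obtain ⟨⟨W, b⟩, hWb, hmin⟩ := Set.exists_min_image s f (Set.toFinite s) ⟨_, htop⟩
  have hWb' : 0 < ∑ w : W, B (b + w) := hWb
  have hlaw := core_fw_law W hB b hWb'
  have hcardW : (Nat.card W : ℝ) = Fintype.card W := by
    rw [Nat.card_eq_fintype_card]
  refine ⟨W, b, hWb', ?_, ?_⟩
  · -- all quotients are spread
    intro U
    have hch := (hDW W U U (fw W B b) hlaw).2.1
    have hpt : ∀ x : W, fw W B b x * (Df (fw W B b) - cod U / 4) ≤
        fw W B b x * Df (fw U (fw W B b) x) := by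
      intro x
      rcases eq_or_ne (fw W B b x) 0 with h0 | h0
      · rw [h0, zero_mul, zero_mul]
      refine mul_le_mul_of_nonneg_left ?_ (hlaw.nn x)
      have hpos : 0 < ∑ w : (U.map W.subtype : AddSubgroup G), B ((b + x : G) + w) := by
        have h1 : 0 < B (b + x) := by
          refine lt_of_le_of_ne (hB.nn _) fun h' => h0 ?_
          unfold fw
          rw [← h', zero_div]
        refine h1.trans_le ?_
        have h3 := single_le_sum (s := univ)
          (f := fun w : (U.map W.subtype : AddSubgroup G) => B ((b + x : G) + w))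
          (fun i _ => hB.nn _) (mem_univ (0 : (U.map W.subtype : AddSubgroup G)))
        simp only [AddSubgroup.coe_zero, add_zero] at h3
        exact h3
      have h4 : f (W, b) ≤ f ((U.map W.subtype : AddSubgroup G), (b + x : G)) := hmin _ hpos
      have h5 : Df (fw U (fw W B b) x) = Df (fw (U.map W.subtype) B (b + x)) :=
        core_Df_equiv (U.equivMapOfInjective W.subtype W.subtype_injective).toEquiv _ _
          (core_fw_fw W U B b x hWb')
      have h6 : (Nat.card (U.map W.subtype : AddSubgroup G) : ℝ) = Nat.card U := by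
        rw [Nat.card_congr (U.equivMapOfInjective W.subtype W.subtype_injective).toEquiv.symm]
      have h7 : cod (U.map W.subtype : AddSubgroup G) = cod W + cod U := by
        unfold cod
        rw [h6, hcardW]
        ring
      have h8 : Df (fw W B b) + cod W / 4 ≤
          Df (fw (U.map W.subtype) B (b + x)) + cod (U.map W.subtype : AddSubgroup G) / 4 := h4
      rw [h5]
      rw [h7] at h8
      linarith
    have hsum2 : Df (fw W B b) - cod U / 4 ≤ DW U (fw W B b) := by
      have h9 := sum_le_sum fun x (_ : x ∈ (univ : Finset W)) => hpt x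
      rw [← sum_mul, hlaw.sum, one_mul] at h9
      exact h9
    rw [hch] at hsum2
    unfold Df at hsum2
    unfold cod at hsum2 ⊢
    linarith
  · have h1 : f (W, b) ≤ f (⊤, 0) := hmin _ htop
    have h3 : Df (fw (⊤ : AddSubgroup G) B 0) = Df B := by
      refine core_Df_equiv AddSubgroup.topEquiv.toEquiv _ _ ?_
      intro w
      unfold fw
      rw [hsum, div_one, zero_add]
      rfl
    have h4 : cod (⊤ : AddSubgroup G) = 0 := by
      unfold cod
      rw [AddSubgroup.card_top, Nat.card_eq_fintype_card, sub_self]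
    have h5 : Df (fw W B b) + cod W / 4 ≤ Df (fw (⊤ : AddSubgroup G) B 0) +
        cod (⊤ : AddSubgroup G) / 4 := h1
    rw [h3, h4] at h5
    have h6 := Df_nonneg hlaw
    linarith

end Pool.Agent.BR
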