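import Pool.Agent.BR.St

/-!
Equality case of `d[p;q] = 0`, and the uniform laws of cosets.
-/

set_option autoImplicit false

namespace Pool.Agent.BR

open Finset Real
open scoped Classical

section

variable {G : Type} [AddCommGroup G] [Fintype G]

/-- Convolution as a mixture of shifts. -/
theorem Coset_conv (h2 : ∀ x : G, x + x = 0) (p q : G → ℝ) (x : G) :
    conv p q x = ∑ y, q y * p (x + y) := by
  rw [conv_comm h2]
  rfl

/-- Equality case of the concavity of the entropy. -/
theorem Coset_eqcase (h2 : ∀ x : G, x + x = 0) {p q : G → ℝ} (hp : IsLaw p) (hq : IsLaw q)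
    (h : ent (conv p q) ≤ ent p) (x y : G) (hy : q y ≠ 0) : p (x + y) = conv p q x := by
  have hJ : ∀ x, ∑ y, q y * negMulLog (p (x + y)) ≤ negMulLog (conv p q x) := by
    intro x
    have := concaveOn_negMulLog.le_map_sum (t := univ) (w := q) (p := fun y => p (x + y))
      (fun i _ => hq.nn i) hq.sum (fun i _ => hp.nn _)
    simp only [smul_eq_mul] at this
    rw [Coset_conv h2]
    exact this
  have hsum : ∑ x, ∑ y, q y * negMulLog (p (x + y)) = ent p := by
    rw [sum_comm]
    have : ∀ y, ∑ x, q y * negMulLog (p (x + y)) = q y * ent p := by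
      intro y
      rw [← mul_sum]
      congr 1
      exact sum_shift y (fun x => negMulLog (p x))
    simp only [this]
    rw [← sum_mul, hq.sum, one_mul]
  have hle : ∑ x, negMulLog (conv p q x) ≤ ∑ x, ∑ y, q y * negMulLog (p (x + y)) := by
    rw [hsum]
    exact h
  have heq : ∀ x ∈ (univ : Finset G), ∑ y, q y * negMulLog (p (x + y)) =
      negMulLog (conv p q x) :=
    (sum_eq_sum_iff_of_le (fun i _ => hJ i)).1 (le_antisymm (sum_le_sum fun i _ => hJ i) hle)
  have h3 := (strictConcaveOn_negMulLog.map_sum_eq_iff' (t := univ) (w := q)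
    (p := fun y => p (x + y)) (fun i _ => hq.nn i) hq.sum (fun i _ => hp.nn _)).1 (by
      simp only [smul_eq_mul]
      rw [← Coset_conv h2, heq x (mem_univ x)])
  have h4 := h3 y (mem_univ y) hy
  simp only [smul_eq_mul] at h4
  rw [Coset_conv h2, ← h4]

/-- Sum over a coset. -/
theorem Coset_sum (h2 : ∀ x : G, x + x = 0) (W : AddSubgroup G) (a : G) (f : G → ℝ) :
    ∑ x, (if x + a ∈ W then f x else 0) = ∑ w : W, f (w + a) := by
  rw [← sum_shift a, ← sum_filter]
  symm
  refine sum_bij (fun (w : W) _ => (w : G)) ?_ ?_ ?_ ?_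
  · intro w _
    rw [mem_filter]
    refine ⟨mem_univ _, ?_⟩
    rw [add_add_self h2]
    exact w.2
  · intro w _ w' _ h
    exact Subtype.ext h
  · intro x hx
    rw [mem_filter, add_add_self h2] at hx
    exact ⟨⟨x, hx.2⟩, mem_univ _, rfl⟩
  · intro w _
    rfl

theorem Coset_card (W : AddSubgroup G) : (Nat.card W : ℝ) = ∑ _w : W, (1 : ℝ) := by
  rw [sum_const, nsmul_eq_mul, mul_one, Nat.card_eq_fintype_card, card_univ]

theorem Coset_card_pos (W : AddSubgroup G) : (0 : ℝ) < (Nat.card W : ℝ) := by
  exact_mod_cast Nat.card_pos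

end

theorem thm_DZero : St_DZero := by
  intro G _ _ h2 p q hp hq hd
  have e1 := ent_le_conv h2 hp hq
  have e2 := ent_le_conv' h2 hp hq
  have hd' : ent (conv p q) - (ent p + ent q) / 2 ≤ 0 := hd
  have f1 : ent (conv p q) ≤ ent p := by linarith
  have f2 : ent (conv q p) ≤ ent q := by
    rw [conv_comm h2 q p]
    linarith
  have g1 := fun x y => Coset_eqcase h2 hp hq f1 x y
  have g2 : ∀ x y, p y ≠ 0 → q (x + y) = conv p q x := by
    intro x y hy
    rw [Coset_eqcase h2 hq hp f2 x y hy, conv_comm h2]
  have exa : ∃ a, p a ≠ 0 := by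
    by_contra hc
    push Not at hc
    have := hp.sum
    simp [hc] at this
  have exb : ∃ b, q b ≠ 0 := by
    by_contra hc
    push Not at hc
    have := hq.sum
    simp [hc] at this
  obtain ⟨a, ha⟩ := exa
  obtain ⟨b, hb⟩ := exb
  have hqp : ∀ x, p x = q (x + (a + b)) := by
    intro x
    have h3 := g1 (x + b) b hb
    have h4 := g2 (x + b) a ha
    rw [add_add_self h2] at h3
    rw [h3, ← h4, add_assoc, add_comm b a]
  let W : AddSubgroup G :=
    { carrier := {w | ∀ x, q (x + w) = q x}
      zero_mem' := by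
        intro x
        rw [add_zero]
      add_mem' := by
        intro u v hu hv x
        rw [← add_assoc, hv (x + u), hu x]
      neg_mem' := by
        intro u hu x
        have h3 := hu (x + -u)
        rw [neg_add_cancel_right] at h3
        exact h3.symm }
  have hW : ∀ w, w ∈ W ↔ ∀ x, q (x + w) = q x := fun w => Iff.rfl
  have hsupp : ∀ y, q y ≠ 0 → y + b ∈ W := by
    intro y hy
    rw [hW]
    intro x
    have h3 : ∀ z, p (z + y) = p (z + b) := fun z => by rw [g1 z y hy, g1 z b hb]
    have h4 := h3 (x + (a + b) + b)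
    rw [add_add_self h2, hqp, hqp] at h4
    have k1 : x + (a + b) + b + y + (a + b) = x + (y + b) := by
      have : x + (a + b) + b + y + (a + b) = x + (y + b) + ((a + b) + (a + b)) := by abel
      rw [this, h2, add_zero]
    have k2 : x + (a + b) + (a + b) = x := add_add_self h2 _ _
    rw [k1, k2] at h4
    exact h4
  have hconst : ∀ x, x + b ∈ W → q x = q b := by
    intro x hx
    have h3 := (hW _).1 hx b
    have k1 : b + (x + b) = x := by
      rw [add_comm x b]
      exact self_add_add h2 b x
    rw [k1] at h3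
    exact h3
  have hqf : ∀ x, q x = if x + b ∈ W then q b else 0 := by
    intro x
    split_ifs with hx
    · exact hconst x hx
    · by_contra hc
      exact hx (hsupp x hc)
  have hqb : q b = 1 / (Nat.card W : ℝ) := by
    have h3 := hq.sum
    rw [sum_congr rfl fun x _ => hqf x, Coset_sum h2 W b (fun _ => q b), sum_const,
      nsmul_eq_mul, card_univ, ← Nat.card_eq_fintype_card] at h3
    rw [eq_div_iff (Coset_card_pos W).ne', mul_comm]
    exact h3
  refine ⟨W, a, b, ?_, ?_⟩
  · intro x
    rw [hqp x, hqf, hqb]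
    have k1 : x + (a + b) + b = x + a := by
      rw [← add_assoc, add_add_self h2]
    rw [k1]
  · intro x
    rw [hqf, hqb]

theorem thm_Coset : St_Coset := by
  intro G _ _ h2 B p W a hB hp
  have hc := Coset_card_pos W
  set N : ℝ := (Nat.card W : ℝ) with hN
  have hent : ent p = log N := by
    unfold ent
    have e1 : ∀ x, negMulLog (p x) = if x + a ∈ W then negMulLog (1 / N) else 0 := by
      intro x
      rw [hp x]
      split_ifs
      · rfl
      · exact negMulLog_zero
    rw [sum_congr rfl fun x _ => e1 x, Coset_sum h2 W a (fun _ => negMulLog (1 / N)), sum_const,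
      nsmul_eq_mul, card_univ, ← Nat.card_eq_fintype_card, ← hN]
    unfold negMulLog
    rw [one_div, log_inv]
    field_simp
  refine ⟨hent, ?_⟩
  have hfib : ∀ g : G, ∑ x, (if (QuotientAddGroup.mk x : G ⧸ W) = QuotientAddGroup.mk g
      then (1 : ℝ) else 0) = N := by
    intro g
    have e1 : ∀ x, (if (QuotientAddGroup.mk x : G ⧸ W) = QuotientAddGroup.mk g
        then (1 : ℝ) else 0) = if x + g ∈ W then (1 : ℝ) else 0 := by
      intro x
      have : (QuotientAddGroup.mk x : G ⧸ W) = QuotientAddGroup.mk g ↔ x + g ∈ W := by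
        rw [QuotientAddGroup.eq]
        have : -x = x := neg_eq_of_add_eq_zero_left (h2 x)
        rw [this]
      simp only [this]
    rw [sum_congr rfl fun x _ => e1 x, Coset_sum h2 W g (fun _ => (1 : ℝ)), ← Coset_card]
  have hconv : ∀ x, conv p B x = (1 / N) * pr B (fun x => (QuotientAddGroup.mk x : G ⧸ W))
      (QuotientAddGroup.mk (x + a)) := by
    intro x
    unfold conv pr
    rw [sum_filter]
    have e1 : ∀ y, p y * B (x + y) = if y + a ∈ W then (1 / N) * B (x + y) else 0 := by
      intro y
      rw [hp y]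
      split_ifs
      · rfl
      · rw [zero_mul]
    rw [sum_congr rfl fun y _ => e1 y]
    have e2 : ∀ y, (if y + a ∈ W then (1 / N) * B (x + y) else 0) =
        (1 / N) * (if (QuotientAddGroup.mk (y + x) : G ⧸ W) = QuotientAddGroup.mk (x + a)
          then B (y + x) else 0) := by
      intro y
      have : (QuotientAddGroup.mk (y + x) : G ⧸ W) = QuotientAddGroup.mk (x + a) ↔
          y + a ∈ W := by
        rw [QuotientAddGroup.eq]
        have h3 : -(y + x) = y + x := neg_eq_of_add_eq_zero_left (h2 _)
        have h4 : y + x + (x + a) = y + a := by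
          rw [← add_assoc, add_add_self h2]
        rw [h3, h4]
      simp only [this]
      split_ifs
      · rw [add_comm x y]
      · rw [mul_zero]
    rw [sum_congr rfl fun y _ => e2 y, ← mul_sum]
    congr 1
    refine (sum_shift x (fun y => if (QuotientAddGroup.mk y : G ⧸ W) = QuotientAddGroup.mk (x + a)
      then B y else 0)).trans (sum_congr rfl fun y _ => ?_)
    by_cases hy : (QuotientAddGroup.mk y : G ⧸ W) = QuotientAddGroup.mk (x + a)
    · rw [if_pos hy, if_pos hy]
    · rw [if_neg hy, if_neg hy]
  have hsumQ : ∀ f : G ⧸ W → ℝ, ∑ x : G, f (QuotientAddGroup.mk x) =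
      ∑ c ∈ univ.image (fun x : G => (QuotientAddGroup.mk x : G ⧸ W)), N * f c := by
    intro f
    rw [← sum_fiberwise_of_maps_to (s := univ)
      (t := univ.image (fun x : G => (QuotientAddGroup.mk x : G ⧸ W)))
      (g := fun x : G => (QuotientAddGroup.mk x : G ⧸ W))
      (fun x _ => mem_image_of_mem _ (mem_univ x))]
    refine sum_congr rfl fun c hc' => ?_
    obtain ⟨g, -, rfl⟩ := mem_image.1 hc'
    rw [sum_filter, ← hfib g, sum_mul]
    refine sum_congr rfl fun x _ => ?_
    split_ifs with h
    · rw [one_mul, h]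
    · rw [zero_mul]
  unfold Ib entq
  rw [hent, H_eq_sum (P := B) (X := fun x => (QuotientAddGroup.mk x : G ⧸ W))
    (univ.image (fun x : G => (QuotientAddGroup.mk x : G ⧸ W)))
    (fun x => mem_image_of_mem _ (mem_univ x))]
  unfold ent
  rw [sum_congr rfl fun x _ => congrArg negMulLog (hconv x)]
  rw [sum_shift a (fun x => negMulLog ((1 / N) *
    pr B (fun x => (QuotientAddGroup.mk x : G ⧸ W)) (QuotientAddGroup.mk x)))]
  rw [hsumQ (fun c => negMulLog ((1 / N) *
    pr B (fun x => (QuotientAddGroup.mk x : G ⧸ W)) c))]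
  have e3 : ∀ c, N * negMulLog ((1 / N) *
      pr B (fun x => (QuotientAddGroup.mk x : G ⧸ W)) c) =
      pr B (fun x => (QuotientAddGroup.mk x : G ⧸ W)) c * log N +
        negMulLog (pr B (fun x => (QuotientAddGroup.mk x : G ⧸ W)) c) := by
    intro c
    rw [negMulLog_mul]
    unfold negMulLog
    rw [one_div, log_inv]
    field_simp
  rw [sum_congr rfl fun c _ => e3 c, sum_add_distrib]
  have e4 := sum_pr_mul (P := B) (X := fun x => (QuotientAddGroup.mk x : G ⧸ W))
    (univ.image (fun x : G => (QuotientAddGroup.mk x : G ⧸ W)))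
    (fun x => mem_image_of_mem _ (mem_univ x)) (fun _ => log N)
  rw [e4, ← sum_mul, hB.sum, one_mul]
  ring

end Pool.Agent.BR
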