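import Pool.Agent.BR.OV

/-!
Dimension reduction.
-/

set_option autoImplicit false

namespace Pool.Agent.BR

open Finset Real
open scoped Classical

variable {G : Type} [AddCommGroup G] [Fintype G]

theorem DR_av_nonneg {g q : G → ℝ} (hg : ∀ x, 0 ≤ g x) (hq : IsLaw q) (x : G) :
    0 ≤ av g q x :=
  sum_nonneg fun y _ => mul_nonneg (hq.nn y) (hg _)

theorem DR_av_le {g q : G → ℝ} (hg : ∀ x, g x ≤ 1) (hq : IsLaw q) (x : G) : av g q x ≤ 1 := by
  unfold av
  calc ∑ y, q y * g (x + y) ≤ ∑ y, q y :=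
        sum_le_sum fun y _ => by
          have := mul_le_mul_of_nonneg_left (hg (x + y)) (hq.nn y)
          linarith
    _ = 1 := hq.sum

/-- The fibres of the Gibbs law have density at most `exp K`. -/
theorem DR_density {K : ℝ} (hK : 0 ≤ K) {s : G → ℝ} (h0 : ∀ x, 0 ≤ s x) (h1 : ∀ x, s x ≤ 1)
    (W : AddSubgroup G) (x : G) (w : W) :
    fw W (gib K s) x w ≤ exp K / Fintype.card W := by
  unfold fw gib
  rw [← sum_div]
  have hZ : 0 < ∑ y, exp (-K * s y) := sum_pos (fun y _ => exp_pos _) ⟨0, mem_univ _⟩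
  have hc : (0 : ℝ) < Fintype.card W := by
    exact_mod_cast Fintype.card_pos_iff.2 ⟨(0 : W)⟩
  have hlow : (Fintype.card W : ℝ) * exp (-K) ≤ ∑ w' : W, exp (-K * s (x + w')) := by
    have : ∑ _w' : W, exp (-K) ≤ ∑ w' : W, exp (-K * s (x + w')) :=
      sum_le_sum fun w' _ => exp_le_exp.2 (by nlinarith [h1 (x + w')])
    rwa [sum_const, card_univ, nsmul_eq_mul] at this
  have hlow0 : 0 < (Fintype.card W : ℝ) * exp (-K) := mul_pos hc (exp_pos _)
  have hup : exp (-K * s (x + w)) ≤ 1 := by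
    rw [← exp_zero]
    exact exp_le_exp.2 (by nlinarith [h0 (x + w)])
  rw [div_div_div_cancel_right₀ hZ.ne']
  calc exp (-K * s (x + w)) / ∑ w' : W, exp (-K * s (x + w')) ≤
      1 / ((Fintype.card W : ℝ) * exp (-K)) :=
        div_le_div₀ zero_le_one hup hlow0 hlow
    _ = exp K / Fintype.card W := by
        rw [exp_neg]
        field_simp

theorem thm_DR (h1 : St_LemS) (h2 : St_Core) (h3 : St_Inv) (h4 : St_Weak) (h5 : St_DW)
    (h6 : St_Quot) (h7 : St_Gibbs) : St_DR := by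
  intro xi hxi0 hxi1
  refine ⟨48 / xi ^ 5, by positivity, ?_⟩
  intro G _ _ g l hst hl
  have hG := hst.h2
  obtain ⟨p, q, hp, hq, hD, hav⟩ := hst.ex
  obtain ⟨K, hKd⟩ : ∃ K : ℝ, K = l / xi := ⟨_, rfl⟩
  have hK : 0 < K := by rw [hKd]; positivity
  have hKl : K * xi = l := by rw [hKd]; field_simp
  set ph := gib K (av g q) with hphd
  have hph : IsLaw ph := gib_law _ _
  have hs0 := DR_av_nonneg hst.g0 hq
  have hs1 := DR_av_le hst.g1 hq
  -- Gibbs
  have hgib := (h7 G K (av g q) p hp).2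
  have e1 : ∑ x, p x * av g q x ≤ 0 := hav
  have e2 : 0 ≤ ∑ x, ph x * av g q x :=
    sum_nonneg fun x _ => mul_nonneg (hph.nn x) (hs0 x)
  have hDp : Df p ≤ l := by
    have := Df_nonneg hq
    linarith
  have hDph : Df ph ≤ Df p := by
    have a1 := mul_nonneg hK.le e2
    have a2 := mul_nonneg_of_nonpos_of_nonpos (neg_nonpos.2 hK.le) e1
    simp only [← hphd] at hgib
    linarith
  have hav' : avv g ph q ≤ xi := by
    have a2 := mul_nonneg_of_nonpos_of_nonpos (neg_nonpos.2 hK.le) e1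
    have a3 := Df_nonneg hph
    simp only [← hphd] at hgib
    have a4 : K * avv g ph q ≤ K * xi := by
      rw [hKl]
      unfold avv
      linarith
    exact le_of_mul_le_mul_left a4 hK
  -- the numbers
  have hL0 : 0 ≤ log (1 / xi) := log_nonneg (by rw [le_div_iff₀ hxi0]; linarith)
  have hL1 : log (1 / xi) ≤ 1 / xi := (log_le_sub_one_of_pos (by positivity)).trans (by linarith)
  obtain ⟨k, hk⟩ : ∃ k : ℕ, k = ⌈K + 2 * log (1 / xi)⌉₊ := ⟨_, rfl⟩
  have hk1 : K + 2 * log (1 / xi) ≤ k := by rw [hk]; exact Nat.le_ceil _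
  have hk2 : (k : ℝ) ≤ K + 2 * log (1 / xi) + 1 := by
    rw [hk]
    exact (Nat.ceil_lt_add_one (by linarith)).le
  have hkpos : 0 < (k : ℝ) := by linarith
  obtain ⟨N, hN⟩ : ∃ N : ℕ, N = ⌈K ^ 2 * k / xi ^ 2⌉₊ := ⟨_, rfl⟩
  have hN1 : K ^ 2 * k / xi ^ 2 ≤ N := by rw [hN]; exact Nat.le_ceil _
  have hN2 : (N : ℝ) ≤ K ^ 2 * k / xi ^ 2 + 1 := by
    rw [hN]
    exact (Nat.ceil_lt_add_one (by positivity)).le
  have hNpos : 0 < (N : ℝ) := lt_of_lt_of_le (by positivity) hN1
  have hN0 : 1 ≤ N := by exact_mod_cast hNpos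
  have hKN : k * (K ^ 2 / N) ≤ xi ^ 2 := by
    rw [div_le_iff₀ (by positivity)] at hN1
    rw [← mul_div_assoc, div_le_iff₀ hNpos]
    linarith
  -- sampling, core, invariance
  obtain ⟨B, ps, hB, hps, hpos, hDB, hKL⟩ := h1 G hG K N g q hK hN0 hst.g0 hst.g1 hq
  obtain ⟨W, b, hm, hsp, hcod⟩ := h2 G hG B hB
  have hW : IsLaw (fw W B b) := fw_law_of_pos hB.nn hm
  have hinv := h3 G hG W b (fw W B b) ph ps (K ^ 2 / N) hW hph hps hpos (fun w hw => by
    apply hKL
    intro h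
    apply hw
    unfold fw
    rw [h, zero_div])
  have hGW : ∀ x : W, x + x = 0 := by
    intro x
    apply Subtype.ext
    exact hG _
  have hfw : ∀ x, IsLaw (fw W ph x) := fun x =>
    (h5 G W W ph hph).1 x (gib_pos _ _ x).ne'
  have hx : ∀ x, Df (fw W ph x) ≤ k * Ib (fw W B b) (fw W ph x) + exp (-k) * exp K := fun x =>
    h4 W hGW (exp K) k (fw W B b) (fw W ph x) hW hsp (hfw x)
      (fun w => DR_density hK.le hs0 hs1 W x w)
  have hexp : exp (-(k : ℝ)) * exp K ≤ xi ^ 2 := by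
    rw [← exp_add]
    calc exp (-(k : ℝ) + K) ≤ exp (-(2 * log (1 / xi))) := exp_le_exp.2 (by linarith)
      _ = xi ^ 2 := by
          rw [one_div, log_inv, mul_neg, neg_neg, mul_comm, exp_mul, exp_log hxi0]
          norm_num
  have hDW : DW W ph ≤ 2 * xi ^ 2 := by
    unfold DW
    calc ∑ x, ph x * Df (fw W ph x) ≤
        ∑ x, ph x * (k * Ib (fw W B b) (fw W ph x) + exp (-k) * exp K) :=
          sum_le_sum fun x _ => mul_le_mul_of_nonneg_left (hx x) (hph.nn x)
      _ = k * ∑ x, ph x * Ib (fw W B b) (fw W ph x) + exp (-k) * exp K := by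
          simp only [mul_add, sum_add_distrib, ← sum_mul, hph.sum, one_mul]
          rw [mul_sum]
          congr 1
          refine sum_congr rfl fun x _ => by ring
      _ ≤ k * (K ^ 2 / N) + exp (-k) * exp K := by
          have := mul_le_mul_of_nonneg_left hinv hkpos.le
          linarith
      _ ≤ 2 * xi ^ 2 := by linarith
  obtain ⟨gb, hgb, hgb2⟩ := h6 G hG W g ph q hph hq hst.g0 hst.g1
  have hsq : sqrt (DW W ph) ≤ 2 * xi := by
    rw [sqrt_le_left (by linarith)]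
    nlinarith
  have hcpos : (0 : ℝ) < Nat.card W := by
    exact_mod_cast Nat.card_pos
  have hrange : ∀ y : G ⧸ W, 0 ≤ gb y ∧ gb y ≤ 1 := by
    intro y
    obtain ⟨x, rfl⟩ := QuotientAddGroup.mk_surjective y
    rw [hgb]
    unfold avc
    constructor
    · exact div_nonneg (sum_nonneg fun w _ => hst.g0 _) hcpos.le
    · rw [div_le_one hcpos]
      calc ∑ w : W, g (x + w) ≤ ∑ _w : W, (1 : ℝ) := sum_le_sum fun w _ => hst.g1 _
        _ = Nat.card W := by
          rw [sum_const, card_univ, nsmul_eq_mul, mul_one, Nat.card_eq_fintype_card]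
  refine ⟨W, gb, hgb, ⟨?_, fun y => (hrange y).1, fun y => (hrange y).2, prq W ph, prq W q,
    (h5 G W W ph hph).2.2.2.1, (h5 G W W q hq).2.2.2.1, ?_, ?_⟩, ?_⟩
  · intro y
    obtain ⟨x, rfl⟩ := QuotientAddGroup.mk_surjective y
    rw [← QuotientAddGroup.mk_add, hG, QuotientAddGroup.mk_zero]
  · have a1 := (h5 G W W ph hph).2.2.2.2
    have a2 := (h5 G W W q hq).2.2.2.2
    linarith
  · linarith
  · -- the codimension
    have hDq : Df q ≤ l := by
      have := Df_nonneg hp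
      linarith
    have hlog2 : log 2 ≤ 1 := by
      have := log_two_lt_d9
      linarith
    have a1 : cod W ≤ 8 * N * l + 8 := by
      have : (N : ℝ) * Df q ≤ N * l := mul_le_mul_of_nonneg_left hDq hNpos.le
      linarith
    have a2 : (k : ℝ) ≤ 4 * l / xi := by
      have b1 : K = l / xi := hKd
      have b2 : 1 ≤ 1 / xi := by rw [le_div_iff₀ hxi0]; linarith
      have b3 : 1 / xi ≤ l / xi := div_le_div_of_nonneg_right hl hxi0.le
      have b4 : 4 * l / xi = 4 * (l / xi) := by ring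
      linarith
    have a3 : K ^ 2 * k / xi ^ 2 ≤ 4 * l ^ 3 / xi ^ 5 := by
      calc K ^ 2 * k / xi ^ 2 ≤ K ^ 2 * (4 * l / xi) / xi ^ 2 := by
            apply div_le_div_of_nonneg_right _ (by positivity)
            exact mul_le_mul_of_nonneg_left a2 (by positivity)
        _ = 4 * l ^ 3 / xi ^ 5 := by
            rw [hKd]
            field_simp
    have a4 : (1 : ℝ) ≤ l ^ 3 / xi ^ 5 := by
      rw [le_div_iff₀ (by positivity), one_mul]
      exact (pow_le_one₀ hxi0.le hxi1).trans (one_le_pow₀ hl)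
    have a5 : (N : ℝ) ≤ 5 * (l ^ 3 / xi ^ 5) := by
      have : 4 * l ^ 3 / xi ^ 5 = 4 * (l ^ 3 / xi ^ 5) := by ring
      linarith
    have a6 : (1 : ℝ) ≤ l ^ 4 / xi ^ 5 := by
      rw [le_div_iff₀ (by positivity), one_mul]
      exact (pow_le_one₀ hxi0.le hxi1).trans (one_le_pow₀ hl)
    calc cod W ≤ 8 * N * l + 8 := a1
      _ ≤ 8 * (5 * (l ^ 3 / xi ^ 5)) * l + 8 * (l ^ 4 / xi ^ 5) := by
          have b1 : (N : ℝ) * l ≤ 5 * (l ^ 3 / xi ^ 5) * l :=
            mul_le_mul_of_nonneg_right a5 (by linarith)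
          linarith
      _ = 48 / xi ^ 5 * l ^ 4 := by ring

end Pool.Agent.BR
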