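import Pool.Agent.BR.St

/-!
Cosets: chain rule for `DW`, choice of cosets.
-/

set_option autoImplicit false

namespace Pool.Agent.BR

open Finset Real
open scoped Classical

section

variable {G : Type} [AddCommGroup G] [Fintype G]

/-- The mass of the coset of `x`. -/
noncomputable def DW_P (W : AddSubgroup G) (p : G → ℝ) (x : G) : ℝ := ∑ w : W, p (x + w)

theorem DW_P_add (W : AddSubgroup G) (p : G → ℝ) (x : G) (w : W) :
    DW_P W p (x + w) = DW_P W p x := by
  unfold DW_P
  refine Fintype.sum_equiv (Equiv.addLeft w) _ _ fun v => ?_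
  show p (x + w + v) = p (x + ((w + v : W) : G))
  rw [AddSubgroup.coe_add, add_assoc]

theorem DW_P_sub (W : AddSubgroup G) (p : G → ℝ) (x : G) (w : W) :
    DW_P W p (x - w) = DW_P W p x := by
  have h := DW_P_add W p (x - w) w
  rw [sub_add_cancel] at h
  exact h.symm

theorem DW_P_neg (W : AddSubgroup G) (p : G → ℝ) (x : G) :
    ∑ w : W, p (x - w) = DW_P W p x := by
  unfold DW_P
  refine Fintype.sum_equiv (Equiv.neg W) _ _ fun v => ?_
  show p (x - v) = p (x + ((-v : W) : G))
  rw [AddSubgroup.coe_neg, sub_eq_add_neg]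

theorem DW_P_nonneg (W : AddSubgroup G) {p : G → ℝ} (hp : IsLaw p) (x : G) : 0 ≤ DW_P W p x :=
  sum_nonneg fun _ _ => hp.nn _

theorem DW_le_P (W : AddSubgroup G) {p : G → ℝ} (hp : IsLaw p) (x : G) : p x ≤ DW_P W p x := by
  unfold DW_P
  have h := single_le_sum (f := fun w : W => p (x + w)) (s := univ) (fun w _ => hp.nn _)
    (mem_univ (0 : W))
  simpa using h

theorem DW_P_pos (W : AddSubgroup G) {p : G → ℝ} (hp : IsLaw p) {x : G} (hx : p x ≠ 0) :
    0 < DW_P W p x :=
  lt_of_lt_of_le (lt_of_le_of_ne (hp.nn x) (Ne.symm hx)) (DW_le_P W hp x)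

theorem DW_fw (W : AddSubgroup G) (p : G → ℝ) (x : G) (w : W) :
    fw W p x w = p (x + w) / DW_P W p (x + w) := by
  rw [DW_P_add]
  rfl

theorem DW_law (W : AddSubgroup G) {p : G → ℝ} (hp : IsLaw p) {x : G} (hx : p x ≠ 0) :
    IsLaw (fw W p x) := by
  have h0 := DW_P_pos W hp hx
  refine ⟨fun w => div_nonneg (hp.nn _) (DW_P_nonneg W hp x), ?_⟩
  unfold fw
  rw [← sum_div]
  exact div_self h0.ne'

/-- Averaging over the cosets. -/
theorem DW_avg (W : AddSubgroup G) {p : G → ℝ} (hp : IsLaw p) (h : G → ℝ) :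
    ∑ x, p x * ∑ w : W, fw W p x w * h (x + w) = ∑ x, p x * h x := by
  have e1 : ∑ x, p x * ∑ w : W, fw W p x w * h (x + w) =
      ∑ w : W, ∑ x, p (x - w) * (p x / DW_P W p x * h x) := by
    simp only [mul_sum]
    rw [sum_comm]
    refine sum_congr rfl fun w _ => ?_
    refine Fintype.sum_equiv (Equiv.addRight (w : G)) _ _ fun x => ?_
    show p x * (fw W p x w * h (x + w)) =
      p (x + w - w) * (p (x + w) / DW_P W p (x + w) * h (x + w))
    rw [DW_fw, add_sub_cancel_right]
  rw [e1, sum_comm]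
  refine sum_congr rfl fun x _ => ?_
  rw [← sum_mul, DW_P_neg]
  rcases eq_or_ne (p x) 0 with h0 | h0
  · rw [h0]
    simp
  · have h1 := (DW_P_pos W hp h0).ne'
    field_simp

theorem DW_fb' {α : Type} (W : AddSubgroup G) (X : G → α) (hX : ∀ y x, X y = X x ↔ y - x ∈ W)
    (p : G → ℝ) (x : G) : fb p X x = DW_P W p x := by
  unfold fb DW_P
  symm
  refine sum_bij (fun (w : W) _ => x + (w : G)) ?_ ?_ ?_ ?_
  · intro w _
    refine mem_filter.2 ⟨mem_univ _, (hX _ _).2 ?_⟩
    rw [show x + (w : G) - x = w by abel]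
    exact w.2
  · intro w _ w' _ hww
    exact Subtype.ext (add_left_cancel hww)
  · intro y hy
    have h1 := (hX _ _).1 (mem_filter.1 hy).2
    refine ⟨⟨y - x, h1⟩, mem_univ _, ?_⟩
    show x + (y - x) = y
    abel
  · intro w _
    rfl

theorem DW_fb (W : AddSubgroup G) (p : G → ℝ) (x : G) :
    fb p (fun x => (QuotientAddGroup.mk x : G ⧸ W)) x = DW_P W p x := by
  refine DW_fb' W _ (fun y x => ?_) p x
  rw [QuotientAddGroup.eq]
  constructor
  · intro h
    have := W.neg_mem h
    rwa [show -(-y + x) = y - x by abel] at this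
  · intro h
    have := W.neg_mem h
    rwa [show -(y - x) = -y + x by abel] at this

theorem DW_entq (W : AddSubgroup G) (p : G → ℝ) :
    entq W p = -∑ x, p x * log (DW_P W p x) := by
  unfold entq
  rw [H_eq_pt]
  congr 1
  exact sum_congr rfl fun x _ => by rw [DW_fb]

theorem DW_ent (W : AddSubgroup G) {p : G → ℝ} (hp : IsLaw p) :
    ∑ x, p x * ent (fw W p x) = ent p - entq W p := by
  have e1 : ∀ x, ent (fw W p x) =
      ∑ w : W, fw W p x w * (-log (p (x + w) / DW_P W p (x + w))) := by
    intro x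
    unfold ent
    refine sum_congr rfl fun w _ => ?_
    rw [negMulLog, DW_fw]
    ring
  simp only [e1]
  rw [DW_avg W hp (fun y => -log (p y / DW_P W p y)), DW_entq, sub_neg_eq_add]
  unfold ent
  rw [← sum_add_distrib]
  refine sum_congr rfl fun x _ => ?_
  rcases eq_or_ne (p x) 0 with h0 | h0
  · rw [h0]
    simp
  · rw [log_div h0 (DW_P_pos W hp h0).ne', negMulLog]
    ring

theorem DW_chain (W : AddSubgroup G) {p : G → ℝ} (hp : IsLaw p) :
    DW W p = log (Nat.card W) - ent p + entq W p := by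
  unfold DW Df
  simp only [mul_sub]
  rw [sum_sub_distrib, DW_ent W hp, ← sum_mul, hp.sum, Nat.card_eq_fintype_card]
  ring

theorem DW_nonneg (W : AddSubgroup G) {p : G → ℝ} (hp : IsLaw p) : 0 ≤ DW W p := by
  unfold DW
  refine sum_nonneg fun x _ => ?_
  rcases eq_or_ne (p x) 0 with h0 | h0
  · rw [h0, zero_mul]
  · exact mul_nonneg (hp.nn x) (Df_nonneg (DW_law W hp h0))

theorem DW_card (W : AddSubgroup G) : (0 : ℝ) < (Nat.card W : ℝ) := by
  exact_mod_cast Nat.card_pos

theorem DW_sum_P (W : AddSubgroup G) {p : G → ℝ} (hp : IsLaw p) :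
    ∑ x, DW_P W p x = Nat.card W := by
  unfold DW_P
  rw [sum_comm]
  have e1 : ∀ w : W, ∑ x, p (x + w) = 1 := by
    intro w
    rw [sum_shift (w : G) p, hp.sum]
  simp only [e1]
  rw [sum_const, nsmul_eq_mul, mul_one, card_univ, Nat.card_eq_fintype_card]

theorem DW_inv (W : AddSubgroup G) (p : G → ℝ) (g : G → ℝ) (hg : ∀ x (w : W), g (x + w) = g x) :
    Nat.card W * ∑ x, p x * g x = ∑ x, DW_P W p x * g x := by
  have e1 : ∀ w : W, ∑ x, p (x + w) * g x = ∑ x, p x * g x := by
    intro w
    have h1 := sum_shift (w : G) (fun x => p x * g x)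
    rw [← h1]
    exact sum_congr rfl fun x _ => by rw [hg]
  have e2 : ∑ x, DW_P W p x * g x = ∑ w : W, ∑ x, p (x + w) * g x := by
    unfold DW_P
    rw [sum_comm]
    exact sum_congr rfl fun x _ => by rw [sum_mul]
  rw [e2]
  simp only [e1]
  rw [sum_const, nsmul_eq_mul, card_univ, Nat.card_eq_fintype_card]

theorem DW_mono (W W' : AddSubgroup G) (hW : W ≤ W') {p : G → ℝ} (hp : IsLaw p) :
    DW W p ≤ DW W' p := by
  rw [DW_chain W hp, DW_chain W' hp]
  set r : ℝ := (Nat.card W' : ℝ) / Nat.card W with hr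
  have c1 := DW_card W
  have c2 := DW_card W'
  have hr0 : 0 < r := div_pos c2 c1
  have hlogr : log r = log (Nat.card W') - log (Nat.card W) := log_div c2.ne' c1.ne'
  -- the sum of the quotients
  have hs : ∑ x, p x * (DW_P W' p x / DW_P W p x) ≤ r := by
    have h1 := DW_inv W p (fun x => DW_P W' p x / DW_P W p x) (by
      intro x w
      have h2 := DW_P_add W' p x ⟨w, hW w.2⟩
      simp only at h2
      rw [DW_P_add W p x w, h2])
    have h3 : ∑ x, DW_P W p x * (DW_P W' p x / DW_P W p x) ≤ ∑ x, DW_P W' p x := by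
      refine sum_le_sum fun x _ => ?_
      rcases (DW_P_nonneg W hp x).eq_or_lt with h0 | h0
      · rw [← h0, zero_mul]
        exact DW_P_nonneg W' hp x
      · rw [mul_div_cancel₀ _ h0.ne']
    rw [← h1, DW_sum_P W' hp] at h3
    rw [hr, le_div_iff₀ c1, mul_comm]
    exact h3
  have hpt : ∀ x, p x * (log (DW_P W' p x) - log (DW_P W p x) - log r) ≤
      p x * (DW_P W' p x / DW_P W p x) * (1 / r) - p x := by
    intro x
    rcases eq_or_ne (p x) 0 with h0 | h0
    · rw [h0]
      simp
    · have a1 := DW_P_pos W hp h0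
      have a2 := DW_P_pos W' hp h0
      have h1 := log_le_sub_one_of_pos (x := DW_P W' p x / DW_P W p x * (1 / r)) (by positivity)
      rw [log_mul (by positivity) (by positivity), log_div a2.ne' a1.ne', log_div one_ne_zero
        hr0.ne', log_one] at h1
      have h2 := mul_le_mul_of_nonneg_left h1 (hp.nn x)
      calc p x * (log (DW_P W' p x) - log (DW_P W p x) - log r) =
          p x * (log (DW_P W' p x) - log (DW_P W p x) + (0 - log r)) := by ring
        _ ≤ _ := h2
        _ = _ := by ring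
  have h4 := sum_le_sum fun x (_ : x ∈ (univ : Finset G)) => hpt x
  rw [sum_sub_distrib, ← sum_mul, hp.sum] at h4
  have h5 : (∑ x, p x * (DW_P W' p x / DW_P W p x)) * (1 / r) ≤ 1 := by
    rw [mul_one_div, div_le_one hr0]
    exact hs
  have h6 : ∑ x, p x * (log (DW_P W' p x) - log (DW_P W p x) - log r) =
      ∑ x, p x * log (DW_P W' p x) - ∑ x, p x * log (DW_P W p x) - log r := by
    simp only [mul_sub]
    rw [sum_sub_distrib, sum_sub_distrib, ← sum_mul, hp.sum, one_mul]
  rw [h6, hlogr] at h4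
  rw [DW_entq, DW_entq]
  linarith

end

theorem thm_DW : St_DW := by
  intro G _ _ W W' p hp
  refine ⟨fun x hx => DW_law W hp hx, DW_chain W hp, fun h => DW_mono W W' h hp,
    isLaw_pr hp _, ?_⟩
  have h0 := DW_nonneg W hp
  rw [DW_chain W hp] at h0
  have h1 : ent (prq W p) = entq W p := by
    unfold prq entq
    rw [H_eq_ent]
  have h2 : (Fintype.card G : ℝ) = Fintype.card (G ⧸ W) * Nat.card W := by
    have h3 := AddSubgroup.card_eq_card_quotient_mul_card_addSubgroup W
    rw [← Nat.card_eq_fintype_card, ← Nat.card_eq_fintype_card, h3]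
    push_cast
    ring
  have h4 : (0 : ℝ) < Fintype.card (G ⧸ W) := by
    have : 0 < Fintype.card (G ⧸ W) := Fintype.card_pos_iff.2 ⟨((0 : G) : G ⧸ W)⟩
    exact_mod_cast this
  unfold Df
  rw [h1, h2, log_mul h4.ne' (DW_card W).ne']
  linarith

theorem thm_Choose (h : St_DW) : St_Choose := by
  intro G _ _ _ W g p q t m hp hq hg ht hm hD hA
  set A : G → G → ℝ := fun x y => avv (fun w : W => g (x + y + w)) (fw W p x) (fw W q y) with hAd
  have hlawp : ∀ x, p x ≠ 0 → IsLaw (fw W p x) := fun x hx => (h G W W p hp).1 x hx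
  have hlawq : ∀ x, q x ≠ 0 → IsLaw (fw W q x) := fun x hx => (h G W W q hq).1 x hx
  -- the identity
  have hid : ∑ x, p x * ∑ y, q y * A x y = avv g p q := by
    have e1 : ∀ x, ∑ y, q y * A x y =
        ∑ w : W, fw W p x w * ∑ y, q y * ∑ w' : W, fw W q y w' * g (x + w + (y + w')) := by
      intro x
      simp only [hAd, avv, av, mul_sum]
      rw [sum_comm]
      refine sum_congr rfl fun w _ => ?_
      refine sum_congr rfl fun y _ => ?_
      refine sum_congr rfl fun w' _ => ?_
      rw [AddSubgroup.coe_add, show x + y + ((w : G) + w') = x + w + (y + w') by abel]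
      ring
    have e2 : ∀ z : G, ∑ y, q y * ∑ w' : W, fw W q y w' * g (z + (y + w')) =
        ∑ y, q y * g (z + y) := fun z => DW_avg W hq (fun y => g (z + y))
    have e3 : ∀ x, ∑ y, q y * A x y = ∑ w : W, fw W p x w * av g q (x + w) := by
      intro x
      rw [e1 x]
      refine sum_congr rfl fun w _ => ?_
      rw [e2 (x + w)]
      rfl
    simp only [e3]
    rw [DW_avg W hp (av g q)]
    rfl
  by_contra hcon
  push Not at hcon
  have hA0 : ∀ x y, p x ≠ 0 → q y ≠ 0 → 0 ≤ A x y := by
    intro x y hx hy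
    simp only [hAd, avv, av]
    exact sum_nonneg fun w _ => mul_nonneg ((hlawp x hx).nn w)
      (sum_nonneg fun w' _ => mul_nonneg ((hlawq y hy).nn w') (hg _))
  have hbig : ∀ x y, p x ≠ 0 → q y ≠ 0 →
      1 < (Df (fw W p x) + Df (fw W q y)) / t + A x y / (2 * m) := by
    intro x y hx hy
    have d1 := Df_nonneg (hlawp x hx)
    have d2 := Df_nonneg (hlawq y hy)
    have a0 := hA0 x y hx hy
    have hc := hcon x y (hlawp x hx) (hlawq y hy)
    by_cases hle : Df (fw W p x) + Df (fw W q y) ≤ t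
    · have h1 := hc hle
      have h2 : 1 < A x y / (2 * m) := by
        rw [lt_div_iff₀ (by positivity), one_mul]
        exact h1
      have h3 : 0 ≤ (Df (fw W p x) + Df (fw W q y)) / t := by positivity
      linarith
    · push Not at hle
      have h2 : 1 < (Df (fw W p x) + Df (fw W q y)) / t := by
        rw [lt_div_iff₀ ht, one_mul]
        exact hle
      have h3 : 0 ≤ A x y / (2 * m) := by positivity
      linarith
  -- the average
  have hav : ∑ x, p x * ∑ y, q y * ((Df (fw W p x) + Df (fw W q y)) / t + A x y / (2 * m)) =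
      (DW W p + DW W q) / t + avv g p q / (2 * m) := by
    have e1 : ∀ x, ∑ y, q y * ((Df (fw W p x) + Df (fw W q y)) / t + A x y / (2 * m)) =
        Df (fw W p x) / t + DW W q / t + (∑ y, q y * A x y) / (2 * m) := by
      intro x
      unfold DW
      rw [sum_div, sum_div]
      have e2 : Df (fw W p x) / t = ∑ y, q y * (Df (fw W p x) / t) := by
        rw [← sum_mul, hq.sum, one_mul]
      rw [e2, ← sum_add_distrib, ← sum_add_distrib]
      refine sum_congr rfl fun y _ => ?_
      ring
    simp only [e1]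
    rw [← hid]
    have e3 : (DW W p + DW W q) / t = ∑ x, p x * (Df (fw W p x) / t) + ∑ x, p x * (DW W q / t) := by
      have e4 : ∑ x, p x * (DW W q / t) = DW W q / t := by
        rw [← sum_mul, hp.sum, one_mul]
      rw [e4, add_div]
      congr 1
      unfold DW
      rw [sum_div]
      exact sum_congr rfl fun x _ => by ring
    rw [e3, sum_div, ← sum_add_distrib, ← sum_add_distrib]
    refine sum_congr rfl fun x _ => ?_
    ring
  have hle : ∑ x, p x * ∑ y, q y * ((Df (fw W p x) + Df (fw W q y)) / t + A x y / (2 * m)) ≤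
      3 / 4 := by
    rw [hav]
    have h1 : (DW W p + DW W q) / t ≤ 1 / 4 := by
      rw [div_le_iff₀ ht]
      linarith
    have h2 : avv g p q / (2 * m) ≤ 1 / 2 := by
      rw [div_le_iff₀ (by positivity)]
      linarith
    linarith
  have hge : (1 : ℝ) ≤ ∑ x, p x * ∑ y, q y *
      ((Df (fw W p x) + Df (fw W q y)) / t + A x y / (2 * m)) := by
    have e1 : ∑ x, p x * ∑ y, q y * (1 : ℝ) = 1 := by
      simp only [mul_one]
      rw [hq.sum]
      simp only [mul_one]
      exact hp.sum
    rw [← e1]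
    refine sum_le_sum fun x _ => ?_
    rcases eq_or_ne (p x) 0 with h0 | h0
    · rw [h0, zero_mul, zero_mul]
    · refine mul_le_mul_of_nonneg_left (sum_le_sum fun y _ => ?_) (hp.nn x)
      rcases eq_or_ne (q y) 0 with h1 | h1
      · rw [h1, zero_mul, zero_mul]
      · exact mul_le_mul_of_nonneg_left (hbig x y h0 h1).le (hq.nn y)
  linarith

end Pool.Agent.BR
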