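import Pool.Agent.BR.St

/-!
Fibres of independent pairs.
-/

set_option autoImplicit false

namespace Pool.Agent.BR

open Finset Real
open scoped Classical

section

variable {Ω Ω' α β : Type} [Fintype Ω] [Fintype Ω']

theorem pr_single {P : Ω → ℝ} {X : Ω → α} {a : α} (ω₀ : Ω) (h : ∀ ω, X ω = a ↔ ω = ω₀) :
    pr P X a = P ω₀ := by
  unfold pr
  rw [sum_eq_single ω₀]
  · intro ω hω hne
    exact absurd ((h ω).1 (mem_filter.1 hω).2) hne
  · intro hh
    exact (hh (mem_filter.2 ⟨mem_univ _, (h ω₀).2 rfl⟩)).elim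

theorem pr_prod (P : Ω → ℝ) (Q : Ω' → ℝ) (X : Ω → α) (Y : Ω' → β) (a : α) (b : β) :
    pr (fun ω : Ω × Ω' => P ω.1 * Q ω.2) (fun ω => (X ω.1, Y ω.2)) (a, b) =
      pr P X a * pr Q Y b := by
  unfold pr
  rw [sum_mul_sum, ← sum_product']
  refine sum_congr ?_ fun _ _ => rfl
  ext ω
  simp only [mem_filter, mem_univ, true_and, mem_product, Prod.mk.injEq]

end

variable {G : Type} [AddCommGroup G] [Fintype G]

theorem pr_sum_fst (h2 : ∀ x : G, x + x = 0) {p q : G → ℝ} (hp : IsLaw p) (hq : IsLaw q)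
    (z x : G) :
    pr (fun ω : G × G => p ω.1 * q ω.2) (fun ω => (ω.1 + ω.2, ω.1)) (z, x) =
      conv p q z * fib p q z x := by
  rw [pr_single (x, z + x), conv_mul_fib hp hq, add_comm x z]
  rintro ⟨a, b⟩
  simp only [Prod.mk.injEq]
  constructor
  · rintro ⟨h, rfl⟩
    exact ⟨rfl, (add_eq_iff h2 _ _ _).1 h⟩
  · rintro ⟨rfl, rfl⟩
    exact ⟨by rw [add_comm z a, self_add_add h2], rfl⟩

theorem pr_sum (h2 : ∀ x : G, x + x = 0) (p q : G → ℝ) :
    pr (fun ω : G × G => p ω.1 * q ω.2) (fun ω => ω.1 + ω.2) = conv p q := by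
  rw [pr_add h2 p q (fun x => x) (fun x => x), pr_id, pr_id]

theorem thm_FibEnt : St_FibEnt := by
  intro G _ _ h2 p q hp hq
  have h := H_fib (P := fun ω : G × G => p ω.1 * q ω.2) (fun ω => ω.1 + ω.2) (fun ω => ω.1)
    (fib p q) (fun z hz => by
      rw [pr_sum h2] at hz
      exact (fib_law hp hq hz).sum) (fun z x => by
      rw [pr_sum h2]
      exact pr_sum_fst h2 hp hq z x)
  rw [pr_sum h2, H_add' h2] at h
  have e1 : H (fun ω : G × G => p ω.1 * q ω.2) (fun ω => (ω.1 + ω.2, ω.1)) = ent p + ent q := by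
    have h1 : H (fun ω : G × G => p ω.1 * q ω.2) (fun ω => (ω.1 + ω.2, ω.1)) =
        H (fun ω : G × G => p ω.1 * q ω.2) (fun ω => (ω.1, ω.2)) := by
      refine H_eq ?_
      rintro ⟨x, y⟩ ⟨x', y'⟩
      simp only [Prod.mk.injEq]
      constructor
      · rintro ⟨h, rfl⟩
        exact ⟨rfl, add_left_cancel h⟩
      · rintro ⟨rfl, rfl⟩
        exact ⟨rfl, rfl⟩
    rw [h1, H_prod (X := fun x : G => x) (Y := fun x : G => x) hp hq, ← ent_eq_H, ← ent_eq_H]
  rw [e1] at h
  linarith

/-- The space of two pairs in coordinates `(z, x), (z', x')`. -/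
theorem pair_coord (h2 : ∀ x : G, x + x = 0) {p q p' q' : G → ℝ} (hp : IsLaw p) (hq : IsLaw q)
    (hp' : IsLaw p') (hq' : IsLaw q') {α : Type} (X : (G × G) × (G × G) → α) :
    H (fun ω : (G × G) × (G × G) => (conv p q ω.1.1 * fib p q ω.1.1 ω.1.2) *
        (conv p' q' ω.2.1 * fib p' q' ω.2.1 ω.2.2)) X =
      H (law4 p q p' q') (fun x => X ((x.1 + x.2.1, x.1), (x.2.2.1 + x.2.2.2, x.2.2.1))) := by
  refine H_equiv (e := ⟨fun x => ((x.1 + x.2.1, x.1), (x.2.2.1 + x.2.2.2, x.2.2.1)),
    fun ω => (ω.1.2, ω.1.2 + ω.1.1, ω.2.2, ω.2.2 + ω.2.1), ?_, ?_⟩) ?_ X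
  · rintro ⟨a, b, c, d⟩
    simp only [self_add_add h2]
  · rintro ⟨⟨a, b⟩, c, d⟩
    simp only [self_add_add h2]
  · rintro ⟨a, b, c, d⟩
    show (conv p q (a + b) * fib p q (a + b) a) * (conv p' q' (c + d) * fib p' q' (c + d) c) =
      p a * (q b * (p' c * q' d))
    rw [conv_mul_fib hp hq, conv_mul_fib hp' hq', self_add_add h2, self_add_add h2]
    ring

theorem thm_FibConv : St_FibConv := by
  intro G _ _ h2 p q p' q' hp hq hp' hq'
  set P : (G × G) × (G × G) → ℝ := fun ω => (conv p q ω.1.1 * fib p q ω.1.1 ω.1.2) *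
        (conv p' q' ω.2.1 * fib p' q' ω.2.1 ω.2.2) with hP
  have hS : ∀ z, conv p q z * ∑ x, fib p q z x = conv p q z := by
    intro z
    rcases eq_or_ne (conv p q z) 0 with h0 | h0
    · rw [h0, zero_mul]
    · rw [(fib_law hp hq h0).sum, mul_one]
  have hS' : ∀ z, conv p' q' z * ∑ x, fib p' q' z x = conv p' q' z := by
    intro z
    rcases eq_or_ne (conv p' q' z) 0 with h0 | h0
    · rw [h0, zero_mul]
    · rw [(fib_law hp' hq' h0).sum, mul_one]
  have hZ : ∀ z : G × G, pr P (fun ω => (ω.1.1, ω.2.1)) z = conv p q z.1 * conv p' q' z.2 := by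
    rintro ⟨z, z'⟩
    have h1 := pr_prod (fun ω : G × G => conv p q ω.1 * fib p q ω.1 ω.2)
      (fun ω : G × G => conv p' q' ω.1 * fib p' q' ω.1 ω.2) (fun ω => ω.1) (fun ω => ω.1) z z'
    rw [hP]
    rw [h1]
    congr 1
    · refine Eq.trans ?_ (hS z)
      unfold pr
      rw [sum_filter, Fintype.sum_prod_type, sum_eq_single z]
      · simp [mul_sum]
      · intro b _ hb
        simp [hb]
      · simp
    · refine Eq.trans ?_ (hS' z')
      unfold pr
      rw [sum_filter, Fintype.sum_prod_type, sum_eq_single z']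
      · simp [mul_sum]
      · intro b _ hb
        simp [hb]
      · simp
  have hR : ∀ (z : G × G) (b : G), pr P (fun ω => ((ω.1.1, ω.2.1), ω.1.2 + ω.2.2)) (z, b) =
      pr P (fun ω => (ω.1.1, ω.2.1)) z * conv (fib p q z.1) (fib p' q' z.2) b := by
    rintro ⟨z, z'⟩ b
    rw [hZ]
    unfold pr
    rw [sum_filter, Fintype.sum_prod_type, Fintype.sum_prod_type]
    rw [sum_eq_single z]
    · unfold conv
      rw [mul_sum]
      refine sum_congr rfl fun x _ => ?_
      rw [Fintype.sum_prod_type, sum_eq_single z']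
      · rw [sum_eq_single (b + x)]
        · rw [if_pos (by
            show ((z, z'), x + (b + x)) = ((z, z'), b)
            rw [add_comm b x, self_add_add h2])]
          simp only [hP, conv]
          ring
        · intro x' _ hx'
          rw [if_neg]
          intro hh
          simp only [Prod.mk.injEq] at hh
          exact hx' ((add_eq_iff h2 _ _ _).1 hh.2)
        · simp
      · intro c _ hc
        refine sum_eq_zero fun x' _ => ?_
        rw [if_neg]
        intro hh
        simp only [Prod.mk.injEq] at hh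
        exact hc hh.1.2
      · simp
    · intro c _ hc
      refine sum_eq_zero fun x' _ => sum_eq_zero fun y _ => ?_
      rw [if_neg]
      intro hh
      simp only [Prod.mk.injEq] at hh
      exact hc hh.1.1
    · simp
  have h := H_fib (P := P) (fun ω => (ω.1.1, ω.2.1)) (fun ω => ω.1.2 + ω.2.2)
    (fun z => conv (fib p q z.1) (fib p' q' z.2)) (fun z hz => by
      rw [hZ] at hz
      exact (conv_law (fib_law hp hq (left_ne_zero_of_mul hz))
        (fib_law hp' hq' (right_ne_zero_of_mul hz))).sum) hR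
  have e1 : H P (fun ω => ((ω.1.1, ω.2.1), ω.1.2 + ω.2.2)) =
      H (law4 p q p' q') (fun x => (x.1 + x.2.1, x.2.2.1 + x.2.2.2, x.1 + x.2.2.1)) := by
    rw [hP, pair_coord h2 hp hq hp' hq']
    refine H_eq ?_
    intro ω ω'
    simp only [Prod.mk.injEq, and_assoc]
  have e2 : H P (fun ω => (ω.1.1, ω.2.1)) = ent (conv p q) + ent (conv p' q') := by
    rw [H_eq_univ]
    simp only [hZ]
    rw [Fintype.sum_prod_type]
    simp only [negMulLog_mul]
    simp only [sum_add_distrib, ← mul_sum, ← sum_mul]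
    rw [(conv_law hp hq).sum, (conv_law hp' hq').sum]
    unfold ent
    ring
  have e3 : ∑ z : G × G, pr P (fun ω => (ω.1.1, ω.2.1)) z *
      ent (conv (fib p q z.1) (fib p' q' z.2)) =
      ∑ z, ∑ z', conv p q z * conv p' q' z' * ent (conv (fib p q z) (fib p' q' z')) := by
    rw [Fintype.sum_prod_type]
    simp only [hZ]
  rw [e1, e2, e3] at h
  linarith

omit [AddCommGroup G] in
theorem pr_fst {Ω' : Type} [Fintype Ω'] (p : G → ℝ) {q : Ω' → ℝ} (hq : IsLaw q) :
    pr (fun ω : G × Ω' => p ω.1 * q ω.2) (fun ω => ω.1) = p := by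
  funext a
  unfold pr
  rw [sum_filter, Fintype.sum_prod_type, sum_eq_single a]
  · simp only [if_true]
    rw [← mul_sum, hq.sum, mul_one]
  · intro b _ hb
    exact sum_eq_zero fun x _ => if_neg hb
  · simp

omit [AddCommGroup G] in
theorem pr_snd {Ω' : Type} [Fintype Ω'] {p : Ω' → ℝ} (q : G → ℝ) (hp : IsLaw p) :
    pr (fun ω : Ω' × G => p ω.1 * q ω.2) (fun ω => ω.2) = q := by
  funext a
  unfold pr
  rw [sum_filter, Fintype.sum_prod_type]
  have : ∀ x : Ω', (∑ y, if y = a then p x * q y else 0) = p x * q a := by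
    intro x
    rw [sum_eq_single a]
    · rw [if_pos rfl]
    · intro b _ hb
      exact if_neg hb
    · simp
  simp only [this]
  rw [← sum_mul, hp.sum, one_mul]

theorem thm_FibI : St_FibI := by
  intro G _ _ h2 B p q hB hp hq
  set P : (G × G) × G → ℝ := fun ω => (conv p q ω.1.1 * fib p q ω.1.1 ω.1.2) * B ω.2 with hP
  set P0 : (G × G) × G → ℝ := fun ω => (p ω.1.1 * q ω.1.2) * B ω.2 with hP0
  have hl0 : IsLaw P0 := isLaw_prod (isLaw_prod hp hq) hB
  have hPP : ∀ {α : Type} (X : (G × G) × G → α), H P X =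
      H P0 (fun ω => X ((ω.1.1 + ω.1.2, ω.1.1), ω.2)) := by
    intro α X
    refine H_equiv (e := ⟨fun ω => ((ω.1.1 + ω.1.2, ω.1.1), ω.2),
      fun ω => ((ω.1.2, ω.1.2 + ω.1.1), ω.2), ?_, ?_⟩) ?_ X
    · rintro ⟨⟨a, b⟩, c⟩
      simp only [self_add_add h2]
    · rintro ⟨⟨a, b⟩, c⟩
      simp only [self_add_add h2]
    · rintro ⟨⟨a, b⟩, c⟩
      show (conv p q (a + b) * fib p q (a + b) a) * B c = (p a * q b) * B c
      rw [conv_mul_fib hp hq, self_add_add h2]
  have hZ : ∀ z, pr P (fun ω => ω.1.1) z = conv p q z := by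
    intro z
    have hS : conv p q z * ∑ x, fib p q z x = conv p q z := by
      rcases eq_or_ne (conv p q z) 0 with h0 | h0
      · rw [h0, zero_mul]
      · rw [(fib_law hp hq h0).sum, mul_one]
    refine Eq.trans ?_ hS
    unfold pr
    rw [sum_filter, Fintype.sum_prod_type, Fintype.sum_prod_type, sum_eq_single z]
    · rw [mul_sum]
      refine sum_congr rfl fun x _ => ?_
      simp only [hP, if_true]
      rw [← mul_sum, hB.sum, mul_one]
    · intro c _ hc
      exact sum_eq_zero fun x _ => sum_eq_zero fun y _ => if_neg hc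
    · simp
  have hR : ∀ z b, pr P (fun ω => (ω.1.1, ω.1.2 + ω.2)) (z, b) =
      pr P (fun ω => ω.1.1) z * conv (fib p q z) B b := by
    intro z b
    rw [hZ]
    unfold pr
    rw [sum_filter, Fintype.sum_prod_type, Fintype.sum_prod_type, sum_eq_single z]
    · unfold conv
      rw [mul_sum]
      refine sum_congr rfl fun x _ => ?_
      rw [sum_eq_single (b + x)]
      · rw [if_pos (by
          show (z, x + (b + x)) = (z, b)
          rw [add_comm b x, self_add_add h2])]
        simp only [hP, conv]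
        ring
      · intro x' _ hx'
        rw [if_neg]
        intro hh
        simp only [Prod.mk.injEq] at hh
        exact hx' ((add_eq_iff h2 _ _ _).1 hh.2)
      · simp
    · intro c _ hc
      refine sum_eq_zero fun x' _ => sum_eq_zero fun y _ => ?_
      rw [if_neg]
      intro hh
      simp only [Prod.mk.injEq] at hh
      exact hc hh.1
    · simp
  have h := H_fib (P := P) (fun ω => ω.1.1) (fun ω => ω.1.2 + ω.2)
    (fun z => conv (fib p q z) B) (fun z hz => by
      rw [hZ] at hz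
      exact (conv_law (fib_law hp hq hz) hB).sum) hR
  simp only [hZ] at h
  have e2 : H P (fun ω => ω.1.1) = ent (conv p q) := by
    rw [H_eq_univ]
    simp only [hZ]
    rfl
  rw [e2] at h
  have e1 : H P (fun ω => (ω.1.1, ω.1.2 + ω.2)) =
      H P0 (fun ω => (ω.1.1 + ω.1.2, ω.1.1 + ω.2)) := hPP _
  rw [e1] at h
  have e3 : H P0 (fun ω => ω.1.1 + ω.2) = ent (conv p B) := by
    have := H_add h2 (fun ω : G × G => p ω.1 * q ω.2) B (fun ω => ω.1) (fun x => x)
    rw [pr_fst p hq, pr_id] at this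
    exact this
  have e4 : H P0 (fun ω => ω.1.2 + ω.2) = ent (conv q B) := by
    have := H_add h2 (fun ω : G × G => p ω.1 * q ω.2) B (fun ω => ω.2) (fun x => x)
    rw [pr_snd q hp, pr_id] at this
    exact this
  have e5 : H P0 (fun ω => ω.1.1 + ω.1.2) = ent (conv p q) := by
    rw [← e2, hPP]
  have u1 := H_pair_le hl0 (fun ω => ω.1.1 + ω.1.2) (fun ω => ω.1.1 + ω.2)
  have u2 := H_pair_le hl0 (fun ω => ω.1.1 + ω.2) (fun ω => ω.1.2 + ω.2)
  have e6 : H P0 (fun ω => (ω.1.1 + ω.2, ω.1.2 + ω.2)) =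
      H P0 (fun ω => (ω.1.1 + ω.1.2, ω.1.1 + ω.2)) := by
    refine H_eq ?_
    rintro ⟨⟨a, b⟩, c⟩ ⟨⟨a', b'⟩, c'⟩
    simp only [Prod.mk.injEq]
    constructor
    · rintro ⟨h1, h3⟩
      refine ⟨?_, h1⟩
      have : (a + c) + (b + c) = (a' + c') + (b' + c') := by rw [h1, h3]
      have e : ∀ u v w : G, (u + w) + (v + w) = u + v := by
        intro u v w
        rw [add_add_add_comm, h2 w, add_zero]
      rwa [e, e] at this
    · rintro ⟨h1, h3⟩
      refine ⟨h3, ?_⟩
      have : (a + b) + (a + c) = (a' + b') + (a' + c') := by rw [h1, h3]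
      have e : ∀ u v w : G, (u + v) + (u + w) = v + w := by
        intro u v w
        rw [add_add_add_comm, h2 u, zero_add]
      rwa [e, e] at this
  rw [e5, e3] at u1
  rw [e6, e3, e4] at u2
  have hF := thm_FibEnt G h2 p q hp hq
  have hsum : ∑ z, conv p q z * Ib B (fib p q z) =
      ∑ z, conv p q z * ent (conv (fib p q z) B) - ∑ z, conv p q z * ent (fib p q z) := by
    rw [← sum_sub_distrib]
    refine sum_congr rfl fun z _ => ?_
    unfold Ib
    ring
  rw [hsum, hF]
  unfold Ib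
  constructor <;> linarith

end Pool.Agent.BR
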