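import Pool.Agent.BR.St

/-!
The main theorem for groups of exponent two and the final theorem.
-/

set_option autoImplicit false

namespace Pool.Agent.BR

open Finset Real
open scoped Classical

section fin

variable {G : Type} [AddCommGroup G] [Fintype G]

theorem fin_card_mk (W : AddSubgroup G) (q : G ⧸ W) :
    (univ.filter (fun x : G => (QuotientAddGroup.mk x : G ⧸ W) = q)).card = Nat.card W := by
  obtain ⟨x0, rfl⟩ := QuotientAddGroup.mk_surjective q
  rw [Nat.card_eq_fintype_card, ← Finset.card_univ]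
  symm
  refine Finset.card_bij (fun w _ => x0 + (w : G)) ?_ ?_ ?_
  · intro w _
    rw [mem_filter]
    exact ⟨mem_univ _, QuotientAddGroup.mk_add_of_mem x0 w.2⟩
  · intro w _ w' _ h
    exact Subtype.ext (add_left_cancel h)
  · intro x hx
    have h1 := (mem_filter.1 hx).2
    refine ⟨⟨-x0 + x, QuotientAddGroup.eq.1 h1.symm⟩, mem_univ _, ?_⟩
    simp

theorem fin_sum_mk (W : AddSubgroup G) (F : G ⧸ W → ℝ) :
    ∑ x : G, F (QuotientAddGroup.mk x) = Nat.card W * ∑ q, F q := by
  rw [← Finset.sum_fiberwise_of_maps_to (s := univ) (t := univ)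
    (g := (QuotientAddGroup.mk : G → G ⧸ W)) (fun _ _ => mem_univ _), mul_sum]
  refine sum_congr rfl fun q _ => ?_
  have h1 : ∀ x ∈ univ.filter (fun x : G => (QuotientAddGroup.mk x : G ⧸ W) = q),
      F (QuotientAddGroup.mk x) = F q := by
    intro x hx
    rw [(mem_filter.1 hx).2]
  rw [sum_congr rfl h1, sum_const, fin_card_mk, nsmul_eq_mul]

theorem fin_sum_sub (V : AddSubgroup G) (f : G → ℝ) :
    ∑ w : V, f w = ∑ x, if x ∈ V then f x else 0 := by
  rw [← sum_filter]
  exact (Finset.sum_subtype (univ.filter (fun x => x ∈ V)) (by simp) f).symm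

theorem fin_card_pos (V : AddSubgroup G) : (0 : ℝ) < (Nat.card V : ℝ) := by
  have : 0 < Nat.card V := Nat.card_pos
  exact_mod_cast this

theorem fin_card_sub (V : AddSubgroup G) :
    (Nat.card V : ℝ) = ∑ x : G, if x ∈ V then (1 : ℝ) else 0 := by
  rw [← fin_sum_sub V (fun _ => (1 : ℝ))]
  simp

theorem fin_card (W0 : AddSubgroup G) (W1 : AddSubgroup (G ⧸ W0)) :
    (Nat.card (W1.comap (QuotientAddGroup.mk' W0)) : ℝ) = Nat.card W0 * Nat.card W1 := by
  rw [fin_card_sub (W1.comap (QuotientAddGroup.mk' W0)), fin_card_sub W1, ← fin_sum_mk]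
  exact sum_congr rfl fun x _ => rfl

theorem fin_card_top (W0 : AddSubgroup G) :
    (Fintype.card G : ℝ) = Nat.card W0 * Fintype.card (G ⧸ W0) := by
  have h := fin_sum_mk W0 (fun _ => (1 : ℝ))
  simpa using h

theorem fin_avc (W0 : AddSubgroup G) (W1 : AddSubgroup (G ⧸ W0)) (g : G → ℝ) (gb : G ⧸ W0 → ℝ)
    (hgb : ∀ x : G, gb (QuotientAddGroup.mk x) = avc W0 g x) (c : G) :
    avc (W1.comap (QuotientAddGroup.mk' W0)) g c = avc W1 gb (QuotientAddGroup.mk c) := by
  set V : AddSubgroup G := W1.comap (QuotientAddGroup.mk' W0) with hV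
  have hn0 := fin_card_pos W0
  have hle : ∀ w ∈ W0, w ∈ V := by
    intro w hw
    show (QuotientAddGroup.mk' W0) w ∈ W1
    have : (QuotientAddGroup.mk' W0) w = 0 := (QuotientAddGroup.eq_zero_iff w).2 hw
    rw [this]
    exact W1.zero_mem
  have key1 : ∑ x, (if x ∈ V then g (c + x) else 0) =
      ∑ x, (if x ∈ V then gb (QuotientAddGroup.mk (c + x)) else 0) := by
    have e1 : (Nat.card W0 : ℝ) * ∑ x, (if x ∈ V then g (c + x) else 0) =
        ∑ w : W0, ∑ x, (if x ∈ V then g (c + x + w) else 0) := by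
      have e2 : ∀ w : W0, ∑ x, (if x ∈ V then g (c + x + w) else 0) =
          ∑ x, (if x ∈ V then g (c + x) else 0) := by
        intro w
        rw [← sum_shift (w : G) (fun x => if x ∈ V then g (c + x) else 0)]
        refine sum_congr rfl fun x _ => ?_
        have e3 : x + (w : G) ∈ V ↔ x ∈ V := V.add_mem_cancel_right (hle w w.2)
        by_cases hx : x ∈ V
        · rw [if_pos hx, if_pos (e3.2 hx), add_assoc]
        · rw [if_neg hx, if_neg (fun h => hx (e3.1 h))]
      rw [sum_congr rfl fun w _ => e2 w]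
      simp
    have e4 : ∑ w : W0, ∑ x, (if x ∈ V then g (c + x + w) else 0) =
        (Nat.card W0 : ℝ) * ∑ x, (if x ∈ V then gb (QuotientAddGroup.mk (c + x)) else 0) := by
      rw [sum_comm, mul_sum]
      refine sum_congr rfl fun x _ => ?_
      by_cases hx : x ∈ V
      · simp only [if_pos hx]
        rw [hgb, avc, mul_div_cancel₀ _ hn0.ne']
      · simp only [if_neg hx]
        simp
    exact mul_left_cancel₀ hn0.ne' (e1.trans e4)
  have key2 : ∑ x, (if x ∈ V then gb (QuotientAddGroup.mk (c + x)) else 0) =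
      Nat.card W0 * ∑ q, (if q ∈ W1 then gb (QuotientAddGroup.mk c + q) else 0) := by
    rw [← fin_sum_mk]
    exact sum_congr rfl fun x _ => rfl
  have key3 : (Nat.card V : ℝ) = Nat.card W0 * Nat.card W1 := fin_card W0 W1
  have hn1 := fin_card_pos W1
  unfold avc
  rw [fin_sum_sub V (fun x => g (c + x)), fin_sum_sub W1 (fun q => gb (QuotientAddGroup.mk c + q)),
    key1, key2, key3]
  rw [mul_div_mul_left _ _ hn0.ne']

theorem fin_cod (W0 : AddSubgroup G) (W1 : AddSubgroup (G ⧸ W0)) :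
    cod (W1.comap (QuotientAddGroup.mk' W0)) = cod W1 := by
  have h0 := fin_card_pos W0
  have h1 := fin_card_pos W1
  have h2 : (0 : ℝ) < Fintype.card (G ⧸ W0) := card_pos
  unfold cod
  rw [fin_card, fin_card_top W0, log_mul h0.ne' h2.ne', log_mul h0.ne' h1.ne']
  ring

theorem fin_cod_log (W0 : AddSubgroup G) : cod W0 = log (Fintype.card (G ⧸ W0)) := by
  have h0 := fin_card_pos W0
  have h2 : (0 : ℝ) < Fintype.card (G ⧸ W0) := card_pos
  unfold cod
  rw [fin_card_top W0, log_mul h0.ne' h2.ne']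
  ring

theorem fin_state_mono {g : G → ℝ} {l l' e e' : ℝ} (h : State G g l e) (hl : l ≤ l')
    (he : e ≤ e') : State G g l' e' := by
  obtain ⟨a, b, c, p, q, hp, hq, h1, h2⟩ := h
  exact ⟨a, b, c, p, q, hp, hq, h1.trans hl, h2.trans he⟩

end fin

theorem thm_Main (h1 : St_DR) (h2 : St_ThmM) : St_Main := by
  intro be hbe hbe5
  obtain ⟨e0, C1, he0, hC1, hM⟩ := h2 be hbe hbe5
  obtain ⟨C2, hC2, hD⟩ := h1 (min 1 (e0 / 3)) (lt_min one_pos (by positivity)) (min_le_left _ _)
  have hm : (0 : ℝ) < max 1 C2 := lt_max_of_lt_left one_pos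
  refine ⟨C1 * (max 1 C2) ^ be, by positivity, ?_⟩
  intro G _ _ g l hS hl
  obtain ⟨W0, gb, hgb, hS', hcod⟩ := hD G g l hS hl
  have hS'' : State (G ⧸ W0) gb l e0 := fin_state_mono hS' le_rfl (by
    have := min_le_right (1 : ℝ) (e0 / 3)
    linarith)
  have hl0 : (0 : ℝ) ≤ l := by linarith
  have hl4 : (1 : ℝ) ≤ l ^ 4 := one_le_pow₀ hl
  have hn1 : (1 : ℝ) ≤ max 1 C2 * l ^ 4 := by
    have := le_max_left (1 : ℝ) C2
    nlinarith
  have hcard : log (Fintype.card (G ⧸ W0)) ≤ max 1 C2 * l ^ 4 := by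
    rw [← fin_cod_log]
    refine hcod.trans ?_
    exact mul_le_mul_of_nonneg_right (le_max_right _ _) (by positivity)
  obtain ⟨W1, c1, hav, hc1⟩ := hM (G ⧸ W0) gb l (max 1 C2 * l ^ 4) hS'' hl hcard hn1
  obtain ⟨c, rfl⟩ := QuotientAddGroup.mk_surjective c1
  refine ⟨W1.comap (QuotientAddGroup.mk' W0), c, ?_, ?_⟩
  · rw [fin_avc W0 W1 g gb hgb]
    exact hav
  · rw [fin_cod]
    refine hc1.trans (le_of_eq ?_)
    have e1 : (l ^ 4 : ℝ) ^ be = l ^ (4 * be) := by
      rw [← rpow_natCast, ← rpow_mul hl0]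
      norm_num
    rw [mul_rpow hm.le (by positivity), e1]
    have e2 : l ^ (2 + 5 * be) = l ^ (4 * be) * l ^ (2 + be) := by
      rw [← rpow_add (by linarith)]
      ring_nf
    rw [e2]
    ring

theorem fin_state (n : ℕ) (A : Finset (Fin n → ZMod 2)) (al : ℝ) (hal : 0 < al)
    (hA : al * 2 ^ n ≤ (A.card : ℝ)) :
    State (Fin n → ZMod 2) (fun x => if ∃ a ∈ A, ∃ b ∈ A, x = a + b then 0 else 1)
      (2 * log (1 / al) + 1) 0 := by
  have h2 : ∀ x : Fin n → ZMod 2, x + x = 0 := fun x => by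
    funext i
    exact CharTwo.add_self_eq_zero (x i)
  have h2n : (0 : ℝ) < 2 ^ n := by positivity
  have hA0 : (0 : ℝ) < A.card := lt_of_lt_of_le (by positivity) hA
  set p : (Fin n → ZMod 2) → ℝ := fun x => if x ∈ A then 1 / (A.card : ℝ) else 0 with hp
  have hlaw : IsLaw p := by
    refine ⟨fun x => ?_, ?_⟩
    · show 0 ≤ (if x ∈ A then 1 / (A.card : ℝ) else 0)
      split_ifs
      · positivity
      · exact le_rfl
    · rw [hp, sum_ite_mem, univ_inter, sum_const, nsmul_eq_mul]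
      field_simp
  have hent : ent p = log A.card := by
    have e1 : ∀ x, negMulLog (p x) = if x ∈ A then 1 / (A.card : ℝ) * log A.card else 0 := by
      intro x
      rw [hp]
      dsimp only
      split_ifs
      · rw [negMulLog, one_div, log_inv]
        ring
      · exact negMulLog_zero
    unfold ent
    rw [sum_congr rfl fun x _ => e1 x, sum_ite_mem, univ_inter, sum_const, nsmul_eq_mul]
    field_simp
  have hcardG : (Fintype.card (Fin n → ZMod 2) : ℝ) = 2 ^ n := by
    rw [Fintype.card_fun, ZMod.card, Fintype.card_fin]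
    push_cast
    ring
  have hDf : Df p ≤ log (1 / al) := by
    unfold Df
    rw [hent, hcardG, ← log_div h2n.ne' hA0.ne']
    refine log_le_log (by positivity) ?_
    rw [div_le_div_iff₀ hA0 hal, one_mul]
    linarith
  refine ⟨h2, fun x => ?_, fun x => ?_, p, p, hlaw, hlaw, by linarith, ?_⟩
  · split_ifs <;> norm_num
  · split_ifs <;> norm_num
  · refine le_of_eq ?_
    unfold avv av
    refine sum_eq_zero fun x _ => ?_
    by_cases hx : x ∈ A
    · rw [sum_eq_zero, mul_zero]
      intro y _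
      by_cases hy : y ∈ A
      · have h9 : ∃ a ∈ A, ∃ b ∈ A, x + y = a + b := ⟨x, hx, y, hy, rfl⟩
        beta_reduce
        rw [if_pos h9, mul_zero]
      · rw [hp]
        dsimp only
        rw [if_neg hy, zero_mul]
    · have : p x = 0 := by
        rw [hp]
        dsimp only
        rw [if_neg hx]
      rw [this, zero_mul]

theorem fin_four (n : ℕ) (A : Finset (Fin n → ZMod 2)) (W : AddSubgroup (Fin n → ZMod 2))
    (c : Fin n → ZMod 2)
    (h : avc W (fun x => if ∃ a ∈ A, ∃ b ∈ A, x = a + b then (0 : ℝ) else 1) c ≤ 3 / 8)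
    (v : Fin n → ZMod 2) (hv : v ∈ W) : ∃ a ∈ A, ∃ b ∈ A, ∃ c ∈ A, ∃ d ∈ A, v = a + b - c - d := by
  have h2 : ∀ x : Fin n → ZMod 2, x + x = 0 := fun x => by
    funext i
    exact CharTwo.add_self_eq_zero (x i)
  set g : (Fin n → ZMod 2) → ℝ := fun x => if ∃ a ∈ A, ∃ b ∈ A, x = a + b then (0 : ℝ) else 1
    with hg
  have hW := fin_card_pos W
  have h1 : ∑ w : W, g (c + w) ≤ 3 / 8 * Nat.card W := by
    unfold avc at h
    rw [div_le_iff₀ hW] at h
    exact h
  have h3 : ∑ w : W, g (c + (w + (⟨v, hv⟩ : W) : W)) = ∑ w : W, g (c + w) :=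
    Fintype.sum_equiv (Equiv.addRight (⟨v, hv⟩ : W)) _ _ fun _ => rfl
  have h4 : ∃ w : W, g (c + w) + g (c + (w + (⟨v, hv⟩ : W) : W)) < 1 := by
    by_contra hcon
    push Not at hcon
    have h5 : ∑ w : W, (1 : ℝ) ≤ ∑ w : W, (g (c + w) + g (c + (w + (⟨v, hv⟩ : W) : W))) :=
      sum_le_sum fun w _ => hcon w
    rw [sum_add_distrib, h3] at h5
    have h6 : ∑ w : W, (1 : ℝ) = Nat.card W := by simp
    rw [h6] at h5
    linarith
  obtain ⟨w, hw⟩ := h4
  have h7 : ∀ x, g x < 1 → ∃ a ∈ A, ∃ b ∈ A, x = a + b := by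
    intro x hx
    by_contra hcon
    rw [hg] at hx
    dsimp only at hx
    rw [if_neg hcon] at hx
    exact lt_irrefl _ hx
  have h8 : ∀ x, 0 ≤ g x := by
    intro x
    rw [hg]
    dsimp only
    split_ifs <;> norm_num
  obtain ⟨a, ha, b, hb, hab⟩ := h7 (c + (w + (⟨v, hv⟩ : W) : W)) (by
    have := h8 (c + w)
    linarith)
  obtain ⟨a', ha', b', hb', hab'⟩ := h7 (c + w) (by
    have := h8 (c + (w + (⟨v, hv⟩ : W) : W))
    linarith)
  refine ⟨a, ha, b, hb, a', ha', b', hb', ?_⟩
  rw [← hab, sub_sub, ← hab']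
  show v = c + ((w : Fin n → ZMod 2) + v) - (c + w)
  abel

theorem thm_Final (h : St_Main) : St_Final := by
  intro eps heps
  have hbe : (0 : ℝ) < min (1 / 5) (eps / 5) := lt_min (by norm_num) (by positivity)
  obtain ⟨C, hC, hM⟩ := h (min (1 / 5) (eps / 5)) hbe (min_le_left _ _)
  have hlog2 : (0 : ℝ) < log 2 := log_pos one_lt_two
  refine ⟨C * 2 ^ (2 + eps) / log 2, by positivity, ?_⟩
  intro n A al hal hal1 hA
  have hinv : (1 : ℝ) ≤ 1 / al := by
    rw [le_div_iff₀ hal]
    linarith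
  have hla : 0 ≤ log (1 / al) := log_nonneg hinv
  obtain ⟨W, c, hav, hcod⟩ := hM _ _ _ (fin_state n A al hal hA) (by linarith)
  refine ⟨AddSubgroup.toZModSubmodule 2 W, fun v hv => fin_four n A W c hav v hv, ?_⟩
  have hc : (Nat.card W : ℝ) = 2 ^ Module.finrank (ZMod 2) (AddSubgroup.toZModSubmodule 2 W) := by
    have h1 := Module.natCard_eq_pow_finrank (K := ZMod 2) (V := AddSubgroup.toZModSubmodule 2 W)
    rw [Nat.card_zmod] at h1
    have h2 : Nat.card W = Nat.card (AddSubgroup.toZModSubmodule 2 W) := rfl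
    rw [h2, h1]
    push_cast
    ring
  have hcardG : (Fintype.card (Fin n → ZMod 2) : ℝ) = 2 ^ n := by
    rw [Fintype.card_fun, ZMod.card, Fintype.card_fin]
    push_cast
    ring
  have hcw : cod W = (n - Module.finrank (ZMod 2) (AddSubgroup.toZModSubmodule 2 W)) * log 2 := by
    unfold cod
    rw [hc, hcardG, log_pow, log_pow]
    ring
  have hl2 : 2 * log (1 / al) + 1 ≤ 2 * log (2 / al) := by
    have h1 : log (2 / al) = log 2 + log (1 / al) := by
      rw [← log_mul (by norm_num) (by positivity)]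
      congr 1
      ring
    rw [h1]
    have := Real.log_two_gt_d9
    linarith
  have hlog : 0 ≤ log (2 / al) := by linarith
  have h5 : 5 * min (1 / 5) (eps / 5) ≤ eps := by
    have := min_le_right (1 / 5 : ℝ) (eps / 5)
    linarith
  have hfin : cod W ≤ C * 2 ^ (2 + eps) * log (2 / al) ^ (2 + eps) := by
    refine hcod.trans ?_
    rw [mul_assoc]
    refine mul_le_mul_of_nonneg_left ?_ hC.le
    calc (2 * log (1 / al) + 1) ^ (2 + 5 * min (1 / 5) (eps / 5))
        ≤ (2 * log (1 / al) + 1) ^ (2 + eps) :=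
          rpow_le_rpow_of_exponent_le (by linarith) (by linarith)
      _ ≤ (2 * log (2 / al)) ^ (2 + eps) :=
          rpow_le_rpow (by linarith) hl2 (by linarith)
      _ = 2 ^ (2 + eps) * log (2 / al) ^ (2 + eps) := by
          rw [mul_rpow (by norm_num) hlog]
  rw [hcw] at hfin
  rw [div_mul_eq_mul_div, le_div_iff₀ hlog2]
  exact hfin

end Pool.Agent.BR
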