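import Pool.Agent.BR.Base

/-!
Laws on finite groups of exponent two: convolution, shifts, deficiency.
-/

set_option autoImplicit false

namespace Pool.Agent.BR

open Finset Real
open scoped Classical

variable {G : Type} [AddCommGroup G] [Fintype G]

/-- Convolution (the groups have exponent two). -/
def conv (p q : G → ℝ) (x : G) : ℝ := ∑ y, p y * q (x + y)

/-- The shifted law. -/
def sh (a : G) (p : G → ℝ) (x : G) : ℝ := p (x + a)

/-- The deficiency. -/
noncomputable def Df (p : G → ℝ) : ℝ := log (Fintype.card G) - ent p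

/-- The gain of entropy from an independent summand with law `B`. -/
noncomputable def Ib (B p : G → ℝ) : ℝ := ent (conv p B) - ent p

/-- The law of `X` given `X + Y = z` (for `X ~ p`, `Y ~ q` independent). -/
noncomputable def fib (p q : G → ℝ) (z x : G) : ℝ := p x * q (x + z) / conv p q z

/-- The entropy of the law modulo a subgroup. -/
noncomputable def entq (W : AddSubgroup G) (p : G → ℝ) : ℝ :=
  H p (fun x => (QuotientAddGroup.mk x : G ⧸ W))

/-- The logarithm of the index of a subgroup. -/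
noncomputable def cod (W : AddSubgroup G) : ℝ := log (Fintype.card G) - log (Nat.card W)

/-- All quotients of `B` have at least three quarters of the maximal entropy. -/
def Spread (B : G → ℝ) : Prop := ∀ W : AddSubgroup G, 3 / 4 * cod W ≤ entq W B

omit [Fintype G] in
theorem add_add_self (h2 : ∀ x : G, x + x = 0) (x y : G) : x + y + y = x := by
  rw [add_assoc, h2, add_zero]

omit [Fintype G] in
theorem self_add_add (h2 : ∀ x : G, x + x = 0) (x y : G) : x + (x + y) = y := by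
  rw [← add_assoc, h2, zero_add]

omit [Fintype G] in
theorem add_eq_iff (h2 : ∀ x : G, x + x = 0) (x y z : G) : x + y = z ↔ y = z + x := by
  constructor
  · rintro rfl
    rw [add_comm x y, add_add_self h2]
  · rintro rfl
    rw [add_comm z x, self_add_add h2]

theorem sum_shift (a : G) (f : G → ℝ) : ∑ x, f (x + a) = ∑ x, f x :=
  Fintype.sum_equiv (Equiv.addRight a) _ _ fun _ => rfl

theorem sum_shift' (a : G) (f : G → ℝ) : ∑ x, f (a + x) = ∑ x, f x :=
  Fintype.sum_equiv (Equiv.addLeft a) _ _ fun _ => rfl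

theorem card_pos : (0 : ℝ) < (Fintype.card G : ℝ) := by
  have : 0 < Fintype.card G := Fintype.card_pos_iff.2 ⟨0⟩
  exact_mod_cast this

theorem log_card_nonneg : 0 ≤ log (Fintype.card G : ℝ) := by
  apply log_nonneg
  have : 1 ≤ Fintype.card G := Fintype.card_pos_iff.2 ⟨0⟩
  exact_mod_cast this

theorem isLaw_prod {Ω Ω' : Type} [Fintype Ω] [Fintype Ω'] {P : Ω → ℝ} {Q : Ω' → ℝ}
    (hP : IsLaw P) (hQ : IsLaw Q) : IsLaw (fun ω : Ω × Ω' => P ω.1 * Q ω.2) := by
  refine ⟨fun ω => mul_nonneg (hP.nn _) (hQ.nn _), ?_⟩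
  rw [Fintype.sum_prod_type]
  simp only [← mul_sum, ← sum_mul]
  rw [hP.sum, hQ.sum, one_mul]

theorem conv_law {p q : G → ℝ} (hp : IsLaw p) (hq : IsLaw q) : IsLaw (conv p q) := by
  refine ⟨fun x => sum_nonneg fun y _ => mul_nonneg (hp.nn _) (hq.nn _), ?_⟩
  unfold conv
  rw [sum_comm]
  have : ∀ y, ∑ x, p y * q (x + y) = p y := by
    intro y
    rw [← mul_sum, sum_shift y q, hq.sum, mul_one]
  simp only [this]
  exact hp.sum

theorem conv_comm (h2 : ∀ x : G, x + x = 0) (p q : G → ℝ) : conv p q = conv q p := by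
  funext x
  unfold conv
  rw [← sum_shift' x]
  refine sum_congr rfl fun y _ => ?_
  rw [self_add_add h2, mul_comm]

theorem conv_assoc (h2 : ∀ x : G, x + x = 0) (p q r : G → ℝ) :
    conv (conv p q) r = conv p (conv q r) := by
  funext x
  unfold conv
  simp only [sum_mul, mul_sum]
  rw [sum_comm]
  refine sum_congr rfl fun y _ => ?_
  rw [← sum_shift y]
  refine sum_congr rfl fun z _ => ?_
  rw [add_add_self h2, add_assoc x y z, add_comm y z, mul_assoc]

theorem sh_law {p : G → ℝ} (hp : IsLaw p) (a : G) : IsLaw (sh a p) :=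
  ⟨fun x => hp.nn _, by unfold sh; rw [sum_shift a p, hp.sum]⟩

theorem ent_sh (a : G) (p : G → ℝ) : ent (sh a p) = ent p :=
  sum_shift a (fun x => negMulLog (p x))

theorem conv_sh_right (a : G) (p q : G → ℝ) : conv p (sh a q) = sh a (conv p q) := by
  funext x
  unfold conv sh
  refine sum_congr rfl fun y _ => ?_
  rw [add_right_comm]

theorem conv_sh_left (h2 : ∀ x : G, x + x = 0) (a : G) (p q : G → ℝ) :
    conv (sh a p) q = sh a (conv p q) := by
  rw [conv_comm h2, conv_sh_right, conv_comm h2 q p]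

theorem Df_sh (a : G) (p : G → ℝ) : Df (sh a p) = Df p := by
  unfold Df
  rw [ent_sh]

theorem Ib_sh (h2 : ∀ x : G, x + x = 0) (a : G) (B p : G → ℝ) : Ib B (sh a p) = Ib B p := by
  unfold Ib
  rw [conv_sh_left h2, ent_sh, ent_sh]

theorem Ib_sh' (a : G) (B p : G → ℝ) : Ib (sh a B) p = Ib B p := by
  unfold Ib
  rw [conv_sh_right, ent_sh]

theorem ent_nonneg {Ω : Type} [Fintype Ω] {p : Ω → ℝ} (hp : IsLaw p) : 0 ≤ ent p := by
  rw [ent_eq_H]
  exact H_nonneg hp _

theorem ent_le_log {Ω : Type} [Fintype Ω] {p : Ω → ℝ} (hp : IsLaw p) :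
    ent p ≤ log (Fintype.card Ω) := by
  rw [ent_eq_H]
  exact H_le_log hp _

omit [AddCommGroup G] in
theorem Df_nonneg {p : G → ℝ} (hp : IsLaw p) : 0 ≤ Df p := by
  have := ent_le_log hp
  unfold Df
  linarith

omit [AddCommGroup G] in
theorem Df_le {p : G → ℝ} (hp : IsLaw p) : Df p ≤ log (Fintype.card G) := by
  have := ent_nonneg hp
  unfold Df
  linarith

/-- The law of a sum of independent variables. -/
theorem pr_add {Ω Ω' : Type} [Fintype Ω] [Fintype Ω'] (h2 : ∀ x : G, x + x = 0)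
    (P : Ω → ℝ) (Q : Ω' → ℝ) (X : Ω → G) (Y : Ω' → G) :
    pr (fun ω : Ω × Ω' => P ω.1 * Q ω.2) (fun ω => X ω.1 + Y ω.2) =
      conv (pr P X) (pr Q Y) := by
  funext z
  have e1 : pr (fun ω : Ω × Ω' => P ω.1 * Q ω.2) (fun ω => X ω.1 + Y ω.2) z =
      ∑ ω : Ω, P ω * pr Q Y (z + X ω) := by
    unfold pr
    rw [sum_filter, Fintype.sum_prod_type]
    refine sum_congr rfl fun ω _ => ?_
    rw [mul_sum, sum_filter]
    refine sum_congr rfl fun ω' _ => ?_
    simp only [add_eq_iff h2 (X ω) (Y ω') z]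
  rw [e1]
  have e2 := sum_pr_mul (P := P) (X := X) univ (fun _ => mem_univ _) (fun y => pr Q Y (z + y))
  rw [← e2]
  rfl

theorem H_add {Ω Ω' : Type} [Fintype Ω] [Fintype Ω'] (h2 : ∀ x : G, x + x = 0)
    (P : Ω → ℝ) (Q : Ω' → ℝ) (X : Ω → G) (Y : Ω' → G) :
    H (fun ω : Ω × Ω' => P ω.1 * Q ω.2) (fun ω => X ω.1 + Y ω.2) =
      ent (conv (pr P X) (pr Q Y)) := by
  rw [H_eq_ent, pr_add h2]

theorem pr_id {Ω : Type} [Fintype Ω] (p : Ω → ℝ) : pr p (fun x => x) = p := by
  funext a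
  unfold pr
  rw [sum_eq_single a]
  · intro b hb hne
    exact absurd (mem_filter.1 hb).2 hne
  · intro h
    exact (h (mem_filter.2 ⟨mem_univ a, rfl⟩)).elim

theorem H_add' (h2 : ∀ x : G, x + x = 0) (p q : G → ℝ) :
    H (fun ω : G × G => p ω.1 * q ω.2) (fun ω => ω.1 + ω.2) = ent (conv p q) := by
  have h := H_add h2 p q (fun x => x) (fun x => x)
  rw [pr_id, pr_id] at h
  exact h

/-- Kaimanovich-Vershik-Madiman: the gain decreases under convolution. -/
theorem ent_submod (h2 : ∀ x : G, x + x = 0) {p q r : G → ℝ} (hp : IsLaw p) (hq : IsLaw q)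
    (hr : IsLaw r) :
    ent (conv (conv p q) r) + ent p ≤ ent (conv p q) + ent (conv p r) := by
  set P : (G × G) × G → ℝ := fun ω => (p ω.1.1 * q ω.1.2) * r ω.2 with hP
  have hlaw : IsLaw P := isLaw_prod (isLaw_prod hp hq) hr
  have hs := H_submod hlaw (U := fun ω => (ω.1.2, ω.1.1 + ω.2)) (V := fun ω => (ω.2, ω.1.1 + ω.1.2))
    (Z := fun ω => ω.1.1 + ω.1.2 + ω.2) (by
      rintro ⟨⟨x, y⟩, z⟩ ⟨⟨x', y'⟩, z'⟩ h
      simp only [Prod.mk.injEq] at h
      obtain ⟨rfl, h⟩ := h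
      show x + y + z = x' + y + z'
      rw [add_right_comm, h, add_right_comm]) (by
      rintro ⟨⟨x, y⟩, z⟩ ⟨⟨x', y'⟩, z'⟩ h
      simp only [Prod.mk.injEq] at h
      obtain ⟨rfl, h⟩ := h
      show x + y + z = x' + y' + z
      rw [h])
  have e1 : H P (fun ω => ω.1.1 + ω.1.2 + ω.2) = ent (conv (conv p q) r) := by
    have := H_add h2 (fun ω : G × G => p ω.1 * q ω.2) r (fun ω => ω.1 + ω.2) (fun x => x)
    rw [pr_id, pr_add h2 p q (fun x => x) (fun x => x), pr_id, pr_id] at this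
    exact this
  have e2 : H P (fun ω => ((ω.1.2, ω.1.1 + ω.2), (ω.2, ω.1.1 + ω.1.2))) =
      ent p + ent q + ent r := by
    have h1 : H P (fun ω => ((ω.1.2, ω.1.1 + ω.2), (ω.2, ω.1.1 + ω.1.2))) =
        H P (fun ω => ((ω.1.1, ω.1.2), ω.2)) := by
      refine H_eq ?_
      rintro ⟨⟨x, y⟩, z⟩ ⟨⟨x', y'⟩, z'⟩
      simp only [Prod.mk.injEq]
      constructor
      · rintro ⟨⟨rfl, h⟩, rfl, -⟩
        exact ⟨⟨add_right_cancel h, rfl⟩, rfl⟩
      · rintro ⟨⟨rfl, rfl⟩, rfl⟩
        exact ⟨⟨rfl, rfl⟩, rfl, rfl⟩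
    rw [h1, H_prod (X := fun ω : G × G => (ω.1, ω.2)) (Y := fun x : G => x)
      (isLaw_prod hp hq) hr, H_prod (X := fun x : G => x) (Y := fun x : G => x) hp hq]
    rw [ent_eq_H, ent_eq_H, ent_eq_H]
  have e3 : H P (fun ω => (ω.1.2, ω.1.1 + ω.2)) = ent q + ent (conv p r) := by
    have h1 := H_equiv (P := P) (Q := fun ω : G × (G × G) => q ω.1 * (p ω.2.1 * r ω.2.2))
      (e := ⟨fun ω => (ω.1.2, (ω.1.1, ω.2)), fun ω => ((ω.2.1, ω.1), ω.2.2),
        fun _ => rfl, fun _ => rfl⟩) (by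
        rintro ⟨⟨x, y⟩, z⟩
        show q y * (p x * r z) = (p x * q y) * r z
        ring) (fun ω => (ω.1, ω.2.1 + ω.2.2))
    have h3 : H (fun ω : G × (G × G) => q ω.1 * (p ω.2.1 * r ω.2.2))
        (fun ω => (ω.1, ω.2.1 + ω.2.2)) = ent q + ent (conv p r) := by
      rw [H_prod (X := fun x : G => x) (Y := fun ω : G × G => ω.1 + ω.2) hq (isLaw_prod hp hr),
        H_add' h2, ← ent_eq_H]
    rw [← h3, h1]
    rfl
  have e4 : H P (fun ω => (ω.2, ω.1.1 + ω.1.2)) = ent r + ent (conv p q) := by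
    have h1 := H_equiv (P := P) (Q := fun ω : G × (G × G) => r ω.1 * (p ω.2.1 * q ω.2.2))
      (e := ⟨fun ω => (ω.2, ω.1), fun ω => (ω.2, ω.1), fun _ => rfl, fun _ => rfl⟩) (by
        rintro ⟨⟨x, y⟩, z⟩
        show r z * (p x * q y) = (p x * q y) * r z
        ring) (fun ω => (ω.1, ω.2.1 + ω.2.2))
    have h3 : H (fun ω : G × (G × G) => r ω.1 * (p ω.2.1 * q ω.2.2))
        (fun ω => (ω.1, ω.2.1 + ω.2.2)) = ent r + ent (conv p q) := by
      rw [H_prod (X := fun x : G => x) (Y := fun ω : G × G => ω.1 + ω.2) hr (isLaw_prod hp hq),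
        H_add' h2, ← ent_eq_H]
    rw [← h3, h1]
    rfl
  rw [e2, e1, e3, e4] at hs
  linarith

theorem ent_le_conv (h2 : ∀ x : G, x + x = 0) {p q : G → ℝ} (hp : IsLaw p) (hq : IsLaw q) :
    ent p ≤ ent (conv p q) := by
  have hl := isLaw_prod hp hq
  have h := H_pair_le hl (fun ω => ω.1 + ω.2) (fun ω => ω.2)
  have e1 : H (fun ω : G × G => p ω.1 * q ω.2) (fun ω => (ω.1 + ω.2, ω.2)) = ent p + ent q := by
    have h1 : H (fun ω : G × G => p ω.1 * q ω.2) (fun ω => (ω.1 + ω.2, ω.2)) =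
        H (fun ω : G × G => p ω.1 * q ω.2) (fun ω => (ω.1, ω.2)) := by
      refine H_eq ?_
      rintro ⟨x, y⟩ ⟨x', y'⟩
      simp only [Prod.mk.injEq]
      constructor
      · rintro ⟨h, rfl⟩
        exact ⟨add_right_cancel h, rfl⟩
      · rintro ⟨rfl, rfl⟩
        exact ⟨rfl, rfl⟩
    rw [h1, H_prod (X := fun x : G => x) (Y := fun x : G => x) hp hq, ← ent_eq_H, ← ent_eq_H]
  have e2 : H (fun ω : G × G => p ω.1 * q ω.2) (fun ω => ω.2) = ent q := by
    have h1 := H_eq (P := fun ω : G × G => p ω.1 * q ω.2) (X := fun ω => ω.2)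
      (Y := fun ω => ((0 : ℕ), ω.2)) (by
        intro ω ω'
        simp only [Prod.mk.injEq, true_and])
    rw [h1, H_prod (X := fun _ : G => (0 : ℕ)) (Y := fun x : G => x) hp hq, ← ent_eq_H]
    have h3 : H p (fun _ : G => (0 : ℕ)) = 0 := by
      rw [H_eq_pt]
      have : ∀ ω, p ω * log (fb p (fun _ : G => (0 : ℕ)) ω) = 0 := by
        intro ω
        have : fb p (fun _ : G => (0 : ℕ)) ω = 1 := by
          unfold fb
          rw [sum_filter]
          simpa using hp.sum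
        rw [this, log_one, mul_zero]
      simp only [this]
      simp
    rw [h3, zero_add]
  rw [e1, e2, H_add' h2] at h
  linarith

theorem ent_le_conv' (h2 : ∀ x : G, x + x = 0) {p q : G → ℝ} (hp : IsLaw p) (hq : IsLaw q) :
    ent q ≤ ent (conv p q) := by
  rw [conv_comm h2]
  exact ent_le_conv h2 hq hp

theorem Df_conv_le (h2 : ∀ x : G, x + x = 0) {p q : G → ℝ} (hp : IsLaw p) (hq : IsLaw q) :
    Df (conv p q) ≤ Df p := by
  have := ent_le_conv h2 hp hq
  unfold Df
  linarith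

theorem Ib_nonneg (h2 : ∀ x : G, x + x = 0) {B p : G → ℝ} (hB : IsLaw B) (hp : IsLaw p) :
    0 ≤ Ib B p := by
  have := ent_le_conv h2 hp hB
  unfold Ib
  linarith

theorem Ib_le_Df {B p : G → ℝ} (hB : IsLaw B) (hp : IsLaw p) : Ib B p ≤ Df p := by
  have := ent_le_log (conv_law hp hB)
  unfold Ib Df
  linarith

theorem Ib_conv_le (h2 : ∀ x : G, x + x = 0) {B p q : G → ℝ} (hB : IsLaw B) (hp : IsLaw p)
    (hq : IsLaw q) : Ib B (conv p q) ≤ Ib B p := by
  have := ent_submod h2 hp hq hB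
  unfold Ib
  linarith

theorem Ib_conv_le' (h2 : ∀ x : G, x + x = 0) {B p q : G → ℝ} (hB : IsLaw B) (hp : IsLaw p)
    (hq : IsLaw q) : Ib B (conv p q) ≤ Ib B q := by
  rw [conv_comm h2]
  exact Ib_conv_le h2 hB hq hp

theorem fib_law {p q : G → ℝ} (hp : IsLaw p) (hq : IsLaw q) {z : G} (hz : conv p q z ≠ 0) :
    IsLaw (fib p q z) := by
  refine ⟨fun x => div_nonneg (mul_nonneg (hp.nn _) (hq.nn _)) ((conv_law hp hq).nn _), ?_⟩
  unfold fib
  rw [← sum_div, div_eq_one_iff_eq hz]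
  unfold conv
  refine sum_congr rfl fun y _ => ?_
  rw [add_comm z y]

theorem conv_mul_fib {p q : G → ℝ} (hp : IsLaw p) (hq : IsLaw q) (z x : G) :
    conv p q z * fib p q z x = p x * q (x + z) := by
  unfold fib
  rcases eq_or_ne (conv p q z) 0 with h0 | h0
  · rw [h0, zero_mul]
    have h1 : ∀ y ∈ univ, 0 ≤ p y * q (z + y) := fun y _ => mul_nonneg (hp.nn _) (hq.nn _)
    have h3 := (sum_eq_zero_iff_of_nonneg h1).1 h0 x (mem_univ x)
    rw [add_comm x z, h3]
  · field_simp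

/-- Law of the second variable given the sum: a translate of the law of the first. -/
theorem fib_comm (h2 : ∀ x : G, x + x = 0) (p q : G → ℝ) (z : G) :
    fib q p z = sh z (fib p q z) := by
  funext x
  unfold fib sh
  rw [conv_comm h2 q p]
  show q x * p (x + z) / conv p q z = p (x + z) * q (x + z + z) / conv p q z
  rw [add_add_self h2, mul_comm]

end Pool.Agent.BR
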