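import Pool.Agent.BR.St

/-!
BR: Lemma I (the Gibbs law is almost invariant on the cosets).
-/

set_option autoImplicit false

namespace Pool.Agent.BR

open Finset Real
open scoped Classical

variable {G : Type} [AddCommGroup G] [Fintype G]

/-- the mass of the coset of `x` -/
noncomputable def Inv_c (W : AddSubgroup G) (p : G → ℝ) (x : G) : ℝ := ∑ w : W, p (x + w)

theorem Inv_c_inv (W : AddSubgroup G) (p : G → ℝ) (x : G) (w : W) :
    Inv_c W p (x + w) = Inv_c W p x := by
  unfold Inv_c
  have h : ∀ v : W, p (x + w + v) = p (x + ((w + v : W) : G)) := by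
    intro v
    rw [AddSubgroup.coe_add, add_assoc]
  simp only [h]
  exact sum_shift' w (fun v : W => p (x + (v : G)))

/-- averages of invariant functions -/
theorem Inv_avg (W : AddSubgroup G) (B : W → ℝ) (hB : ∑ w, B w = 1) (p F : G → ℝ)
    (hF : ∀ (x : G) (w : W), F (x + w) = F x) :
    ∑ x, (∑ w : W, B w * p (x + w)) * F x = ∑ x, p x * F x := by
  have h1 : ∀ x, (∑ w : W, B w * p (x + w)) * F x =
      ∑ w : W, B w * (p (x + w) * F (x + w)) := by
    intro x
    rw [sum_mul]
    refine sum_congr rfl fun w _ => ?_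
    rw [hF x w, mul_assoc]
  simp only [h1]
  rw [sum_comm]
  have h2 : ∀ w : W, ∑ x, B w * (p (x + w) * F (x + w)) = B w * ∑ x, p x * F x := by
    intro w
    rw [← mul_sum, sum_shift (w : G) (fun x => p x * F x)]
  simp only [h2]
  rw [← sum_mul, hB, one_mul]

/-- the chain rule for the cosets -/
theorem Inv_chain (h2 : ∀ x : G, x + x = 0) (W : AddSubgroup G) (p : G → ℝ) (hp : ∀ x, 0 ≤ p x) :
    ∑ x, p x * ent (fw W p x) = ent p + ∑ x, p x * log (Inv_c W p x) := by
  have hc : ∀ x, Inv_c W p x = 0 → p x = 0 := by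
    intro x hx
    have hx' : ∑ w : W, p (x + w) = 0 := hx
    have h3 := (sum_eq_zero_iff_of_nonneg (fun (w : W) _ => hp (x + w))).mp hx' (0 : W)
      (mem_univ _)
    simpa using h3
  have h1 : ∀ x, p x * ent (fw W p x) =
      ∑ w : W, p x * negMulLog (p (x + w) / Inv_c W p x) := by
    intro x
    unfold ent
    rw [mul_sum]
    rfl
  simp only [h1]
  rw [sum_comm]
  have h4 : ∀ w : W, ∑ x, p x * negMulLog (p (x + w) / Inv_c W p x) =
      ∑ x, p (x + w) * negMulLog (p x / Inv_c W p x) := by
    intro w
    rw [← sum_shift (w : G)]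
    refine sum_congr rfl fun x _ => ?_
    rw [Inv_c_inv, add_add_self h2]
  simp only [h4]
  rw [sum_comm]
  have h5 : ∀ x, ∑ w : W, p (x + w) * negMulLog (p x / Inv_c W p x) =
      negMulLog (p x) + p x * log (Inv_c W p x) := by
    intro x
    rw [← sum_mul]
    show Inv_c W p x * _ = _
    by_cases h0 : p x = 0
    · rw [h0]
      simp
    · have h6 : Inv_c W p x ≠ 0 := fun h => h0 (hc x h)
      unfold negMulLog
      rw [log_div h0 h6]
      field_simp
      ring
  simp only [h5]
  rw [sum_add_distrib]
  rfl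

theorem thm_Inv (_ : St_DW) : St_Inv := by
  intro G _ _ h2 W b B ph ps e hB hph hps hps0 hKL
  set m : G → ℝ := fun z => ∑ w : W, B w * ph (z + w) with hm
  have hm0 : ∀ z, 0 ≤ m z := fun z => sum_nonneg fun w _ => mul_nonneg (hB.nn w) (hph.nn _)
  have hms : ∑ z, m z = 1 := by
    have h := Inv_avg W B hB.sum ph (fun _ => 1) (fun _ _ => rfl)
    simp only [mul_one] at h
    rw [hm]
    simp only
    rw [h, hph.sum]
  -- the entropy inequality
  have hent : ent m - ent ph ≤ e := by
    have h3 : ∑ w : W, B w * KL ph (sh (b + w) ps) ≤ e := by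
      have h4 : ∀ w : W, B w * KL ph (sh (b + w) ps) ≤ B w * e := by
        intro w
        by_cases hw : B w = 0
        · rw [hw, zero_mul, zero_mul]
        · exact mul_le_mul_of_nonneg_left (hKL w hw) (hB.nn w)
      have h5 := sum_le_sum fun w (_ : w ∈ (univ : Finset W)) => h4 w
      rwa [← sum_mul, hB.sum, one_mul] at h5
    have h6 : ∀ w : W, KL ph (sh (b + w) ps) =
        (∑ x, ph x * log (ph x)) - ∑ z, ph (z + w) * log (ps (z + b)) := by
      intro w
      have h7 : ∑ z, ph (z + w) * log (ps (z + b)) =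
          ∑ x, ph x * log (ps (x + (b + w))) := by
        rw [← sum_shift (w : G)]
        refine sum_congr rfl fun x _ => ?_
        rw [add_add_self h2, add_right_comm, add_assoc x b]
      rw [h7, ← sum_sub_distrib]
      unfold KL sh
      refine sum_congr rfl fun x _ => ?_
      by_cases h0 : ph x = 0
      · rw [h0]
        ring
      · rw [log_div h0 (hps0 _).ne']
        ring
    simp only [h6] at h3
    have h8 : ∑ w : W, B w * ((∑ x, ph x * log (ph x)) - ∑ z, ph (z + w) * log (ps (z + b))) =
        (∑ x, ph x * log (ph x)) - ∑ z, m z * log (ps (z + b)) := by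
      simp only [mul_sub]
      rw [sum_sub_distrib, ← sum_mul, hB.sum, one_mul]
      congr 1
      rw [hm]
      simp only [sum_mul, mul_sum]
      rw [sum_comm]
      refine sum_congr rfl fun z _ => sum_congr rfl fun w _ => ?_
      ring
    rw [h8] at h3
    have h9 := gibbs univ m (fun z => ps (z + b)) (fun i _ => hm0 i) (fun i _ => (hps0 _).le)
      (fun i _ h => absurd h (hps0 _).ne') (by
        rw [hms, sum_shift b ps, hps.sum])
    have e1 : ∀ p : G → ℝ, ent p = -∑ x, p x * log (p x) := by
      intro p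
      unfold ent
      rw [← sum_neg_distrib]
      refine sum_congr rfl fun x _ => ?_
      unfold negMulLog
      ring
    rw [e1 m, e1 ph]
    linarith
  -- masses of the cosets
  have hcm : ∀ x, Inv_c W m x = Inv_c W ph x := by
    intro x
    unfold Inv_c
    rw [hm]
    simp only
    rw [sum_comm]
    have h3 : ∀ w : W, ∑ v : W, B w * ph (x + v + w) = B w * Inv_c W ph x := by
      intro w
      rw [← mul_sum]
      congr 1
      unfold Inv_c
      have h4 : ∀ v : W, ph (x + v + w) = ph (x + ((v + w : W) : G)) := by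
        intro v
        rw [AddSubgroup.coe_add, add_assoc]
      simp only [h4]
      exact sum_shift w (fun v : W => ph (x + (v : G)))
    simp only [h3]
    rw [← sum_mul, hB.sum, one_mul]
    rfl
  have h2W : ∀ w : W, w + w = 0 := by
    intro w
    apply Subtype.ext
    rw [AddSubgroup.coe_add, AddSubgroup.coe_zero, h2]
  -- fibres of the convolution
  have hconv : ∀ x, conv (fw W ph x) B = fw W m x := by
    intro x
    funext w
    show ∑ y : W, ph (x + y) / Inv_c W ph x * B (w + y) = m (x + w) / Inv_c W m x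
    rw [hcm, hm]
    simp only
    rw [sum_div]
    rw [← sum_shift' w (fun w' : W => B w' * ph (x + w + w') / Inv_c W ph x)]
    refine sum_congr rfl fun y _ => ?_
    have h5 : x + w + ((w + y : W) : G) = x + y := by
      rw [AddSubgroup.coe_add, add_assoc x, self_add_add h2]
    rw [h5]
    ring
  have hinv : ∀ (x : G) (w : W), ent (fw W m (x + w)) = ent (fw W m x) := by
    intro x w
    have h6 : fw W m (x + w) = sh w (fw W m x) := by
      funext v
      show m (x + w + v) / Inv_c W m (x + w) = m (x + ((v + w : W) : G)) / Inv_c W m x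
      rw [Inv_c_inv, AddSubgroup.coe_add, add_comm (v : G), add_assoc]
    rw [h6, ent_sh]
  have hI : ∑ x, ph x * Ib B (fw W ph x) =
      ∑ x, m x * ent (fw W m x) - ∑ x, ph x * ent (fw W ph x) := by
    have h7 := Inv_avg W B hB.sum ph (fun x => ent (fw W m x)) hinv
    have h8 : ∑ x, m x * ent (fw W m x) = ∑ x, ph x * ent (fw W m x) := h7
    rw [h8, ← sum_sub_distrib]
    refine sum_congr rfl fun x _ => ?_
    unfold Ib
    rw [hconv]
    ring
  rw [hI, Inv_chain h2 W m hm0, Inv_chain h2 W ph hph.nn]
  have h9 : ∑ x, m x * log (Inv_c W m x) = ∑ x, ph x * log (Inv_c W ph x) := by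
    simp only [hcm]
    exact Inv_avg W B hB.sum ph (fun x => log (Inv_c W ph x)) (fun x w => by rw [Inv_c_inv])
  rw [h9]
  linarith

end Pool.Agent.BR
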