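import Pool.Agent.BR.St

/-!
BR: Lemma S (sampling) from the expected relative entropy, conditioning, and the diagonal.
-/

set_option autoImplicit false

namespace Pool.Agent.BR

open Finset Real
open scoped Classical

/-- the marginals of the product law -/
theorem LemS_marg {G : Type} [Fintype G] (N : ℕ) (q f : G → ℝ) (hq : ∑ x, q x = 1) (i : Fin N) :
    ∑ y : Fin N → G, (∏ j, q (y j)) * f (y i) = ∑ x, q x * f x := by
  have h1 : ∀ y : Fin N → G, (∏ j, q (y j)) * f (y i) =
      ∏ j, (q (y j) * (if j = i then f (y j) else 1)) := by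
    intro y
    rw [prod_mul_distrib, prod_ite_eq' univ i (fun j => f (y j)), if_pos (mem_univ i)]
  simp only [h1]
  rw [← Fintype.piFinset_univ (α := Fin N) (β := fun _ => G)]
  rw [← prod_univ_sum (fun _ : Fin N => (univ : Finset G))
    (fun j x => q x * (if j = i then f x else 1))]
  have h2 : ∀ j : Fin N, ∑ x, q x * (if j = i then f x else 1) =
      if j = i then ∑ x, q x * f x else 1 := by
    intro j
    by_cases hj : j = i
    · simp [hj]
    · simp [hj, hq]
  simp only [h2]
  rw [prod_ite_eq' univ i (fun _ => ∑ x, q x * f x), if_pos (mem_univ i)]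

theorem LemS_law {G : Type} [Fintype G] (N : ℕ) (q : G → ℝ) (hq : IsLaw q) :
    IsLaw (fun y : Fin N → G => ∏ i, q (y i)) := by
  refine ⟨fun y => prod_nonneg fun i _ => hq.nn _, ?_⟩
  rw [← Fintype.piFinset_univ (α := Fin N) (β := fun _ => G)]
  rw [← prod_univ_sum (fun _ : Fin N => (univ : Finset G)) (fun _ x => q x)]
  simp [hq.sum]

theorem LemS_ent {G : Type} [Fintype G] (N : ℕ) (q : G → ℝ) (hq : IsLaw q) :
    ent (fun y : Fin N → G => ∏ i, q (y i)) = N * ent q := by
  unfold ent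
  have h1 : ∀ y : Fin N → G, negMulLog (∏ i, q (y i)) =
      ∑ i, (∏ j, q (y j)) * (-log (q (y i))) := by
    intro y
    rw [← mul_sum, sum_neg_distrib]
    by_cases h0 : ∃ i, q (y i) = 0
    · obtain ⟨i, hi⟩ := h0
      have : ∏ j, q (y j) = 0 := prod_eq_zero (mem_univ i) hi
      rw [this]
      simp
    · push Not at h0
      rw [← log_prod (fun i _ => h0 i)]
      unfold negMulLog
      ring
  simp only [h1]
  rw [sum_comm]
  have h2 : ∀ i : Fin N, ∑ y : Fin N → G, (∏ j, q (y j)) * (-log (q (y i))) =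
      ∑ x, negMulLog (q x) := by
    intro i
    rw [LemS_marg N q (fun x => -log (q x)) hq.sum i]
    refine sum_congr rfl fun x _ => ?_
    unfold negMulLog
    ring
  simp only [h2]
  simp

theorem LemS_gib_pos {G : Type} [AddCommGroup G] [Fintype G] (K : ℝ) (s : G → ℝ) (x : G) :
    0 < gib K s x := by
  unfold gib
  have : 0 < ∑ y, exp (-K * s y) := sum_pos (fun y _ => exp_pos _) ⟨0, mem_univ _⟩
  positivity

theorem LemS_gib_law {G : Type} [AddCommGroup G] [Fintype G] (K : ℝ) (s : G → ℝ) :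
    IsLaw (gib K s) := by
  refine ⟨fun x => (LemS_gib_pos K s x).le, ?_⟩
  unfold gib
  have : 0 < ∑ y, exp (-K * s y) := sum_pos (fun y _ => exp_pos _) ⟨0, mem_univ _⟩
  rw [← sum_div, div_self this.ne']

theorem LemS_KL {G : Type} [AddCommGroup G] [Fintype G] {p q : G → ℝ} (hp : IsLaw p)
    (hq : IsLaw q) (hp0 : ∀ x, 0 < p x) (hq0 : ∀ x, 0 < q x) : 0 ≤ KL p q := by
  have h := gibbs univ p q (fun i _ => hp.nn i) (fun i _ => hq.nn i)
    (fun i _ h => absurd h (hq0 i).ne') (by rw [hp.sum, hq.sum])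
  unfold KL
  have h1 : ∀ x, p x * log (p x / q x) = p x * log (p x) - p x * log (q x) := by
    intro x
    rw [log_div (hp0 x).ne' (hq0 x).ne']
    ring
  simp only [h1]
  rw [sum_sub_distrib]
  linarith

theorem LemS_shift {G : Type} [AddCommGroup G] [Fintype G] (K : ℝ) (N : ℕ) (g : G → ℝ)
    (c : Fin N → G) (t : G) :
    gib K (fun x => (∑ i, g (x + (c i + t))) / N) =
      sh t (gib K (fun x => (∑ i, g (x + c i)) / N)) := by
  funext x
  unfold sh gib
  have h1 : ∀ y : G, (∑ i, g (y + (c i + t))) / (N : ℝ) = (∑ i, g (y + t + c i)) / N := by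
    intro y
    congr 1
    refine sum_congr rfl fun i _ => ?_
    congr 1
    rw [add_comm (c i) t, add_assoc]
  simp only [h1]
  congr 1
  exact sum_shift t (fun y => exp (-K * ((∑ i, g (y + c i)) / N)))

theorem thm_LemS (h1 : St_Samp) (h2 : St_Cond) (h3 : St_Diag) : St_LemS := by
  intro G _ _ hG K N g q hK hN hg0 hg1 hq
  set R : (Fin N → G) → ℝ := fun y =>
    KL (gib K (av g q)) (gib K (fun x => (∑ i, g (x + y i)) / N)) with hR
  set P : (Fin N → G) → ℝ := fun y => ∏ i, q (y i) with hP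
  have hPl : IsLaw P := LemS_law N q hq
  have hRn : ∀ y, 0 ≤ R y := fun y => LemS_KL (LemS_gib_law K _) (LemS_gib_law K _)
    (LemS_gib_pos K _) (LemS_gib_pos K _)
  have hs : ∑ y, P y * R y ≤ K ^ 2 / (2 * N) := h1 G hG K N g q hK hN hg0 hg1 hq
  have hN0 : (0 : ℝ) < N := by exact_mod_cast hN
  set E : Set (Fin N → G) := {y | R y ≤ K ^ 2 / N} with hE
  have hm : 0 < K ^ 2 / N := by positivity
  have hhalf : 1 / 2 ≤ ∑ ω, (if ω ∈ E then P ω else 0) := by
    have h4 : ∀ ω, K ^ 2 / N * (P ω - (if ω ∈ E then P ω else 0)) ≤ P ω * R ω := by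
      intro ω
      by_cases hω : ω ∈ E
      · rw [if_pos hω, sub_self, mul_zero]
        exact mul_nonneg (hPl.nn ω) (hRn ω)
      · rw [if_neg hω, sub_zero]
        have h5 : K ^ 2 / N ≤ R ω := (not_le.mp hω).le
        calc K ^ 2 / N * P ω = P ω * (K ^ 2 / N) := mul_comm _ _
          _ ≤ P ω * R ω := mul_le_mul_of_nonneg_left h5 (hPl.nn ω)
    have h5 := sum_le_sum fun ω (_ : ω ∈ (univ : Finset (Fin N → G))) => h4 ω
    rw [← mul_sum, sum_sub_distrib, hPl.sum] at h5
    have h6 : K ^ 2 / N * (1 - ∑ ω, (if ω ∈ E then P ω else 0)) ≤ K ^ 2 / N * (1 / 2) := by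
      refine (h5.trans hs).trans (le_of_eq ?_)
      field_simp
    have h7 := le_of_mul_le_mul_left h6 hm
    linarith
  obtain ⟨Q, hQl, hQE, hQd⟩ := h2 (Fin N → G) P E hPl hhalf
  obtain ⟨c, B, hB, hBQ, hBD⟩ := h3 G hG N Q hN hQl
  refine ⟨B, gib K (fun x => (∑ i, g (x + c i)) / N), hB, LemS_gib_law K _,
    LemS_gib_pos K _, ?_, fun t ht => ?_⟩
  · have hc : log (Fintype.card (Fin N → G) : ℝ) = N * log (Fintype.card G) := by
      have : Fintype.card (Fin N → G) = Fintype.card G ^ N := by simp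
      rw [this]
      push_cast
      rw [log_pow]
    have he : ent P = N * ent q := LemS_ent N q hq
    rw [hc] at hBD hQd
    rw [he] at hQd
    unfold Df at hBD ⊢
    nlinarith
  · have h8 := hQE _ (hBQ t ht)
    have h9 : R (fun i => c i + t) ≤ K ^ 2 / N := h8
    rw [hR] at h9
    simp only at h9
    rw [LemS_shift K N g c t] at h9
    exact h9

end Pool.Agent.BR
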