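import Pool.Agent.BR.Pairs

/-!
Lemma T (entropic Balog-Szemeredi-Gowers).
-/

set_option autoImplicit false

namespace Pool.Agent.BR

open Finset Real
open scoped Classical

section kern

variable {Z C : Type} [Fintype Z] [Fintype C]

theorem lemT_kern_pr (M : Z → ℝ) (κ : Z → C → ℝ) {β : Type} (X : C → β) (z : Z) (b : β) :
    pr (fun ω : Z × C => M ω.1 * κ ω.1 ω.2) (fun ω => (ω.1, X ω.2)) (z, b) =
      M z * pr (κ z) X b := by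
  unfold pr
  rw [sum_filter, Fintype.sum_prod_type, sum_eq_single z]
  · rw [mul_sum, sum_filter]
    refine sum_congr rfl fun c _ => ?_
    by_cases h : X c = b <;> simp [h]
  · intro z' _ hz'
    refine sum_eq_zero fun c _ => ?_
    rw [if_neg]
    intro h
    simp only [Prod.mk.injEq] at h
    exact hz' h.1
  · simp

theorem lemT_kern_fst {M : Z → ℝ} {κ : Z → C → ℝ} (hκ : ∀ z, M z ≠ 0 → IsLaw (κ z)) (z : Z) :
    pr (fun ω : Z × C => M ω.1 * κ ω.1 ω.2) (fun ω => ω.1) z = M z := by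
  unfold pr
  rw [sum_filter, Fintype.sum_prod_type, sum_eq_single z]
  · simp only [if_true]
    rw [← mul_sum]
    rcases eq_or_ne (M z) 0 with h0 | h0
    · rw [h0, zero_mul]
    · rw [(hκ z h0).sum, mul_one]
  · intro z' _ hz'
    exact sum_eq_zero fun c _ => if_neg hz'
  · simp

theorem lemT_kern_law {M : Z → ℝ} {κ : Z → C → ℝ} (hM : IsLaw M)
    (hκ : ∀ z, M z ≠ 0 → IsLaw (κ z)) : IsLaw (fun ω : Z × C => M ω.1 * κ ω.1 ω.2) := by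
  refine ⟨fun ω => ?_, ?_⟩
  · rcases eq_or_ne (M ω.1) 0 with h0 | h0
    · rw [h0, zero_mul]
    · exact mul_nonneg (hM.nn _) ((hκ _ h0).nn _)
  · rw [Fintype.sum_prod_type, ← hM.sum]
    refine sum_congr rfl fun z _ => ?_
    show ∑ c, M z * κ z c = M z
    rw [← mul_sum]
    rcases eq_or_ne (M z) 0 with h0 | h0
    · rw [h0, zero_mul]
    · rw [(hκ z h0).sum, mul_one]

theorem lemT_H_kern {M : Z → ℝ} {κ : Z → C → ℝ} (hκ : ∀ z, M z ≠ 0 → IsLaw (κ z))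
    {β : Type} [Fintype β] (X : C → β) :
    H (fun ω : Z × C => M ω.1 * κ ω.1 ω.2) (fun ω => (ω.1, X ω.2)) =
      ent M + ∑ z, M z * ent (pr (κ z) X) := by
  have h := H_fib (P := fun ω : Z × C => M ω.1 * κ ω.1 ω.2) (fun ω => ω.1) (fun ω => X ω.2)
    (fun z => pr (κ z) X) (fun z hz => by
      rw [lemT_kern_fst hκ] at hz
      rw [sum_pr, (hκ z hz).sum]) (fun z b => by
      rw [lemT_kern_fst hκ]
      exact lemT_kern_pr M κ X z b)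
  simp only [lemT_kern_fst hκ] at h
  rw [h]
  congr 1
  rw [H_eq_univ]
  simp only [lemT_kern_fst hκ]
  rfl

theorem lemT_marg_fst {M : Z → ℝ} {κ : Z → C → ℝ} (hκ : ∀ z, M z ≠ 0 → IsLaw (κ z))
    {β : Type} (X : Z → β) :
    H (fun ω : Z × C => M ω.1 * κ ω.1 ω.2) (fun ω => X ω.1) = H M X :=
  (H_push (P := fun ω : Z × C => M ω.1 * κ ω.1 ω.2) (Q := M) (fun ω => ω.1)
    (fun z => (lemT_kern_fst hκ z).symm) X).symm

omit [Fintype C] in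
theorem lemT_marg {C : Type} [Fintype C] {M : Z → ℝ} {ρ : Z → C → ℝ}
    (hρ : ∀ z, M z ≠ 0 → IsLaw (ρ z)) {β : Type} (X : Z × C → β) :
    H (fun ω : Z × (C × C) => M ω.1 * (ρ ω.1 ω.2.1 * ρ ω.1 ω.2.2)) (fun ω => X (ω.1, ω.2.1)) =
      H (fun ω : Z × C => M ω.1 * ρ ω.1 ω.2) X := by
  refine (H_push (P := fun ω : Z × (C × C) => M ω.1 * (ρ ω.1 ω.2.1 * ρ ω.1 ω.2.2))
    (Q := fun ω : Z × C => M ω.1 * ρ ω.1 ω.2) (fun ω => (ω.1, ω.2.1)) ?_ X).symm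
  rintro ⟨z, c⟩
  have h := lemT_kern_pr M (fun z (c : C × C) => ρ z c.1 * ρ z c.2) (fun c => c.1) z c
  refine Eq.trans ?_ h.symm
  show M z * ρ z c = M z * _
  rcases eq_or_ne (M z) 0 with h0 | h0
  · rw [h0, zero_mul, zero_mul]
  · congr 1
    have := congrFun (pr_fst (ρ z) (hρ z h0)) c
    exact this.symm

omit [Fintype C] in
theorem lemT_marg' {C : Type} [Fintype C] {M : Z → ℝ} {ρ : Z → C → ℝ}
    (hρ : ∀ z, M z ≠ 0 → IsLaw (ρ z)) {β : Type} (X : Z × C → β) :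
    H (fun ω : Z × (C × C) => M ω.1 * (ρ ω.1 ω.2.1 * ρ ω.1 ω.2.2)) (fun ω => X (ω.1, ω.2.2)) =
      H (fun ω : Z × C => M ω.1 * ρ ω.1 ω.2) X := by
  refine Eq.trans ?_ (lemT_marg hρ X)
  refine H_equiv (P := fun ω : Z × (C × C) => M ω.1 * (ρ ω.1 ω.2.1 * ρ ω.1 ω.2.2))
    (Q := fun ω : Z × (C × C) => M ω.1 * (ρ ω.1 ω.2.1 * ρ ω.1 ω.2.2))
    (⟨fun ω => (ω.1, (ω.2.2, ω.2.1)), fun ω => (ω.1, (ω.2.2, ω.2.1)),
    fun _ => rfl, fun _ => rfl⟩ : Z × (C × C) ≃ Z × (C × C)) (fun ω => ?_)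
    (fun ω : Z × (C × C) => X (ω.1, ω.2.2))
  show M ω.1 * (ρ ω.1 ω.2.2 * ρ ω.1 ω.2.1) = M ω.1 * (ρ ω.1 ω.2.1 * ρ ω.1 ω.2.2)
  rw [mul_comm (ρ ω.1 ω.2.2)]

theorem lemT_ent_prod {t : Z → ℝ} {u : C → ℝ} (ht : IsLaw t) (hu : IsLaw u) :
    ent (fun ω : Z × C => t ω.1 * u ω.2) = ent t + ent u := by
  rw [ent_eq_H (fun ω : Z × C => t ω.1 * u ω.2), ent_eq_H t, ent_eq_H u]
  exact H_prod (X := fun x : Z => x) (Y := fun x : C => x) ht hu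

end kern

variable {G : Type} [AddCommGroup G] [Fintype G]

/-- the space of a pair of fibres in original coordinates -/
theorem lemT_coord (h2 : ∀ x : G, x + x = 0) {p q : G → ℝ} (hp : IsLaw p) (hq : IsLaw q)
    {α : Type} (X : (G × G) × (G × G) → α) :
    H (fun ω : (G × G) × (G × G) => (conv p q ω.1.1 * conv p q ω.1.2) *
        (fib p q ω.1.1 ω.2.1 * fib p q ω.1.2 ω.2.2)) X =
      H (law4 p q p q) (fun x => X ((x.1 + x.2.1, x.2.2.1 + x.2.2.2), (x.1, x.2.2.1))) := by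
  refine Eq.trans ?_
    (pair_coord h2 hp hq hp hq (fun ω => X ((ω.1.1, ω.2.1), (ω.1.2, ω.2.2))))
  refine H_equiv (P := fun ω : (G × G) × (G × G) => (conv p q ω.1.1 * fib p q ω.1.1 ω.1.2) *
        (conv p q ω.2.1 * fib p q ω.2.1 ω.2.2))
    (Q := fun ω : (G × G) × (G × G) => (conv p q ω.1.1 * conv p q ω.1.2) *
        (fib p q ω.1.1 ω.2.1 * fib p q ω.1.2 ω.2.2))
    (⟨fun ω => ((ω.1.1, ω.2.1), (ω.1.2, ω.2.2)),
    fun ω => ((ω.1.1, ω.2.1), (ω.1.2, ω.2.2)), fun _ => rfl, fun _ => rfl⟩ :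
      (G × G) × (G × G) ≃ (G × G) × (G × G)) (fun ω => ?_) X
  show (conv p q ω.1.1 * conv p q ω.2.1) * (fib p q ω.1.1 ω.1.2 * fib p q ω.2.1 ω.2.2) =
    (conv p q ω.1.1 * fib p q ω.1.1 ω.1.2) * (conv p q ω.2.1 * fib p q ω.2.1 ω.2.2)
  exact mul_mul_mul_comm _ _ _ _

/-- `H(x + x' + z, z + z')` -/
theorem lemT_V (h2 : ∀ x : G, x + x = 0) {p q : G → ℝ} (hp : IsLaw p) (hq : IsLaw q) :
    H (law4 p q p q) (fun x => (x.1 + x.2.2.1 + (x.1 + x.2.1),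
      (x.1 + x.2.1) + (x.2.2.1 + x.2.2.2))) = 2 * ent (conv p q) := by
  rw [perm24]
  have h : H (law4 p q p q) (fun x => (x.1 + x.2.2.1 + (x.1 + x.2.2.2),
      (x.1 + x.2.2.2) + (x.2.2.1 + x.2.1))) =
      H (law4 p q p q) (fun x => (x.1 + x.2.1, x.2.2.1 + x.2.2.2)) := by
    refine H_eq ?_
    rintro ⟨a, b, c, d⟩ ⟨a', b', c', d'⟩
    simp only [Prod.mk.injEq]
    have e : ∀ a b c d : G, (a + d) + (c + b) = (a + b) + (c + d) := by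
      intro a b c d
      rw [add_comm c b, add_add_add_comm, add_comm d c]
    rw [tri' h2 a c d, tri' h2 a' c' d', e a b c d, e a' b' c' d']
    constructor
    · rintro ⟨h1, h3⟩
      refine ⟨?_, h1⟩
      rw [h1] at h3
      exact add_right_cancel h3
    · rintro ⟨h1, h3⟩
      exact ⟨h3, by rw [h1, h3]⟩
  refine Eq.trans h ?_
  rw [H_two h2 hp hq hp hq]
  ring

/-- `H(x + x', z + z')` -/
theorem lemT_W (h2 : ∀ x : G, x + x = 0) {p q : G → ℝ} (hp : IsLaw p) (hq : IsLaw q) :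
    H (law4 p q p q) (fun x => (x.1 + x.2.2.1, (x.1 + x.2.1) + (x.2.2.1 + x.2.2.2))) =
      ent (conv p p) + ent (conv q q) := by
  rw [perm23]
  rw [← H_two h2 hp hp hq hq]
  refine H_eq ?_
  rintro ⟨a, b, c, d⟩ ⟨a', b', c', d'⟩
  simp only [Prod.mk.injEq]
  rw [add_add_add_comm a c b d, add_add_add_comm a' c' b' d']
  constructor
  · rintro ⟨h1, h3⟩
    refine ⟨h1, ?_⟩
    rw [h1] at h3
    exact add_left_cancel h3
  · rintro ⟨h1, h3⟩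
    exact ⟨h1, by rw [h1, h3]⟩

/-- `J` in the order `p q p q` -/
theorem lemT_J (h2 : ∀ x : G, x + x = 0) (p q : G → ℝ) :
    H (law4 p q p q) (fun x => (x.1 + x.2.1, x.2.2.1 + x.2.2.2, x.1 + x.2.2.1)) = J p q := by
  rw [perm23]
  unfold J
  refine H_eq ?_
  rintro ⟨a, b, c, d⟩ ⟨a', b', c', d'⟩
  simp only [Prod.mk.injEq]
  -- a + c, b + d, a + b versus a + b, c + d, a + c
  have e : ∀ a b c d : G, (a + b) + ((a + c) + (b + d)) = c + d := by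
    intro a b c d
    rw [← add_assoc, tri' h2 a b c, tri' h2 b c d]
  have e' : ∀ a b c d : G, (a + c) + ((a + b) + (c + d)) = b + d := by
    intro a b c d
    rw [← add_assoc, tri' h2 a c b, tri' h2 c b d]
  constructor
  · rintro ⟨h1, h3, h4⟩
    exact ⟨h4, by rw [← e a b c d, ← e a' b' c' d', h1, h3, h4], h1⟩
  · rintro ⟨h1, h3, h4⟩
    exact ⟨h4, by rw [← e' a b c d, ← e' a' b' c' d', h1, h3, h4], h1⟩

theorem thm_LemT : St_LemT := by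
  intro G _ _ h2 p q hp hq
  set M : G × G → ℝ := fun ζ => conv p q ζ.1 * conv p q ζ.2 with hMd
  set ρ : G × G → G × G → ℝ := fun ζ a => fib p q ζ.1 a.1 * fib p q ζ.2 a.2 with hρd
  have hm := conv_law hp hq
  have hM : IsLaw M := isLaw_prod hm hm
  have hρ : ∀ ζ, M ζ ≠ 0 → IsLaw (ρ ζ) := fun ζ h =>
    isLaw_prod (fib_law hp hq (left_ne_zero_of_mul h)) (fib_law hp hq (right_ne_zero_of_mul h))
  set κ : G × G → (G × G) × (G × G) → ℝ := fun ζ c => ρ ζ c.1 * ρ ζ c.2 with hκd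
  have hκ : ∀ ζ, M ζ ≠ 0 → IsLaw (κ ζ) := fun ζ h => isLaw_prod (hρ ζ h) (hρ ζ h)
  set P : (G × G) × ((G × G) × (G × G)) → ℝ := fun ω => M ω.1 * κ ω.1 ω.2 with hPd
  have hP : IsLaw P := lemT_kern_law hM hκ
  have hF : ∀ ζ, pr (ρ ζ) (fun a => a.1 + a.2) = conv (fib p q ζ.1) (fib p q ζ.2) :=
    fun ζ => pr_sum h2 _ _
  have hF2 : ∀ ζ, pr (κ ζ) (fun c => (c.1.1 + c.1.2, c.2.1 + c.2.2)) =
      fun u => conv (fib p q ζ.1) (fib p q ζ.2) u.1 * conv (fib p q ζ.1) (fib p q ζ.2) u.2 := by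
    intro ζ
    funext u
    have h := pr_prod (ρ ζ) (ρ ζ) (fun a => a.1 + a.2) (fun a => a.1 + a.2) u.1 u.2
    rw [hF] at h
    exact h
  have hF3 : ∀ ζ, pr (κ ζ) (fun c => (c.1.1 + c.1.2) + (c.2.1 + c.2.2)) =
      conv (conv (fib p q ζ.1) (fib p q ζ.2)) (conv (fib p q ζ.1) (fib p q ζ.2)) := by
    intro ζ
    have h := pr_add h2 (ρ ζ) (ρ ζ) (fun a => a.1 + a.2) (fun a => a.1 + a.2)
    rw [hF] at h
    exact h
  have entM : ent M = 2 * ent (conv p q) := by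
    rw [hMd, lemT_ent_prod hm hm]
    ring
  -- the two kernels
  have E1 : H P (fun ω => (ω.1, (ω.2.1.1 + ω.2.1.2, ω.2.2.1 + ω.2.2.2))) =
      ent M + 2 * ∑ z, ∑ z', conv p q z * conv p q z' * ent (conv (fib p q z) (fib p q z')) := by
    have h := lemT_H_kern (M := M) hκ (fun c => (c.1.1 + c.1.2, c.2.1 + c.2.2))
    refine h.trans ?_
    congr 1
    rw [Fintype.sum_prod_type, mul_sum]
    refine sum_congr rfl fun z _ => ?_
    rw [mul_sum]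
    refine sum_congr rfl fun z' _ => ?_
    rw [hF2]
    show conv p q z * conv p q z' * _ = _
    rcases eq_or_ne (conv p q z * conv p q z') 0 with h0 | h0
    · rw [h0]
      ring
    · have ht := conv_law (fib_law hp hq (left_ne_zero_of_mul h0))
        (fib_law hp hq (right_ne_zero_of_mul h0))
      rw [lemT_ent_prod ht ht]
      ring
  have E2 : H P (fun ω => (ω.1, (ω.2.1.1 + ω.2.1.2) + (ω.2.2.1 + ω.2.2.2))) =
      ent M + ∑ z, ∑ z', conv p q z * conv p q z' *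
        ent (conv (conv (fib p q z) (fib p q z')) (conv (fib p q z) (fib p q z'))) := by
    have h := lemT_H_kern (M := M) hκ (fun c => (c.1.1 + c.1.2) + (c.2.1 + c.2.2))
    refine h.trans ?_
    congr 1
    rw [Fintype.sum_prod_type]
    refine sum_congr rfl fun z _ => sum_congr rfl fun z' _ => ?_
    rw [hF3]
  have e3 := thm_FibConv G h2 p q p q hp hq hp hq
  rw [lemT_J h2 p q] at e3
  rw [e3] at E1
  -- entropies of the basic variables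
  have eS : H P (fun ω => ω.1.1 + ω.1.2) = h4 p q := by
    have h := lemT_marg_fst (M := M) hκ (fun ζ => ζ.1 + ζ.2)
    refine h.trans ?_
    exact H_add' h2 _ _
  have eZ : H P (fun ω => ω.1) = ent M := by
    have h := lemT_marg_fst (M := M) hκ (fun ζ => ζ)
    refine h.trans ?_
    rw [← ent_eq_H]
  have eV1 : H P (fun ω => (ω.2.1.1 + ω.2.1.2 + ω.1.1, ω.1.1 + ω.1.2)) =
      2 * ent (conv p q) := by
    have h := lemT_marg hρ (fun ω : (G × G) × (G × G) =>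
      (ω.2.1 + ω.2.2 + ω.1.1, ω.1.1 + ω.1.2))
    refine h.trans ?_
    rw [← lemT_V h2 hp hq]
    exact lemT_coord h2 hp hq _
  have eV2 : H P (fun ω => (ω.2.2.1 + ω.2.2.2 + ω.1.1, ω.1.1 + ω.1.2)) =
      2 * ent (conv p q) := by
    have h := lemT_marg' hρ (fun ω : (G × G) × (G × G) =>
      (ω.2.1 + ω.2.2 + ω.1.1, ω.1.1 + ω.1.2))
    refine h.trans ?_
    rw [← lemT_V h2 hp hq]
    exact lemT_coord h2 hp hq _
  have eW1 : H P (fun ω => (ω.2.1.1 + ω.2.1.2, ω.1.1 + ω.1.2)) =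
      ent (conv p p) + ent (conv q q) := by
    have h := lemT_marg hρ (fun ω : (G × G) × (G × G) => (ω.2.1 + ω.2.2, ω.1.1 + ω.1.2))
    refine h.trans ?_
    rw [← lemT_W h2 hp hq]
    exact lemT_coord h2 hp hq _
  have eW2 : H P (fun ω => (ω.2.2.1 + ω.2.2.2, ω.1.1 + ω.1.2)) =
      ent (conv p p) + ent (conv q q) := by
    have h := lemT_marg' hρ (fun ω : (G × G) × (G × G) => (ω.2.1 + ω.2.2, ω.1.1 + ω.1.2))
    refine h.trans ?_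
    rw [← lemT_W h2 hp hq]
    exact lemT_coord h2 hp hq _
  -- submodularity
  have s1 := H_submod hP
    (U := fun ω => (ω.2.1.1 + ω.2.1.2 + ω.1.1, ω.2.2.1 + ω.2.2.2, ω.1.1 + ω.1.2))
    (V := fun ω => (ω.2.2.1 + ω.2.2.2 + ω.1.1, ω.2.1.1 + ω.2.1.2, ω.1.1 + ω.1.2))
    (Z := fun ω => ((ω.2.1.1 + ω.2.1.2) + (ω.2.2.1 + ω.2.2.2) + ω.1.1, ω.1.1 + ω.1.2)) (by
      rintro ⟨⟨z, z'⟩, ⟨x, x'⟩, y, y'⟩ ⟨⟨w, w'⟩, ⟨u, u'⟩, v, v'⟩ h
      simp only [Prod.mk.injEq] at h ⊢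
      obtain ⟨h1, h3, h4⟩ := h
      exact ⟨by rw [add_right_comm, h1, h3, add_right_comm], h4⟩) (by
      rintro ⟨⟨z, z'⟩, ⟨x, x'⟩, y, y'⟩ ⟨⟨w, w'⟩, ⟨u, u'⟩, v, v'⟩ h
      simp only [Prod.mk.injEq] at h ⊢
      obtain ⟨h1, h3, h4⟩ := h
      exact ⟨by rw [add_assoc (x + x'), h1, h3, add_assoc (u + u')], h4⟩)
  have s2 := H_submod hP
    (U := fun ω => (ω.2.1.1 + ω.2.1.2 + ω.1.1, ω.1.1 + ω.1.2))
    (V := fun ω => (ω.2.2.1 + ω.2.2.2, ω.1.1 + ω.1.2))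
    (Z := fun ω => ω.1.1 + ω.1.2) (fun ω ω' h => (Prod.mk.inj h).2)
    (fun ω ω' h => (Prod.mk.inj h).2)
  have s3 := H_submod hP
    (U := fun ω => (ω.2.2.1 + ω.2.2.2 + ω.1.1, ω.1.1 + ω.1.2))
    (V := fun ω => (ω.2.1.1 + ω.2.1.2, ω.1.1 + ω.1.2))
    (Z := fun ω => ω.1.1 + ω.1.2) (fun ω ω' h => (Prod.mk.inj h).2)
    (fun ω ω' h => (Prod.mk.inj h).2)
  have s4 := H_submod hP (U := fun ω => ω.1)
    (V := fun ω => ((ω.2.1.1 + ω.2.1.2) + (ω.2.2.1 + ω.2.2.2) + ω.1.1, ω.1.1 + ω.1.2))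
    (Z := fun ω => ω.1.1 + ω.1.2) (fun ω ω' h => by
      show ω.1.1 + ω.1.2 = ω'.1.1 + ω'.1.2
      rw [h]) (fun ω ω' h => (Prod.mk.inj h).2)
  have l1 : H P (fun ω => ((ω.2.1.1 + ω.2.1.2 + ω.1.1, ω.2.2.1 + ω.2.2.2, ω.1.1 + ω.1.2),
      (ω.2.2.1 + ω.2.2.2 + ω.1.1, ω.2.1.1 + ω.2.1.2, ω.1.1 + ω.1.2))) =
      H P (fun ω => (ω.1, (ω.2.1.1 + ω.2.1.2, ω.2.2.1 + ω.2.2.2))) := by
    refine H_eq ?_
    rintro ⟨⟨z, z'⟩, ⟨x, x'⟩, y, y'⟩ ⟨⟨w, w'⟩, ⟨u, u'⟩, v, v'⟩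
    simp only [Prod.mk.injEq]
    constructor
    · rintro ⟨⟨h1, h3, h4⟩, h5, h6, -⟩
      rw [h6] at h1
      have h7 := add_left_cancel h1
      rw [h7] at h4
      exact ⟨⟨h7, add_left_cancel h4⟩, h6, h3⟩
    · rintro ⟨⟨h1, h3⟩, h4, h5⟩
      exact ⟨⟨by rw [h4, h1], h5, by rw [h1, h3]⟩, by rw [h5, h1], h4, by rw [h1, h3]⟩
  have l2 : H P (fun ω => ((ω.2.1.1 + ω.2.1.2 + ω.1.1, ω.1.1 + ω.1.2),
      (ω.2.2.1 + ω.2.2.2, ω.1.1 + ω.1.2))) =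
      H P (fun ω => (ω.2.1.1 + ω.2.1.2 + ω.1.1, ω.2.2.1 + ω.2.2.2, ω.1.1 + ω.1.2)) := by
    refine H_eq ?_
    intro ω ω'
    simp only [Prod.mk.injEq]
    constructor
    · rintro ⟨⟨h1, h3⟩, h4, -⟩
      exact ⟨h1, h4, h3⟩
    · rintro ⟨h1, h3, h4⟩
      exact ⟨⟨h1, h4⟩, h3, h4⟩
  have l3 : H P (fun ω => ((ω.2.2.1 + ω.2.2.2 + ω.1.1, ω.1.1 + ω.1.2),
      (ω.2.1.1 + ω.2.1.2, ω.1.1 + ω.1.2))) =
      H P (fun ω => (ω.2.2.1 + ω.2.2.2 + ω.1.1, ω.2.1.1 + ω.2.1.2, ω.1.1 + ω.1.2)) := by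
    refine H_eq ?_
    intro ω ω'
    simp only [Prod.mk.injEq]
    constructor
    · rintro ⟨⟨h1, h3⟩, h4, -⟩
      exact ⟨h1, h4, h3⟩
    · rintro ⟨h1, h3, h4⟩
      exact ⟨⟨h1, h4⟩, h3, h4⟩
  have l4 : H P (fun ω => (ω.1, ((ω.2.1.1 + ω.2.1.2) + (ω.2.2.1 + ω.2.2.2) + ω.1.1,
      ω.1.1 + ω.1.2))) =
      H P (fun ω => (ω.1, (ω.2.1.1 + ω.2.1.2) + (ω.2.2.1 + ω.2.2.2))) := by
    refine H_eq ?_
    rintro ⟨⟨z, z'⟩, a⟩ ⟨⟨w, w'⟩, b⟩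
    simp only [Prod.mk.injEq]
    constructor
    · rintro ⟨⟨h1, h3⟩, h4, -⟩
      rw [h1] at h4
      exact ⟨⟨h1, h3⟩, add_right_cancel h4⟩
    · rintro ⟨⟨h1, h3⟩, h4⟩
      exact ⟨⟨h1, h3⟩, by rw [h4, h1], by rw [h1, h3]⟩
  rw [l1, E1] at s1
  rw [l2, eS, eV1, eW2] at s2
  rw [l3, eS, eV2, eW1] at s3
  rw [l4, E2, eS, eZ] at s4
  rw [entM] at s1 s4
  linarith

end Pool.Agent.BR
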