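import Pool.Agent.BR.St

/-!
The real inequalities of section 4 of the paper: the tangent inequality `St_Tan` (weighted
AM-GM) and the numerical heart `St_Num` of Theorem B.
-/

set_option autoImplicit false

namespace Pool.Agent.BR

open Finset Real
open scoped Classical

/-- Tangent inequality in normalised form. -/
private lemma Num_tan_one (be x y : ℝ) (gam : ℕ) (h0 : 0 < be) (h1 : be ≤ 1) (h3 : 3 ≤ gam)
    (hx : 0 < x) (hy : 0 ≤ y) :
    (1 + be - gam) * x + gam * y - be ≤ x ^ (1 + be - (gam : ℝ)) * y ^ gam := by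
  have hg : (3 : ℝ) ≤ (gam : ℝ) := by exact_mod_cast h3
  have hgp : (0 : ℝ) < (gam : ℝ) := by linarith
  have hgn : gam ≠ 0 := by omega
  have key := Real.geom_mean_le_arith_mean3_weighted (w₁ := 1 / (gam : ℝ))
    (w₂ := ((gam : ℝ) - 1 - be) / gam) (w₃ := be / gam)
    (p₁ := x ^ (1 + be - (gam : ℝ)) * y ^ gam) (p₂ := x) (p₃ := 1)
    (by positivity) (div_nonneg (by linarith) hgp.le) (by positivity)
    (mul_nonneg (Real.rpow_nonneg hx.le _) (pow_nonneg hy _)) hx.le zero_le_one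
    (by field_simp; ring)
  have e1 : (x ^ (1 + be - (gam : ℝ)) * y ^ gam) ^ (1 / (gam : ℝ)) *
      x ^ (((gam : ℝ) - 1 - be) / gam) * (1 : ℝ) ^ (be / (gam : ℝ)) = y := by
    rw [Real.mul_rpow (Real.rpow_nonneg hx.le _) (pow_nonneg hy _), ← Real.rpow_mul hx.le,
      ← Real.rpow_natCast y gam, ← Real.rpow_mul hy, Real.one_rpow, mul_one]
    have e2 : (gam : ℝ) * (1 / (gam : ℝ)) = 1 := by field_simp
    rw [e2, Real.rpow_one, mul_right_comm, ← Real.rpow_add hx]
    have e3 : (1 + be - (gam : ℝ)) * (1 / (gam : ℝ)) + ((gam : ℝ) - 1 - be) / gam = 0 := by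
      field_simp; ring
    rw [e3, Real.rpow_zero, one_mul]
  rw [e1] at key
  have key2 := mul_le_mul_of_nonneg_left key hgp.le
  have e4 : (gam : ℝ) * (1 / (gam : ℝ) * (x ^ (1 + be - (gam : ℝ)) * y ^ gam) +
      ((gam : ℝ) - 1 - be) / gam * x + be / gam * 1) =
      x ^ (1 + be - (gam : ℝ)) * y ^ gam + ((gam : ℝ) - 1 - be) * x + be := by
    field_simp
  rw [e4] at key2
  linarith

theorem thm_Tan : St_Tan := by
  intro be a s a0 s0 gam h0 h1 h3 ha hs ha0 hs0
  constructor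
  · have hx : 0 < a / a0 := div_pos ha ha0
    have hy : 0 ≤ s / s0 := div_nonneg hs hs0.le
    have key := Num_tan_one be (a / a0) (s / s0) gam h0 h1 h3 hx hy
    have hc : 0 ≤ a0 ^ (1 + be - (gam : ℝ)) * s0 ^ gam :=
      mul_nonneg (Real.rpow_nonneg ha0.le _) (pow_nonneg hs0.le _)
    have key2 := mul_le_mul_of_nonneg_left key hc
    have e1 : a0 ^ (1 + be - (gam : ℝ)) * s0 ^ gam *
        ((a / a0) ^ (1 + be - (gam : ℝ)) * (s / s0) ^ gam) =
        a ^ (1 + be - (gam : ℝ)) * s ^ gam := by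
      rw [Real.div_rpow ha.le ha0.le, div_pow]
      have p1 : a0 ^ (1 + be - (gam : ℝ)) ≠ 0 := (Real.rpow_pos_of_pos ha0 _).ne'
      have p2 : s0 ^ gam ≠ 0 := (pow_pos hs0 _).ne'
      field_simp
    rw [e1] at key2
    exact key2
  · have hx : 0 < a / a0 := div_pos ha ha0
    have key := one_add_mul_self_le_rpow_one_add (s := a / a0 - 1) (by linarith)
      (p := 1 + be) (by linarith)
    have e0 : (1 : ℝ) + (a / a0 - 1) = a / a0 := by ring
    rw [e0] at key
    have key2 := mul_le_mul_of_nonneg_left key (Real.rpow_nonneg ha0.le (1 + be))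
    have e1 : a0 ^ (1 + be) * (a / a0) ^ (1 + be) = a ^ (1 + be) := by
      rw [Real.div_rpow ha.le ha0.le]
      have p1 : a0 ^ (1 + be) ≠ 0 := (Real.rpow_pos_of_pos ha0 _).ne'
      field_simp
    rw [e1] at key2
    have e2 : a0 ^ (1 + be) * (1 + (1 + be) * (a / a0 - 1)) =
        a0 ^ (1 + be) * ((1 + be) * (a / a0) - be) := by ring
    rw [e2] at key2
    exact key2

/-! ### The numerical heart -/

/-- `c = exp (1 / 400)`, its power. -/
private lemma Num_c_pow : (exp (1 / 400 : ℝ)) ^ 400 = exp 1 := by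
  rw [← Real.exp_nat_mul]
  norm_num

private lemma Num_c_le : exp (1 / 400 : ℝ) ≤ 400 / 399 := by
  have h := Real.add_one_le_exp (-(1 / 400 : ℝ))
  rw [Real.exp_neg] at h
  have hp : 0 < exp (1 / 400 : ℝ) := Real.exp_pos _
  have h2 : (399 / 400 : ℝ) ≤ (exp (1 / 400 : ℝ))⁻¹ := by linarith
  have h3 := mul_le_mul_of_nonneg_right h2 hp.le
  rw [inv_mul_cancel₀ hp.ne'] at h3
  linarith

/-- `x ^ ((399 - be) / 400)` raised to the power `400`. -/
private lemma Num_root (be x : ℝ) (hx : 0 ≤ x) :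
    (x ^ ((400 - (1 + be)) / 400)) ^ 400 = x ^ (400 - (1 + be)) := by
  rw [← Real.rpow_natCast, ← Real.rpow_mul hx]
  congr 1
  push_cast
  ring

private lemma Num_A (be x Y : ℝ) (h0 : 0 < be) (h1 : be ≤ 1 / 5) (hx : 0 < x)
    (h : Y ^ 400 ≤ exp 1 * x ^ (400 - (1 + be))) :
    Y ≤ exp (1 / 400 : ℝ) * (x + 3 / 1000) := by
  have key := Real.geom_mean_le_arith_mean2_weighted (w₁ := (400 - (1 + be)) / 400)
    (w₂ := (1 + be) / 400) (p₁ := x) (p₂ := 1) (by linarith) (by linarith) hx.le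
    zero_le_one (by ring)
  rw [Real.one_rpow, mul_one, mul_one] at key
  have h2 : x ^ ((400 - (1 + be)) / 400) ≤ x + 3 / 1000 := by nlinarith
  have h3 : 0 ≤ x ^ ((400 - (1 + be)) / 400) := Real.rpow_nonneg hx.le _
  have h4 : (exp (1 / 400 : ℝ) * x ^ ((400 - (1 + be)) / 400)) ^ 400 =
      exp 1 * x ^ (400 - (1 + be)) := by
    rw [mul_pow, Num_c_pow, Num_root be x hx.le]
  rw [← h4] at h
  have h5 : Y ≤ exp (1 / 400 : ℝ) * x ^ ((400 - (1 + be)) / 400) :=
    le_of_pow_le_pow_left₀ (by norm_num) (mul_nonneg (Real.exp_pos _).le h3) h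
  exact h5.trans (mul_le_mul_of_nonneg_left h2 (Real.exp_pos _).le)

private lemma Num_B (be x Y : ℝ) (h0 : 0 < be) (hx : 1 ≤ x)
    (h : Y ^ 400 ≤ exp 1 * x ^ (400 - (1 + be))) :
    Y ≤ exp (1 / 400 : ℝ) * x := by
  have hx0 : 0 ≤ x := by linarith
  have h2 : x ^ ((400 - (1 + be)) / 400) ≤ x := by
    have := Real.rpow_le_rpow_of_exponent_le hx
      (show (400 - (1 + be)) / 400 ≤ 1 by linarith)
    rwa [Real.rpow_one] at this
  have h3 : 0 ≤ x ^ ((400 - (1 + be)) / 400) := Real.rpow_nonneg hx0 _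
  have h4 : (exp (1 / 400 : ℝ) * x ^ ((400 - (1 + be)) / 400)) ^ 400 =
      exp 1 * x ^ (400 - (1 + be)) := by
    rw [mul_pow, Num_c_pow, Num_root be x hx0]
  rw [← h4] at h
  have h5 : Y ≤ exp (1 / 400 : ℝ) * x ^ ((400 - (1 + be)) / 400) :=
    le_of_pow_le_pow_left₀ (by norm_num) (mul_nonneg (Real.exp_pos _).le h3) h
  exact h5.trans (mul_le_mul_of_nonneg_left h2 (Real.exp_pos _).le)

/-- Normalisation of the hypotheses of `St_Num`. -/
private lemma Num_norm (be a s u v : ℝ) (ha : 0 < a) (hs : 0 < s) (hu : 0 < u)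
    (h : u ^ (1 + be - 400) * v ^ 400 ≤ exp 1 * (a ^ (1 + be - 400) * s ^ 400)) :
    (v / s) ^ 400 ≤ exp 1 * (u / a) ^ (400 - (1 + be)) := by
  have e1 : (u / a) ^ (400 - (1 + be)) =
      (u ^ (1 + be - 400))⁻¹ * a ^ (1 + be - 400) := by
    have e2 : (400 - (1 + be)) = -(1 + be - 400) := by ring
    rw [Real.div_rpow hu.le ha.le, e2, Real.rpow_neg hu.le, Real.rpow_neg ha.le]
    rw [div_inv_eq_mul]
  have hu' : 0 < u ^ (1 + be - 400) := Real.rpow_pos_of_pos hu _
  have hs' : 0 < s ^ 400 := pow_pos hs _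
  rw [e1, div_pow, div_le_iff₀ hs']
  have h2 := mul_le_mul_of_nonneg_left h (inv_nonneg.mpr hu'.le)
  rw [← mul_assoc, inv_mul_cancel₀ hu'.ne', one_mul] at h2
  calc v ^ 400 ≤ (u ^ (1 + be - 400))⁻¹ * (exp 1 * (a ^ (1 + be - 400) * s ^ 400)) := h2
    _ = exp 1 * ((u ^ (1 + be - 400))⁻¹ * a ^ (1 + be - 400)) * s ^ 400 := by ring

theorem thm_Num : St_Num := by
  intro be a s sg sC s2 mu h0 h1 ha hsa hsle hsg0 hsgs hmu0 hmu1 hsC hs20 hS hC hS2 hmu hC2 hT
  have hs : 0 < s := lt_of_lt_of_le (mul_pos h0 ha) hsa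
  have hsC0 : 0 < sC := lt_of_lt_of_le hs hsC
  set c : ℝ := exp (1 / 400 : ℝ) with hc
  have hc0 : 0 < c := Real.exp_pos _
  have hc1 : c ≤ 400 / 399 := Num_c_le
  have hlam0 : 0 < s / a := div_pos hs ha
  have hlam1 : s / a ≤ 1 := (div_le_one ha).mpr hsle
  -- (S)
  have kS : sg / s ≤ c * (s / a + 3 / 1000) :=
    Num_A be (s / a) (sg / s) h0 h1 hlam0
      (Num_norm be a s s sg ha hs hs hS)
  -- (C)
  have kC : sC / s ≤ c * (2 - s / a) := by
    have hu : 0 < 2 * a - s := by linarith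
    have e : (2 * a - s) / a = 2 - s / a := by field_simp
    have := Num_norm be a s (2 * a - s) sC ha hs hu hC
    rw [e] at this
    exact Num_B be (2 - s / a) (sC / s) h0 (by linarith) this
  -- (S2)
  have kS2 : sg / s ≤ c * (mu + 3 / 1000) := by
    rcases hmu0.eq_or_lt with hm | hm
    · rw [hmu hm.symm, zero_div]
      exact mul_nonneg hc0.le (by linarith)
    · have e : mu * a / a = mu := by field_simp
      have := Num_norm be a s (mu * a) sg ha hs (mul_pos hm ha) (hS2 hm)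
      rw [e] at this
      exact Num_A be mu (sg / s) h0 h1 hm this
  -- (C2)
  have kC2 : s2 / s ≤ c * (2 - mu) := by
    have e : (2 - mu) * a / a = 2 - mu := by field_simp
    have := Num_norm be a s ((2 - mu) * a) s2 ha hs (mul_pos (by linarith) ha) hC2
    rw [e] at this
    exact Num_B be (2 - mu) (s2 / s) h0 (by linarith) this
  -- the two mutual informations
  have hI1 : sg + sC - 2 * s ≤ 81 / 10000 * s := by
    have e1 : sg + sC = (sg / s + sC / s) * s := by field_simp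
    have e2 : sg / s + sC / s ≤ 2 + 81 / 10000 := by nlinarith
    nlinarith
  have hI2 : sg + s2 - 2 * s ≤ 81 / 10000 * s := by
    have e1 : sg + s2 = (sg / s + s2 / s) * s := by field_simp
    have e2 : sg / s + s2 / s ≤ 2 + 81 / 10000 := by nlinarith
    nlinarith
  -- (T)
  set sT : ℝ := sC - (sg + sC - 2 * s) - 2 * (sg + s2 - 2 * s) with hsT
  have hsT1 : 9757 / 10000 * sC ≤ sT := by
    have : sT ≥ sC - 243 / 10000 * s := by rw [hsT]; linarith
    nlinarith
  have hsT0 : 0 < sT := lt_of_lt_of_le (by positivity) hsT1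
  have kT := Num_norm be a s sC sT ha hs hsC0 (hT sT hsT0 rfl)
  have hr : 1 ≤ sC / s := (one_le_div hs).mpr hsC
  have hr0 : 0 < sC / s := by linarith
  -- divide by `(sC / s) ^ (399 - be)`
  have kT2 : (9757 / 10000 : ℝ) ^ 400 ≤ exp 1 * (s / a) ^ (400 - (1 + be)) := by
    have e1 : sC / a = sC / s * (s / a) := by field_simp
    rw [e1, Real.mul_rpow hr0.le hlam0.le] at kT
    have e2 : (9757 / 10000 * (sC / s)) ^ 400 ≤ (sT / s) ^ 400 := by
      apply pow_le_pow_left₀ (by positivity)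
      rw [le_div_iff₀ hs]
      have : 9757 / 10000 * (sC / s) * s = 9757 / 10000 * sC := by field_simp
      rw [this]; exact hsT1
    rw [mul_pow] at e2
    have e3 : (sC / s) ^ (400 - (1 + be)) ≤ (sC / s) ^ 400 := by
      have := Real.rpow_le_rpow_of_exponent_le hr
        (show 400 - (1 + be) ≤ ((400 : ℕ) : ℝ) by push_cast; linarith)
      rwa [Real.rpow_natCast] at this
    have e4 : 0 < (sC / s) ^ (400 - (1 + be)) := Real.rpow_pos_of_pos hr0 _
    have e5 : (9757 / 10000 : ℝ) ^ 400 * (sC / s) ^ (400 - (1 + be)) ≤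
        (9757 / 10000 : ℝ) ^ 400 * (sC / s) ^ 400 :=
      mul_le_mul_of_nonneg_left e3 (by positivity)
    have e6 := (e5.trans e2).trans kT
    have e7 : exp 1 * ((sC / s) ^ (400 - (1 + be)) * (s / a) ^ (400 - (1 + be))) =
        (exp 1 * (s / a) ^ (400 - (1 + be))) * (sC / s) ^ (400 - (1 + be)) := by ring
    rw [e7] at e6
    exact le_of_mul_le_mul_right e6 e4
  have kT3 := Num_A be (s / a) (9757 / 10000) h0 h1 hlam0 kT2
  rw [← hc] at kT3
  have hlam : 23 / 24 ≤ s / a := by nlinarith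
  rw [le_div_iff₀ ha] at hlam
  linarith

end Pool.Agent.BR
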