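import Pool.Agent.BR.St

/-!
Corollary OV of the paper: the one variable step.
-/

set_option autoImplicit false

namespace Pool.Agent.BR

open Finset Real
open scoped Classical

variable {G : Type} [AddCommGroup G] [Fintype G]

theorem gib_pos (K : ℝ) (s : G → ℝ) (x : G) : 0 < gib K s x := by
  unfold gib
  apply div_pos (exp_pos _)
  exact sum_pos (fun y _ => exp_pos _) ⟨0, mem_univ _⟩

theorem gib_law (K : ℝ) (s : G → ℝ) : IsLaw (gib K s) := by
  refine ⟨fun x => (gib_pos K s x).le, ?_⟩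
  unfold gib
  rw [← sum_div]
  exact div_self (sum_pos (fun y _ => exp_pos _) ⟨0, mem_univ _⟩).ne'

theorem fw_law_of_pos {W : AddSubgroup G} {B : G → ℝ} (hB : ∀ x, 0 ≤ B x) {b : G}
    (hm : 0 < ∑ w : W, B (b + w)) : IsLaw (fw W B b) := by
  refine ⟨fun w => div_nonneg (hB _) hm.le, ?_⟩
  unfold fw
  rw [← sum_div]
  exact div_self hm.ne'

theorem thm_OV (h1 : St_LemS) (h2 : St_Core) (h3 : St_Inv) (h4 : St_ThmB) (h5 : St_DW) :
    St_OV := by
  intro G _ _ hG be n0 K N g q hb0 hb1 hn hK hN hg0 hg1 hq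
  obtain ⟨B, ps, hB, hps, hpos, hD, hKL⟩ := h1 G hG K N g q hK hN hg0 hg1 hq
  obtain ⟨W, b, hm, hsp, hcod⟩ := h2 G hG B hB
  set ph := gib K (av g q) with hphd
  have hph : IsLaw ph := gib_law _ _
  have hW : IsLaw (fw W B b) := fw_law_of_pos hB.nn hm
  have hinv := h3 G hG W b (fw W B b) ph ps (K ^ 2 / N) hW hph hps hpos (fun w hw => by
    apply hKL
    intro h
    apply hw
    unfold fw
    rw [h, zero_div])
  refine ⟨W, by linarith, ?_⟩
  have hGW : ∀ x : W, x + x = 0 := by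
    intro x
    apply Subtype.ext
    exact hG _
  have hfw : ∀ x, IsLaw (fw W ph x) := fun x =>
    (h5 G W W ph hph).1 x (gib_pos _ _ x).ne'
  have hcW : log (Fintype.card W) ≤ n0 := by
    refine le_trans ?_ hn
    apply log_le_log
    · exact_mod_cast Fintype.card_pos_iff.2 ⟨(0 : W)⟩
    · exact_mod_cast Fintype.card_le_of_injective (fun w : W => (w : G)) Subtype.val_injective
  have hcW0 : 0 ≤ log (Fintype.card W : ℝ) := log_card_nonneg
  have hx : ∀ x, 1 / 3 * be ^ 400 * Df (fw W ph x) ^ (1 + be) ≤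
      n0 ^ be * Ib (fw W B b) (fw W ph x) := by
    intro x
    refine (h4 W hGW be (fw W B b) (fw W ph x) hb0 hb1 hW hsp (hfw x)).trans ?_
    refine mul_le_mul_of_nonneg_right ?_ (Ib_nonneg hGW hW (hfw x))
    exact rpow_le_rpow hcW0 hcW hb0.le
  have hJ : DW W ph ^ (1 + be) ≤ ∑ x, ph x * Df (fw W ph x) ^ (1 + be) := by
    unfold DW
    exact rpow_arith_mean_le_arith_mean_rpow univ ph (fun x => Df (fw W ph x))
      (fun x _ => hph.nn x) hph.sum (fun x _ => Df_nonneg (hfw x)) (by linarith)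
  have hc0 : 0 ≤ 1 / 3 * be ^ 400 := by positivity
  have hn0 : 0 ≤ n0 ^ be := rpow_nonneg (hcW0.trans hcW) _
  calc 1 / 3 * be ^ 400 * DW W ph ^ (1 + be) ≤
      1 / 3 * be ^ 400 * ∑ x, ph x * Df (fw W ph x) ^ (1 + be) :=
        mul_le_mul_of_nonneg_left hJ hc0
    _ = ∑ x, ph x * (1 / 3 * be ^ 400 * Df (fw W ph x) ^ (1 + be)) := by
        rw [mul_sum]
        refine sum_congr rfl fun x _ => by ring
    _ ≤ ∑ x, ph x * (n0 ^ be * Ib (fw W B b) (fw W ph x)) :=
        sum_le_sum fun x _ => mul_le_mul_of_nonneg_left (hx x) (hph.nn x)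
    _ = n0 ^ be * ∑ x, ph x * Ib (fw W B b) (fw W ph x) := by
        rw [mul_sum]
        refine sum_congr rfl fun x _ => by ring
    _ ≤ n0 ^ be * (K ^ 2 / N) := mul_le_mul_of_nonneg_left hinv hn0

end Pool.Agent.BR
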