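import Pool.Agent.BR.Pairs

/-!
The pair `T`.
-/

set_option autoImplicit false

namespace Pool.Agent.BR

open Finset Real
open scoped Classical

theorem thm_PairT (h : St_LemT) : St_PairT := by
  intro G _ _ h2 B p q hB hp hq c₀ c₁ c₂ c₃ hc2 hc3 hPI
  have hm := conv_law hp hq
  set m := conv p q with hmd
  set t : G → G → G → ℝ := fun z z' => conv (fib p q z) (fib p q z') with htd
  have h1 : 0 ≤ ∑ z, ∑ z', m z * m z' * (c₀ + c₁ * (ent (t z z') + ent (t z z')) +
      c₂ * ent (conv (t z z') (t z z')) + c₃ * (Ib B (fib p q z) + Ib B (fib p q z))) := by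
    refine sum_nonneg fun z _ => sum_nonneg fun z' _ => ?_
    rcases eq_or_ne (m z) 0 with h0 | h0
    · rw [h0, zero_mul, zero_mul]
    rcases eq_or_ne (m z') 0 with h0' | h0'
    · rw [h0', mul_zero, zero_mul]
    refine mul_nonneg (mul_nonneg (hm.nn z) (hm.nn z')) ?_
    have hz := fib_law hp hq h0
    have hz' := fib_law hp hq h0'
    have ht := conv_law hz hz'
    have h3 := hPI (t z z') (t z z') ht ht
    have h4 := mul_le_mul_of_nonneg_left (Ib_conv_le h2 hB hz hz') hc3
    change c₃ * Ib B (t z z') ≤ _ at h4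
    linarith
  have e : ∀ z z', m z * m z' * (c₀ + c₁ * (ent (t z z') + ent (t z z')) +
      c₂ * ent (conv (t z z') (t z z')) + c₃ * (Ib B (fib p q z) + Ib B (fib p q z))) =
      c₀ * m z * m z' + (2 * c₁) * (m z * m z' * ent (t z z')) +
      c₂ * (m z * m z' * ent (conv (t z z') (t z z'))) +
      (2 * c₃) * (m z * Ib B (fib p q z)) * m z' := by
    intro z z'
    ring
  simp only [e, sum_add_distrib, ← mul_sum, hm.sum, mul_one] at h1
  have e3 := thm_FibConv G h2 p q p q hp hq hp hq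
  have eJ : H (law4 p q p q) (fun x => (x.1 + x.2.1, x.2.2.1 + x.2.2.2, x.1 + x.2.2.1)) =
      J p q := by
    rw [perm23]
    unfold J
    refine H_eq ?_
    rintro ⟨a, b, c, d⟩ ⟨a', b', c', d'⟩
    simp only [Prod.mk.injEq]
    have f : ∀ a b c d : G, (a + b) + ((a + c) + (b + d)) = c + d := by
      intro a b c d
      rw [← add_assoc, tri' h2 a b c, tri' h2 b c d]
    have f' : ∀ a b c d : G, (a + c) + ((a + b) + (c + d)) = b + d := by
      intro a b c d
      rw [← add_assoc, tri' h2 a c b, tri' h2 c b d]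
    constructor
    · rintro ⟨h1, h3, h4⟩
      exact ⟨h4, by rw [← f a b c d, ← f a' b' c' d', h1, h3, h4], h1⟩
    · rintro ⟨h1, h3, h4⟩
      exact ⟨h4, by rw [← f' a b c d, ← f' a' b' c' d', h1, h3, h4], h1⟩
  rw [eJ] at e3
  have e4 := mul_le_mul_of_nonneg_left (h G h2 p q hp hq) hc2
  obtain ⟨i1, i2⟩ := thm_FibI G h2 B p q hB hp hq
  obtain ⟨-, i4⟩ := thm_FibI G h2 B q p hB hq hp
  have i5 : ∀ z, Ib B (fib q p z) = Ib B (fib p q z) := by
    intro z
    rw [fib_comm h2, Ib_sh h2]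
  simp only [i5] at i4
  rw [conv_comm h2 q p] at i4
  have i6 : 2 * ∑ z, conv p q z * Ib B (fib p q z) ≤ min (2 * (Ib B p + Ib B q))
      (Ib B p + Ib B q + 2 * ent (conv p q) - ent p - ent q) :=
    le_min (by linarith) (by linarith)
  have i7 := mul_le_mul_of_nonneg_left i6 hc3
  change ∑ z, ∑ z', m z * m z' * ent (t z z') = _ at e3
  rw [e3] at h1
  change c₂ * ∑ z, ∑ z', m z * m z' * ent (conv (t z z') (t z z')) ≤ _ at e4
  linarith

end Pool.Agent.BR
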