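import Pool.Agent.BR.St

/-!
BR: total variation (the end and the quotients).
-/

set_option autoImplicit false

namespace Pool.Agent.BR

open Finset Real
open scoped Classical

/-- total variation distance to the uniform law (Hellinger) -/
theorem Quot_tv {V : Type} [Fintype V] [Nonempty V] (r F : V → ℝ) (hr : IsLaw r)
    (hF0 : ∀ x, 0 ≤ F x) (hF1 : ∀ x, F x ≤ 1) :
    (∑ x, F x) / Fintype.card V - ∑ x, r x * F x ≤ sqrt (log (Fintype.card V) - ent r) := by
  have hc : (0 : ℝ) < Fintype.card V := by exact_mod_cast Fintype.card_pos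
  set u : ℝ := 1 / Fintype.card V with hu
  have hu0 : 0 < u := by positivity
  have hus : ∑ _x : V, u = 1 := by
    rw [sum_const, card_univ, nsmul_eq_mul, hu]
    field_simp
  have hsu : sqrt u ^ 2 = u := sq_sqrt hu0.le
  have hsr : ∀ x, sqrt (r x) ^ 2 = r x := fun x => sq_sqrt (hr.nn x)
  set bc : ℝ := ∑ x, sqrt u * sqrt (r x) with hbc
  have e1 : ∑ x, (sqrt u - sqrt (r x)) ^ 2 = 2 - 2 * bc := by
    have : ∀ x, (sqrt u - sqrt (r x)) ^ 2 = u + r x - 2 * (sqrt u * sqrt (r x)) := by
      intro x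
      rw [sub_sq, hsu, hsr]
      ring
    simp only [this]
    rw [sum_sub_distrib, sum_add_distrib, hus, hr.sum, ← mul_sum]
    ring
  have e2 : ∑ x, (sqrt u + sqrt (r x)) ^ 2 = 2 + 2 * bc := by
    have : ∀ x, (sqrt u + sqrt (r x)) ^ 2 = u + r x + 2 * (sqrt u * sqrt (r x)) := by
      intro x
      rw [add_sq, hsu, hsr]
      ring
    simp only [this]
    rw [sum_add_distrib, sum_add_distrib, hus, hr.sum, ← mul_sum]
    ring
  have hbc1 : 0 ≤ 2 - 2 * bc := by
    rw [← e1]
    exact sum_nonneg fun x _ => sq_nonneg _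
  have hcs : (∑ x, |u - r x|) ^ 2 ≤ (2 - 2 * bc) * 4 := by
    have h1 : ∀ x, |u - r x| = |sqrt u - sqrt (r x)| * (sqrt u + sqrt (r x)) := by
      intro x
      have h2 : u - r x = (sqrt u - sqrt (r x)) * (sqrt u + sqrt (r x)) := by
        have h3 := hsr x
        nlinarith
      have h4 : 0 ≤ sqrt u + sqrt (r x) := by positivity
      rw [h2, abs_mul, abs_of_nonneg h4]
    simp only [h1]
    have h5 := sum_mul_sq_le_sq_mul_sq univ (fun x => |sqrt u - sqrt (r x)|)
      (fun x => sqrt u + sqrt (r x))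
    simp only [sq_abs] at h5
    rw [e1, e2] at h5
    refine h5.trans (mul_le_mul_of_nonneg_left ?_ hbc1)
    linarith
  have hkl : 2 - 2 * bc ≤ log (Fintype.card V) - ent r := by
    have h1 : ∀ x, 2 * r x - 2 * (sqrt u * sqrt (r x)) ≤ r x * log (r x) - r x * log u := by
      intro x
      rcases (hr.nn x).eq_or_lt with h0 | h0
      · rw [← h0]
        simp
      · have hs0 : 0 < sqrt (r x) := sqrt_pos.mpr h0
        have hsu0 : 0 < sqrt u := sqrt_pos.mpr hu0
        have h2 := log_le_sub_one_of_pos (x := sqrt u / sqrt (r x)) (by positivity)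
        rw [log_div hsu0.ne' hs0.ne', log_sqrt hu0.le, log_sqrt h0.le] at h2
        have h3 : r x * (sqrt u / sqrt (r x) - 1) = sqrt u * sqrt (r x) - r x := by
          have h4 := hsr x
          have h5 : r x * (sqrt u / sqrt (r x)) = sqrt u * sqrt (r x) := by
            rw [mul_div_assoc', div_eq_iff hs0.ne']
            calc r x * sqrt u = sqrt (r x) ^ 2 * sqrt u := by rw [h4]
              _ = _ := by ring
          rw [mul_sub, h5, mul_one]
        have h6 := mul_le_mul_of_nonneg_left h2 h0.le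
        rw [h3] at h6
        nlinarith
    have h7 := sum_le_sum fun x (_ : x ∈ (univ : Finset V)) => h1 x
    rw [sum_sub_distrib, sum_sub_distrib, ← mul_sum, ← mul_sum, ← sum_mul, hr.sum] at h7
    have h8 : log u = -log (Fintype.card V) := by rw [hu, one_div, log_inv]
    have h9 : ent r = -∑ x, r x * log (r x) := by
      unfold ent
      rw [← sum_neg_distrib]
      refine sum_congr rfl fun x _ => ?_
      unfold negMulLog
      ring
    rw [h8] at h7
    rw [h9]
    linarith
  have hle : (∑ x, F x) / Fintype.card V - ∑ x, r x * F x ≤ (∑ x, |u - r x|) / 2 := by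
    have h1 : (∑ x, F x) / Fintype.card V - ∑ x, r x * F x = ∑ x, (u - r x) * F x := by
      simp only [sub_mul]
      rw [sum_sub_distrib, ← mul_sum, hu]
      ring
    have h2 : ∀ x, (u - r x) * F x ≤ (|u - r x| + (u - r x)) / 2 := by
      intro x
      rcases le_total 0 (u - r x) with h3 | h3
      · rw [abs_of_nonneg h3]
        nlinarith [hF1 x]
      · rw [abs_of_nonpos h3]
        nlinarith [hF0 x]
    rw [h1]
    have h4 := sum_le_sum fun x (_ : x ∈ (univ : Finset V)) => h2 x
    rw [← sum_div, sum_add_distrib, sum_sub_distrib, hus, hr.sum] at h4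
    linarith
  have h0 : 0 ≤ ∑ x, |u - r x| := sum_nonneg fun x _ => abs_nonneg _
  refine hle.trans ?_
  apply le_sqrt_of_sq_le
  rw [div_pow]
  nlinarith

theorem thm_End : St_End := by
  intro G _ _ g e hS
  obtain ⟨p, q, hp, hq, hD, he⟩ := hS.ex
  have hDq := Df_nonneg hq
  have hDp : Df p ≤ 1 / 16 := by linarith
  have hs : sqrt (Df p) ≤ 1 / 4 := by
    rw [sqrt_le_left (by norm_num)]
    norm_num
    linarith
  have h1 : ∀ y, (∑ x, g x) / Fintype.card G - 1 / 4 ≤ ∑ x, p x * g (x + y) := by
    intro y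
    have h2 := Quot_tv p (fun x => g (x + y)) hp (fun x => hS.g0 _) (fun x => hS.g1 _)
    rw [sum_shift y g] at h2
    have h3 : sqrt (log (Fintype.card G) - ent p) ≤ 1 / 4 := hs
    linarith
  have h4 : avv g p q = ∑ y, q y * ∑ x, p x * g (x + y) := by
    unfold avv av
    simp only [mul_sum]
    rw [sum_comm]
    refine sum_congr rfl fun y _ => sum_congr rfl fun x _ => ?_
    ring
  have h5 : ∑ y, q y * ((∑ x, g x) / Fintype.card G - 1 / 4) ≤ avv g p q := by
    rw [h4]
    exact sum_le_sum fun y _ => mul_le_mul_of_nonneg_left (h1 y) (hq.nn y)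
  rw [← sum_mul, hq.sum, one_mul] at h5
  linarith

section quot

variable {G : Type} [AddCommGroup G] [Fintype G]

/-- averaging over the cosets -/
theorem Quot_avg (W : AddSubgroup G) (f : G → ℝ) :
    ∑ x, ∑ w : W, f (x + w) = (Fintype.card W : ℝ) * ∑ x, f x := by
  rw [sum_comm]
  have h : ∀ w : W, ∑ x, f (x + w) = ∑ x, f x := fun w => sum_shift (w : G) f
  simp only [h]
  rw [sum_const, card_univ, nsmul_eq_mul]

theorem Quot_coset (W : AddSubgroup G) (f : G → ℝ) (x : G) (w : W) :
    ∑ v : W, f (x + w + v) = ∑ v : W, f (x + v) := by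
  have h : ∀ v : W, f (x + w + v) = f (x + ((w + v : W) : G)) := by
    intro v
    rw [AddSubgroup.coe_add, add_assoc]
  simp only [h]
  exact sum_shift' w (fun v : W => f (x + (v : G)))

theorem Quot_avc_inv (W : AddSubgroup G) (f : G → ℝ) (x : G) (w : W) :
    avc W f (x + w) = avc W f x := by
  unfold avc
  rw [Quot_coset]

theorem Quot_Df_inv (W : AddSubgroup G) (p : G → ℝ) (x : G) (w : W) :
    Df (fw W p (x + w)) = Df (fw W p x) := by
  have h6 : fw W p (x + w) = sh w (fw W p x) := by
    funext v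
    show p (x + w + v) / ∑ w' : W, p (x + w + w') =
      p (x + ((v + w : W) : G)) / ∑ w' : W, p (x + w')
    rw [Quot_coset, AddSubgroup.coe_add, add_comm (v : G), add_assoc]
  rw [h6, Df_sh]

theorem Quot_main (W : AddSubgroup G) (p F : G → ℝ) (hp : IsLaw p) (hF0 : ∀ x, 0 ≤ F x)
    (hF1 : ∀ x, F x ≤ 1) :
    ∑ x, p x * avc W F x - ∑ x, p x * F x ≤ ∑ x, p x * sqrt (Df (fw W p x)) := by
  have hW : (0 : ℝ) < Fintype.card W := by exact_mod_cast Fintype.card_pos
  have key : ∀ x : G, ∑ w : W, (p (x + w) * avc W F (x + w) - p (x + w) * F (x + w)) ≤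
      ∑ w : W, p (x + w) * sqrt (Df (fw W p (x + w))) := by
    intro x
    simp only [Quot_avc_inv, Quot_Df_inv]
    rw [sum_sub_distrib, ← sum_mul, ← sum_mul]
    set c : ℝ := ∑ w : W, p (x + w) with hc
    have hc0 : 0 ≤ c := sum_nonneg fun w _ => hp.nn _
    rcases hc0.eq_or_lt with h0 | h0
    · have h1 : ∀ w : W, p (x + w) = 0 := by
        intro w
        exact (sum_eq_zero_iff_of_nonneg (fun (w : W) _ => hp.nn (x + w))).mp h0.symm w
          (mem_univ w)
      simp only [h1]
      rw [← h0]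
      simp
    · have hlaw : IsLaw (fw W p x) := by
        refine ⟨fun w => div_nonneg (hp.nn _) hc0, ?_⟩
        show ∑ w : W, p (x + w) / c = 1
        rw [← sum_div, div_self h0.ne']
      have h2 := Quot_tv (fw W p x) (fun w : W => F (x + w)) hlaw (fun w => hF0 _)
        (fun w => hF1 _)
      have h3 : avc W F x = (∑ w : W, F (x + w)) / Fintype.card W := by
        unfold avc
        rw [Nat.card_eq_fintype_card]
      have h4 : ∑ w : W, p (x + w) * F (x + w) = c * ∑ w : W, fw W p x w * F (x + w) := by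
        rw [mul_sum]
        refine sum_congr rfl fun w _ => ?_
        show p (x + w) * F (x + w) = c * (p (x + w) / c * F (x + w))
        field_simp
      rw [h4, h3, ← mul_sub]
      exact mul_le_mul_of_nonneg_left h2 hc0
  have h5 := sum_le_sum fun x (_ : x ∈ (univ : Finset G)) => key x
  rw [Quot_avg W (fun x => p x * avc W F x - p x * F x),
    Quot_avg W (fun x => p x * sqrt (Df (fw W p x)))] at h5
  have h6 := le_of_mul_le_mul_left h5 hW
  rw [sum_sub_distrib] at h6
  exact h6

theorem Quot_sqrt (W : AddSubgroup G) (p : G → ℝ) (hp : IsLaw p)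
    (hlaw : ∀ x, p x ≠ 0 → IsLaw (fw W p x)) :
    ∑ x, p x * sqrt (Df (fw W p x)) ≤ sqrt (DW W p) := by
  apply le_sqrt_of_sq_le
  set T : G → ℝ := fun x => sqrt (Df (fw W p x)) with hT
  set m : ℝ := ∑ x, p x * T x with hm
  have h1 : DW W p = ∑ x, p x * T x ^ 2 := by
    unfold DW
    refine sum_congr rfl fun x _ => ?_
    by_cases h0 : p x = 0
    · rw [h0, zero_mul, zero_mul]
    · rw [hT]
      simp only
      rw [sq_sqrt (Df_nonneg (hlaw x h0))]
  have h2 : 0 ≤ ∑ x, p x * (T x - m) ^ 2 :=
    sum_nonneg fun x _ => mul_nonneg (hp.nn x) (sq_nonneg _)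
  have h3 : ∑ x, p x * (T x - m) ^ 2 = (∑ x, p x * T x ^ 2) - m ^ 2 := by
    have : ∀ x, p x * (T x - m) ^ 2 = p x * T x ^ 2 - 2 * m * (p x * T x) + m ^ 2 * p x := by
      intro x
      ring
    simp only [this]
    rw [sum_add_distrib, sum_sub_distrib, ← mul_sum, ← mul_sum, hp.sum]
    ring
  rw [h1]
  linarith

end quot

theorem thm_Quot (h : St_DW) : St_Quot := by
  intro G _ _ h2 W g p q hp hq hg0 hg1
  have hex : ∃ gb : G ⧸ W → ℝ, ∀ a, gb a = avc W g (Quotient.out a) := ⟨_, fun _ => rfl⟩
  obtain ⟨gb, hgbd⟩ := hex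
  refine ⟨gb, ?_, ?_⟩
  · intro x
    obtain ⟨w, hw⟩ := QuotientAddGroup.mk_out_eq_add W x
    rw [hgbd, hw, Quot_avc_inv]
  · have hgb : ∀ x : G, gb (QuotientAddGroup.mk x : G ⧸ W) = avc W g x := by
      intro x
      obtain ⟨w, hw⟩ := QuotientAddGroup.mk_out_eq_add W x
      rw [hgbd, hw, Quot_avc_inv]
    have hlaw := (h G W W p hp).1
    have e1 : avv gb (prq W p) (prq W q) =
        ∑ y, q y * ∑ x, p x * avc W (fun z => g (z + y)) x := by
      unfold avv av prq
      rw [sum_pr_mul univ (fun _ => mem_univ _)]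
      have h3 : ∀ x : G, ∑ b : G ⧸ W, pr q (fun x => (QuotientAddGroup.mk x : G ⧸ W)) b *
          gb ((QuotientAddGroup.mk x : G ⧸ W) + b) =
          ∑ y, q y * avc W g (x + y) := by
        intro x
        rw [sum_pr_mul univ (fun _ => mem_univ _)
          (fun b => gb ((QuotientAddGroup.mk x : G ⧸ W) + b))]
        refine sum_congr rfl fun y _ => ?_
        rw [← QuotientAddGroup.mk_add, hgb]
      simp only [h3, mul_sum]
      rw [sum_comm]
      refine sum_congr rfl fun y _ => sum_congr rfl fun x _ => ?_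
      have h4 : avc W (fun z => g (z + y)) x = avc W g (x + y) := by
        unfold avc
        congr 1
        refine sum_congr rfl fun w _ => ?_
        rw [add_right_comm]
      rw [h4]
      ring
    have e2 : avv g p q = ∑ y, q y * ∑ x, p x * g (x + y) := by
      unfold avv av
      simp only [mul_sum]
      rw [sum_comm]
      refine sum_congr rfl fun y _ => sum_congr rfl fun x _ => ?_
      ring
    have hs := Quot_sqrt W p hp hlaw
    have h5 : ∀ y, ∑ x, p x * avc W (fun z => g (z + y)) x ≤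
        ∑ x, p x * g (x + y) + sqrt (DW W p) := by
      intro y
      have h6 := Quot_main W p (fun z => g (z + y)) hp (fun x => hg0 _) (fun x => hg1 _)
      linarith
    have h7 : avv gb (prq W p) (prq W q) ≤
        ∑ y, q y * (∑ x, p x * g (x + y) + sqrt (DW W p)) := by
      rw [e1]
      exact sum_le_sum fun y _ => mul_le_mul_of_nonneg_left (h5 y) (hq.nn y)
    have h8 : ∑ y, q y * (∑ x, p x * g (x + y) + sqrt (DW W p)) =
        avv g p q + sqrt (DW W p) := by
      rw [e2]
      simp only [mul_add]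
      rw [sum_add_distrib, ← sum_mul, hq.sum, one_mul]
    exact h7.trans (le_of_eq h8)

end Pool.Agent.BR
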