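import Pool.Agent.BR.St

/-!
BR, module Samp: the Gibbs inequality and the expected relative entropy of sampled Gibbs laws.
-/

set_option autoImplicit false
set_option linter.unusedSectionVars false
set_option linter.unusedVariables false

namespace Pool.Agent.BR

open Finset Real
open scoped Classical

section

variable {G : Type} [AddCommGroup G] [Fintype G]

private theorem Samp_Z (K : ℝ) (s : G → ℝ) : 0 < ∑ y, exp (-K * s y) :=
  sum_pos (fun y _ => exp_pos _) ⟨0, mem_univ _⟩

theorem Samp_gib_pos (K : ℝ) (s : G → ℝ) (x : G) : 0 < gib K s x :=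
  div_pos (exp_pos _) (Samp_Z K s)

theorem Samp_isLaw_gib (K : ℝ) (s : G → ℝ) : IsLaw (gib K s) := by
  refine ⟨fun x => (Samp_gib_pos K s x).le, ?_⟩
  unfold gib
  rw [← sum_div, div_self (Samp_Z K s).ne']

theorem Samp_log_gib (K : ℝ) (s : G → ℝ) (x : G) :
    log (gib K s x) = -K * s x - log (∑ y, exp (-K * s y)) := by
  unfold gib
  rw [log_div (exp_ne_zero _) (Samp_Z K s).ne', log_exp]

private theorem Samp_sum_log (K : ℝ) (s p : G → ℝ) (hp : IsLaw p) :
    ∑ x, p x * log (gib K s x) = -(K * ∑ x, p x * s x) - log (∑ y, exp (-K * s y)) := by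
  have h : ∀ x, p x * log (gib K s x) =
      -(K * (p x * s x)) - p x * log (∑ y, exp (-K * s y)) := by
    intro x
    rw [Samp_log_gib]
    ring
  simp only [h]
  rw [sum_sub_distrib, sum_neg_distrib, ← mul_sum, ← sum_mul, hp.sum, one_mul]

private theorem Samp_ent (p : G → ℝ) : ent p = -∑ x, p x * log (p x) := by
  unfold ent negMulLog
  rw [← sum_neg_distrib]
  exact sum_congr rfl fun x _ => by ring

end

theorem thm_Gibbs : St_Gibbs := by
  intro G _ _ K s p hp
  have hl := Samp_isLaw_gib K s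
  refine ⟨hl, ?_⟩
  have h1 := gibbs univ p (gib K s) (fun i _ => hp.nn i) (fun i _ => hl.nn i)
    (fun i _ h => absurd h (Samp_gib_pos K s i).ne') (by rw [hl.sum, hp.sum])
  rw [Samp_sum_log K s p hp] at h1
  have h2 := Samp_sum_log K s (gib K s) hl
  unfold Df
  rw [Samp_ent, Samp_ent, h2]
  linarith

section

variable {G : Type} [AddCommGroup G] [Fintype G] {N : ℕ}

private theorem Samp_prod (F : Fin N → G → ℝ) :
    ∑ y : Fin N → G, ∏ i, F i (y i) = ∏ i, ∑ x, F i x := by
  rw [Finset.prod_univ_sum, Fintype.piFinset_univ]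

private theorem Samp_first {q : G → ℝ} (hq : IsLaw q) (f : G → ℝ) (i0 : Fin N) :
    ∑ y : Fin N → G, (∏ i, q (y i)) * f (y i0) = ∑ x, q x * f x := by
  have h1 : ∀ y : Fin N → G, (∏ i, q (y i)) * f (y i0) =
      ∏ i, (fun i x => q x * (if i = i0 then f x else 1)) i (y i) := by
    intro y
    simp only
    rw [Finset.prod_mul_distrib, Finset.prod_ite_eq' univ i0 (fun i => f (y i)),
      if_pos (mem_univ _)]
  refine (sum_congr rfl fun y _ => h1 y).trans ?_
  refine (Samp_prod (fun (i : Fin N) x => q x * (if i = i0 then f x else 1))).trans ?_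
  have h2 : ∀ i : Fin N, ∑ x, q x * (if i = i0 then f x else 1) =
      if i = i0 then ∑ x, q x * f x else 1 := by
    intro i
    by_cases hi : i = i0
    · simp only [if_pos hi]
    · simp only [if_neg hi, mul_one]
      exact hq.sum
  simp only [h2]
  rw [Finset.prod_ite_eq' univ i0 (fun _ => ∑ x, q x * f x), if_pos (mem_univ _)]

private theorem Samp_law {q : G → ℝ} (hq : IsLaw q) : ∑ y : Fin N → G, ∏ i, q (y i) = 1 := by
  rw [Samp_prod (fun _ => q)]
  simp only [hq.sum, Finset.prod_const_one]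

/-- the first moment of the sampled energy -/
private theorem Samp_mean {q : G → ℝ} (hq : IsLaw q) (hN : 1 ≤ N) (g : G → ℝ) (x : G) :
    ∑ y : Fin N → G, (∏ i, q (y i)) * ((∑ i, g (x + y i)) / N) = av g q x := by
  have hN' : (N : ℝ) ≠ 0 := by positivity
  have h1 : ∀ y : Fin N → G, (∏ i, q (y i)) * ((∑ i, g (x + y i)) / N) =
      (∑ i, (∏ i, q (y i)) * g (x + y i)) / N := by
    intro y
    rw [← mul_sum, mul_div_assoc]
  simp only [h1]
  rw [← sum_div, sum_comm]
  have h2 : ∀ i : Fin N, ∑ y : Fin N → G, (∏ i, q (y i)) * g (x + y i) = av g q x := by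
    intro i
    exact Samp_first hq (fun z => g (x + z)) i
  simp only [h2]
  rw [sum_const, card_univ, Fintype.card_fin, nsmul_eq_mul, mul_div_cancel_left₀ _ hN']

private theorem Samp_exp_neg {t : ℝ} (ht : 0 ≤ t) : exp (-t) ≤ 1 - t + t ^ 2 / 2 := by
  have h1 := quadratic_le_exp_of_nonneg ht
  have h2 : 0 < 1 + t + t ^ 2 / 2 := by positivity
  have h3 : 0 < 1 - t + t ^ 2 / 2 := by nlinarith [sq_nonneg (t - 1)]
  rw [exp_neg]
  calc (exp t)⁻¹ ≤ (1 + t + t ^ 2 / 2)⁻¹ := inv_anti₀ h2 h1
    _ ≤ 1 - t + t ^ 2 / 2 := by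
      rw [inv_le_iff_one_le_mul₀ h2]
      nlinarith [sq_nonneg (t ^ 2)]

private theorem Samp_lap {q : G → ℝ} (hq : IsLaw q) {f : G → ℝ} (hf0 : ∀ x, 0 ≤ f x)
    (hf1 : ∀ x, f x ≤ 1) {t : ℝ} (ht : 0 ≤ t) :
    ∑ x, q x * exp (-t * f x) ≤ exp (-(t - t ^ 2 / 2) * ∑ x, q x * f x) := by
  have h1 : ∀ x, exp (-t * f x) ≤ 1 - (1 - exp (-t)) * f x := by
    intro x
    have h := convexOn_exp.2 (Set.mem_univ (0 : ℝ))
      (Set.mem_univ (-t)) (sub_nonneg.2 (hf1 x)) (hf0 x) (by ring)
    simp only [smul_eq_mul, mul_zero, zero_add, exp_zero, mul_one] at h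
    rw [mul_comm (f x) (-t)] at h
    linarith
  have h2 : ∑ x, q x * exp (-t * f x) ≤ 1 - (1 - exp (-t)) * ∑ x, q x * f x := by
    calc ∑ x, q x * exp (-t * f x) ≤ ∑ x, q x * (1 - (1 - exp (-t)) * f x) :=
          sum_le_sum fun x _ => mul_le_mul_of_nonneg_left (h1 x) (hq.nn x)
      _ = 1 - (1 - exp (-t)) * ∑ x, q x * f x := by
          have : ∀ x, q x * (1 - (1 - exp (-t)) * f x) =
              q x - (1 - exp (-t)) * (q x * f x) := fun x => by ring
          simp only [this]
          rw [sum_sub_distrib, hq.sum, ← mul_sum]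
  have h3 := Samp_exp_neg ht
  have h4 : 0 ≤ ∑ x, q x * f x := sum_nonneg fun x _ => mul_nonneg (hq.nn x) (hf0 x)
  have h5 := add_one_le_exp (-(t - t ^ 2 / 2) * ∑ x, q x * f x)
  nlinarith

end

theorem thm_Samp : St_Samp := by
  intro G _ _ _ K N g q hK hN hg0 hg1 hq
  have hN' : (0 : ℝ) < N := by exact_mod_cast hN
  obtain ⟨sg, hsg⟩ : ∃ sg, sg = av g q := ⟨_, rfl⟩
  obtain ⟨sy, hsy⟩ : ∃ sy : (Fin N → G) → G → ℝ, sy = fun y x => (∑ i, g (x + y i)) / N :=
    ⟨_, rfl⟩
  obtain ⟨W, hW⟩ : ∃ W : (Fin N → G) → ℝ, W = fun y => ∏ i, q (y i) := ⟨_, rfl⟩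
  have hW0 : ∀ y, 0 ≤ W y := fun y => by
    rw [hW]
    exact prod_nonneg fun i _ => hq.nn _
  have hW1 : ∑ y, W y = 1 := by
    rw [hW]
    exact Samp_law hq
  have hmean : ∀ x, ∑ y, W y * sy y x = sg x := by
    intro x
    rw [hW, hsy, hsg]
    exact Samp_mean hq hN g x
  have goal : ∑ y, W y * KL (gib K sg) (gib K (sy y)) ≤ K ^ 2 / (2 * N) := by
    obtain ⟨ph, hph⟩ : ∃ ph, ph = gib K sg := ⟨_, rfl⟩
    have hphL : IsLaw ph := by
      rw [hph]
      exact Samp_isLaw_gib K sg
    have hphp : ∀ x, 0 < ph x := fun x => by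
      rw [hph]
      exact Samp_gib_pos K sg x
    obtain ⟨Z, hZ⟩ : ∃ Z, Z = ∑ y, exp (-K * sg y) := ⟨_, rfl⟩
    have hZp : 0 < Z := by
      rw [hZ]
      exact Samp_Z K sg
    obtain ⟨Zy, hZy⟩ : ∃ Zy : (Fin N → G) → ℝ, Zy = fun y => ∑ x, exp (-K * sy y x) := ⟨_, rfl⟩
    have hZyp : ∀ y, 0 < Zy y := fun y => by
      rw [hZy]
      exact Samp_Z K (sy y)
    have hKL : ∀ y, KL ph (gib K (sy y)) =
        K * ∑ x, ph x * sy y x - K * ∑ x, ph x * sg x + (log (Zy y) - log Z) := by
      intro y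
      have h1 : ∀ x, ph x * log (ph x / gib K (sy y) x) =
          ph x * log (gib K sg x) - ph x * log (gib K (sy y) x) := by
        intro x
        rw [log_div (hphp x).ne' (Samp_gib_pos K (sy y) x).ne', hph]
        ring
      unfold KL
      simp only [h1]
      rw [sum_sub_distrib, Samp_sum_log K sg ph hphL, Samp_sum_log K (sy y) ph hphL, hZ, hZy]
      ring
    -- the energy terms average to zero
    have hen : ∑ y, W y * (K * ∑ x, ph x * sy y x - K * ∑ x, ph x * sg x) = 0 := by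
      have h1 : ∑ y, W y * ∑ x, ph x * sy y x = ∑ x, ph x * sg x := by
        simp only [mul_sum]
        rw [sum_comm]
        refine sum_congr rfl fun x _ => ?_
        rw [← hmean x, mul_sum]
        exact sum_congr rfl fun y _ => by ring
      have h2 : ∀ y, W y * (K * ∑ x, ph x * sy y x - K * ∑ x, ph x * sg x) =
          K * (W y * ∑ x, ph x * sy y x) - W y * (K * ∑ x, ph x * sg x) := fun y => by ring
      simp only [h2]
      rw [sum_sub_distrib, ← mul_sum, h1, ← sum_mul, hW1]
      ring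
    -- the expectation of the normalisation
    have hexp : ∑ y, W y * Zy y ≤ exp (K ^ 2 / (2 * N)) * Z := by
      have h1 : ∑ y, W y * Zy y = ∑ x, (∑ z, q z * exp (-(K / N) * g (x + z))) ^ N := by
        rw [hZy]
        simp only [mul_sum]
        rw [sum_comm]
        refine sum_congr rfl fun x _ => ?_
        have h2 : ∀ y : Fin N → G, W y * exp (-K * sy y x) =
            ∏ i, (fun (_ : Fin N) z => q z * exp (-(K / N) * g (x + z))) i (y i) := by
          intro y
          simp only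
          rw [Finset.prod_mul_distrib, ← exp_sum, hW, hsy]
          simp only
          congr 2
          rw [← mul_sum]
          ring
        refine (sum_congr rfl fun y _ => h2 y).trans ?_
        refine (Samp_prod (fun (_ : Fin N) z => q z * exp (-(K / N) * g (x + z)))).trans ?_
        rw [prod_const, card_univ, Fintype.card_fin]
      rw [h1, hZ, mul_sum]
      refine sum_le_sum fun x _ => ?_
      have hKN : 0 ≤ K / N := by positivity
      have h3 := Samp_lap hq (fun z => hg0 (x + z)) (fun z => hg1 (x + z)) hKN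
      have h4 : 0 ≤ ∑ z, q z * exp (-(K / N) * g (x + z)) :=
        sum_nonneg fun z _ => mul_nonneg (hq.nn z) (exp_pos _).le
      have h5 := pow_le_pow_left₀ h4 h3 N
      refine h5.trans ?_
      have hsx : ∑ z, q z * g (x + z) = sg x := by
        rw [hsg]
        rfl
      rw [hsx, ← exp_nat_mul, ← exp_add, exp_le_exp]
      have hs1 : sg x ≤ 1 := by
        rw [← hsx]
        calc ∑ z, q z * g (x + z) ≤ ∑ z, q z * 1 :=
              sum_le_sum fun z _ => mul_le_mul_of_nonneg_left (hg1 _) (hq.nn z)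
          _ = 1 := by simp only [mul_one]; exact hq.sum
      have e1 : (N : ℝ) * (-(K / N - (K / N) ^ 2 / 2) * sg x) =
          -K * sg x + K ^ 2 / (2 * N) * sg x := by
        field_simp
        ring
      rw [e1]
      have e2 : 0 ≤ K ^ 2 / (2 * (N : ℝ)) := by positivity
      nlinarith
    have hm : 0 < exp (K ^ 2 / (2 * N)) * Z := mul_pos (exp_pos _) hZp
    have hlog : ∀ y, log (Zy y) - log Z ≤
        K ^ 2 / (2 * N) + (Zy y / (exp (K ^ 2 / (2 * N)) * Z) - 1) := by
      intro y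
      have h1 := log_le_sub_one_of_pos (x := Zy y / (exp (K ^ 2 / (2 * N)) * Z))
        (div_pos (hZyp y) hm)
      rw [log_div (hZyp y).ne' hm.ne', log_mul (exp_ne_zero _) hZp.ne', log_exp] at h1
      linarith
    rw [← hph]
    simp only [hKL]
    have h1 : ∀ y, W y * (K * ∑ x, ph x * sy y x - K * ∑ x, ph x * sg x +
        (log (Zy y) - log Z)) = W y * (K * ∑ x, ph x * sy y x - K * ∑ x, ph x * sg x) +
          W y * (log (Zy y) - log Z) := fun y => by ring
    simp only [h1]
    rw [sum_add_distrib, hen, zero_add]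
    calc ∑ y, W y * (log (Zy y) - log Z) ≤
        ∑ y, W y * (K ^ 2 / (2 * N) + (Zy y / (exp (K ^ 2 / (2 * N)) * Z) - 1)) :=
          sum_le_sum fun y _ => mul_le_mul_of_nonneg_left (hlog y) (hW0 y)
      _ = K ^ 2 / (2 * N) - 1 + (∑ y, W y * Zy y) / (exp (K ^ 2 / (2 * N)) * Z) := by
          have h2 : ∀ y, W y * (K ^ 2 / (2 * N) +
              (Zy y / (exp (K ^ 2 / (2 * N)) * Z) - 1)) = W y * (K ^ 2 / (2 * N) - 1) +
                W y * Zy y / (exp (K ^ 2 / (2 * N)) * Z) := fun y => by ring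
          simp only [h2]
          rw [sum_add_distrib, ← sum_mul, hW1, one_mul, sum_div]
      _ ≤ K ^ 2 / (2 * N) - 1 + 1 := by
          have := (div_le_one hm).2 hexp
          linarith
      _ = K ^ 2 / (2 * N) := by ring
  rw [hW, hsy, hsg] at goal
  exact goal

end Pool.Agent.BR
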