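import Pool.Agent.BR.St

/-!
Section 6 of the paper: the step of the iteration.
-/

set_option autoImplicit false

namespace Pool.Agent.BR

open Finset Real
open scoped Classical

section aux

variable {G : Type} [AddCommGroup G] [Fintype G]

theorem Step_avv_comm (g p q : G → ℝ) : avv g p q = avv g q p := by
  unfold avv av
  simp only [mul_sum]
  rw [sum_comm]
  refine sum_congr rfl fun y _ => sum_congr rfl fun x _ => ?_
  rw [add_comm x y]
  ring

theorem Step_avv_nonneg {g p q : G → ℝ} (hg : ∀ x, 0 ≤ g x) (hp : IsLaw p) (hq : IsLaw q) :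
    0 ≤ avv g p q :=
  sum_nonneg fun x _ => mul_nonneg (hp.nn x)
    (sum_nonneg fun y _ => mul_nonneg (hq.nn y) (hg _))

theorem Step_cod_inf (W₁ W₂ : AddSubgroup G) : cod (W₁ ⊓ W₂) ≤ cod W₁ + cod W₂ := by
  have c1 := AddSubgroup.card_mul_index W₁
  have c2 := AddSubgroup.card_mul_index W₂
  have c3 := AddSubgroup.card_mul_index (W₁ ⊓ W₂)
  have hi := AddSubgroup.index_inf_le (H := W₁) (K := W₂)
  have hG : 0 < Nat.card G := Nat.card_pos
  have hpos : ∀ W : AddSubgroup G, 0 < Nat.card W := fun W => Nat.card_pos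
  have hind : ∀ W : AddSubgroup G, cod W = log (W.index) := by
    intro W
    have c := AddSubgroup.card_mul_index W
    have hW := hpos W
    have hi0 : W.index ≠ 0 := by
      intro h0
      rw [h0, mul_zero] at c
      omega
    unfold cod
    have e : (Fintype.card G : ℝ) = (Nat.card W : ℝ) * (W.index : ℝ) := by
      rw [← Nat.card_eq_fintype_card, ← c]
      push_cast
      ring
    rw [e, Real.log_mul (by exact_mod_cast hW.ne') (by exact_mod_cast hi0)]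
    ring
  have hne : ∀ W : AddSubgroup G, W.index ≠ 0 := by
    intro W h0
    have c := AddSubgroup.card_mul_index W
    rw [h0, mul_zero] at c
    omega
  rw [hind, hind, hind, ← Real.log_mul (by exact_mod_cast hne W₁) (by exact_mod_cast hne W₂)]
  apply Real.log_le_log
  · have := Nat.pos_of_ne_zero (hne (W₁ ⊓ W₂))
    exact_mod_cast this
  · exact_mod_cast hi

/-- The numerical end of the step. -/
private lemma Step_num (be xi l t n0 D A K N : ℝ) (hbe0 : 0 < be) (hbe1 : be ≤ 1 / 5)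
    (hxi0 : 0 < xi) (hl : 1 ≤ l) (ht0 : 0 < t) (htl : t ≤ l) (hn01 : 1 ≤ n0)
    (hA : A = D * K ^ 2 * n0 ^ be / t ^ (1 + be)) (hK : K = l / xi)
    (hN : N ≤ A + 1) :
    8 * N * (3 * K) + 16 * log 2 ≤
      (24 / xi * (D / xi ^ 2 + 1) + 16) * n0 ^ be * l ^ 3 / t ^ (1 + be) := by
  have hl0 : 0 < l := by linarith
  have htp : 0 < t ^ (1 + be) := Real.rpow_pos_of_pos ht0 _
  obtain ⟨R, hR⟩ : ∃ R : ℝ, R = n0 ^ be * l ^ 3 / t ^ (1 + be) := ⟨_, rfl⟩
  have hRl : l ≤ R := by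
    have e1 : t ^ (1 + be) ≤ l ^ 2 := by
      calc t ^ (1 + be) ≤ l ^ (1 + be) := Real.rpow_le_rpow ht0.le htl (by linarith)
        _ ≤ l ^ ((2 : ℕ) : ℝ) := Real.rpow_le_rpow_of_exponent_le hl (by push_cast; linarith)
        _ = l ^ 2 := Real.rpow_natCast l 2
    have e2 : 1 ≤ n0 ^ be := Real.one_le_rpow hn01 hbe0.le
    rw [hR, le_div_iff₀ htp]
    calc l * t ^ (1 + be) ≤ l * l ^ 2 := mul_le_mul_of_nonneg_left e1 hl0.le
      _ = 1 * l ^ 3 := by ring
      _ ≤ n0 ^ be * l ^ 3 := mul_le_mul_of_nonneg_right e2 (by positivity)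
  have hAl : A * l = D / xi ^ 2 * R := by
    rw [hA, hR, hK]
    field_simp
  have hlog : log 2 ≤ 1 := by
    have := Real.log_two_lt_d9
    linarith
  have hs1 : 8 * N * (3 * K) = 24 / xi * (N * l) := by
    rw [hK]
    field_simp
    ring
  have hs2 : N * l ≤ (D / xi ^ 2 + 1) * R := by
    have e1 : N * l ≤ (A + 1) * l := mul_le_mul_of_nonneg_right hN hl0.le
    have e2 : (A + 1) * l = D / xi ^ 2 * R + l := by rw [add_mul, hAl, one_mul]
    have e4 : (D / xi ^ 2 + 1) * R = D / xi ^ 2 * R + R := by ring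
    linarith
  have hs3 : 24 / xi * (N * l) ≤ 24 / xi * ((D / xi ^ 2 + 1) * R) :=
    mul_le_mul_of_nonneg_left hs2 (by positivity)
  have e3 : (24 / xi * (D / xi ^ 2 + 1) + 16) * n0 ^ be * l ^ 3 / t ^ (1 + be) =
      24 / xi * ((D / xi ^ 2 + 1) * R) + 16 * R := by
    rw [hR]
    ring
  rw [e3, hs1]
  linarith

end aux

theorem thm_Step (h1 : St_OV) (h2 : St_Gibbs) (h3 : St_DW) (h4 : St_Choose) : St_Step := by
  intro be xi hbe0 hbe1 hxi0 hxi1
  set E8 : ℝ := (8 : ℝ) ^ (1 + be) with hE8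
  have hE8p : 0 < E8 := Real.rpow_pos_of_pos (by norm_num) _
  have hb400 : 0 < be ^ 400 := pow_pos hbe0 _
  set D : ℝ := 3 * E8 / be ^ 400 with hD
  have hDp : 0 < D := by positivity
  refine ⟨24 / xi * (D / xi ^ 2 + 1) + 16, by positivity, ?_⟩
  intro G _ _ g l e t n0 hst hl he0 he1 ht0 htl hn0 hn01
  obtain ⟨p, q, hp, hq, hpq, havv⟩ := hst.ex
  have hDp0 : 0 ≤ Df p := Df_nonneg hp
  have hDq0 : 0 ≤ Df q := Df_nonneg hq
  have hl0 : 0 < l := by linarith
  set K : ℝ := l / xi with hK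
  have hKp : 0 < K := div_pos hl0 hxi0
  have hKl : l ≤ K := by
    rw [hK, le_div_iff₀ hxi0]
    nlinarith
  have hlK : l = K * xi := by rw [hK]; field_simp
  -- the first Gibbs law
  set ph : G → ℝ := gib K (av g q) with hph
  obtain ⟨hphl, hphi⟩ := h2 G K (av g q) p hp
  have hph1 : Df ph + K * avv g ph q ≤ Df p + K * avv g p q := hphi
  have hDph0 : 0 ≤ Df ph := Df_nonneg hphl
  have hav1 : 0 ≤ avv g ph q := Step_avv_nonneg hst.g0 hphl hq
  have hb1 : K * avv g p q ≤ K * e := mul_le_mul_of_nonneg_left havv hKp.le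
  have hA1 : avv g ph q ≤ e + xi := by
    have : K * avv g ph q ≤ K * (e + xi) := by nlinarith
    exact le_of_mul_le_mul_left this hKp
  have hDph : Df ph ≤ 2 * K := by
    have h5 : 0 ≤ K * avv g ph q := mul_nonneg hKp.le hav1
    have h6 : K * e ≤ K := by nlinarith
    linarith
  -- the second Gibbs law
  set ch : G → ℝ := gib K (av g ph) with hch
  obtain ⟨hchl, hchi⟩ := h2 G K (av g ph) q hq
  have hch1 : Df ch + K * avv g ch ph ≤ Df q + K * avv g q ph := hchi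
  have hDch0 : 0 ≤ Df ch := Df_nonneg hchl
  have hA2 : avv g ph ch ≤ e + 2 * xi := by
    rw [Step_avv_comm g ph ch]
    rw [Step_avv_comm g q ph] at hch1
    have h7 : K * avv g ph q ≤ K * (e + xi) := mul_le_mul_of_nonneg_left hA1 hKp.le
    have : K * avv g ch ph ≤ K * (e + 2 * xi) := by nlinarith
    exact le_of_mul_le_mul_left this hKp
  -- the number of samples
  have hn0p : 0 < n0 ^ be := Real.rpow_pos_of_pos (by linarith) _
  have htp : 0 < t ^ (1 + be) := Real.rpow_pos_of_pos ht0 _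
  set A : ℝ := D * K ^ 2 * n0 ^ be / t ^ (1 + be) with hA
  have hAp : 0 < A := by positivity
  set N : ℕ := ⌈A⌉₊ with hN
  have hN1 : 1 ≤ N := Nat.one_le_iff_ne_zero.mpr (Nat.ceil_pos.mpr hAp).ne'
  have hNA : A ≤ (N : ℝ) := Nat.le_ceil A
  have hNA1 : (N : ℝ) < A + 1 := Nat.ceil_lt_add_one hAp.le
  have hNp : (0 : ℝ) < (N : ℝ) := lt_of_lt_of_le hAp hNA
  have hkey : ∀ d : ℝ, 1 / 3 * be ^ 400 * d ^ (1 + be) ≤ n0 ^ be * (K ^ 2 / N) → d ≤ t / 8 := by
    intro d hd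
    by_contra hlt
    push Not at hlt
    have h8 : (t / 8) ^ (1 + be) < d ^ (1 + be) :=
      Real.rpow_lt_rpow (by positivity) hlt (by linarith)
    have h9 : (t / 8) ^ (1 + be) = t ^ (1 + be) / E8 := by
      rw [Real.div_rpow ht0.le (by norm_num)]
    rw [h9] at h8
    have h10 : n0 ^ be * (K ^ 2 / N) ≤ n0 ^ be * (K ^ 2 / A) := by
      apply mul_le_mul_of_nonneg_left _ hn0p.le
      exact div_le_div_of_nonneg_left (by positivity) hAp hNA
    have h11 : n0 ^ be * (K ^ 2 / A) = 1 / 3 * be ^ 400 * (t ^ (1 + be) / E8) := by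
      rw [hA, hD]
      field_simp
    have h12 : 1 / 3 * be ^ 400 * (t ^ (1 + be) / E8) < 1 / 3 * be ^ 400 * d ^ (1 + be) :=
      mul_lt_mul_of_pos_left h8 (by positivity)
    linarith
  obtain ⟨W₁, hW1c, hW1d⟩ := h1 G hst.h2 be n0 K N g q hbe0 hbe1 hn0 hKp hN1 hst.g0 hst.g1 hq
  obtain ⟨W₂, hW2c, hW2d⟩ := h1 G hst.h2 be n0 K N g ph hbe0 hbe1 hn0 hKp hN1 hst.g0 hst.g1 hphl
  have hd1 : DW W₁ ph ≤ t / 8 := hkey _ hW1d
  have hd2 : DW W₂ ch ≤ t / 8 := hkey _ hW2d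
  have hm1 : DW (W₁ ⊓ W₂) ph ≤ DW W₁ ph := (h3 G (W₁ ⊓ W₂) W₁ ph hphl).2.2.1 inf_le_left
  have hm2 : DW (W₁ ⊓ W₂) ch ≤ DW W₂ ch := (h3 G (W₁ ⊓ W₂) W₂ ch hchl).2.2.1 inf_le_right
  obtain ⟨x, y, hx, hy, hxy, hav⟩ := h4 G hst.h2 (W₁ ⊓ W₂) g ph ch t (e + 2 * xi) hphl hchl
    hst.g0 ht0 (by linarith) (by linarith) hA2
  refine ⟨W₁ ⊓ W₂, x + y, ⟨?_, fun w => hst.g0 _, fun w => hst.g1 _, ?_⟩, ?_⟩
  · intro w
    apply Subtype.ext
    exact hst.h2 w.1
  · exact ⟨_, _, hx, hy, hxy, hav⟩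
  -- the codimension
  have hc0 := Step_cod_inf W₁ W₂
  have hend := Step_num be xi l t n0 D A K (N : ℝ) hbe0 hbe1 hxi0 hl ht0 htl hn01 rfl
    hK hNA1.le
  have hq1 : Df q + Df ph ≤ 3 * K := by linarith
  have hq2 : 8 * (N : ℝ) * (Df q + Df ph) ≤ 8 * (N : ℝ) * (3 * K) :=
    mul_le_mul_of_nonneg_left hq1 (by positivity)
  have hq3 : 8 * (N : ℝ) * (Df q + Df ph) = 8 * (N : ℝ) * Df q + 8 * (N : ℝ) * Df ph := by ring
  linarith

end Pool.Agent.BR
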