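import Pool.Agent.BR.Pairs

/-!
Theorem A: the minimiser of the functional has distance zero.
-/

set_option autoImplicit false

namespace Pool.Agent.BR

open Finset Real
open scoped Classical

private theorem ThmA_ent {Ω : Type} [Fintype Ω] : Continuous (fun p : Ω → ℝ => ent p) := by
  unfold ent
  exact continuous_finsetSum _ fun x _ => continuous_negMulLog.comp (continuous_apply x)

private theorem ThmA_conv {G : Type} [AddCommGroup G] [Fintype G] :
    Continuous (fun pq : (G → ℝ) × (G → ℝ) => conv pq.1 pq.2) := by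
  refine continuous_pi fun x => ?_
  unfold conv
  exact continuous_finsetSum _ fun y _ =>
    ((continuous_apply y).comp continuous_fst).mul ((continuous_apply (x + y)).comp continuous_snd)

/-- the functional up to an additive constant -/
noncomputable def ThmA_tau {G : Type} [AddCommGroup G] [Fintype G] (B : G → ℝ)
    (pq : (G → ℝ) × (G → ℝ)) : ℝ :=
  ent (conv pq.1 pq.2) - 7 / 16 * (ent pq.1 + ent pq.2) + 1 / 12 * (Ib B pq.1 + Ib B pq.2)

private theorem ThmA_Ib {G : Type} [AddCommGroup G] [Fintype G] (B : G → ℝ) :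
    Continuous (fun p : G → ℝ => Ib B p) := by
  unfold Ib
  have h1 : Continuous (fun p : G → ℝ => conv p B) :=
    ThmA_conv.comp (continuous_id.prodMk continuous_const)
  exact (ThmA_ent.comp h1).sub ThmA_ent

private theorem ThmA_tau_cont {G : Type} [AddCommGroup G] [Fintype G] (B : G → ℝ) :
    Continuous (ThmA_tau B) := by
  unfold ThmA_tau
  have h1 : Continuous (fun pq : (G → ℝ) × (G → ℝ) => ent pq.1) := ThmA_ent.comp continuous_fst
  have h2 : Continuous (fun pq : (G → ℝ) × (G → ℝ) => ent pq.2) := ThmA_ent.comp continuous_snd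
  have h3 : Continuous (fun pq : (G → ℝ) × (G → ℝ) => Ib B pq.1) :=
    (ThmA_Ib B).comp continuous_fst
  have h4 : Continuous (fun pq : (G → ℝ) × (G → ℝ) => Ib B pq.2) :=
    (ThmA_Ib B).comp continuous_snd
  have h5 : Continuous (fun pq : (G → ℝ) × (G → ℝ) => ent (conv pq.1 pq.2)) :=
    ThmA_ent.comp ThmA_conv
  exact (h5.sub (continuous_const.mul (h1.add h2))).add (continuous_const.mul (h3.add h4))

private theorem ThmA_min {G : Type} [AddCommGroup G] [Fintype G] (B p₀ q₀ : G → ℝ)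
    (hp₀ : IsLaw p₀) (hq₀ : IsLaw q₀) : ∃ p q : G → ℝ, IsLaw p ∧ IsLaw q ∧
    ∀ p' q' : G → ℝ, IsLaw p' → IsLaw q' → ThmA_tau B (p, q) ≤ ThmA_tau B (p', q') := by
  have hK : IsCompact (stdSimplex ℝ G ×ˢ stdSimplex ℝ G) :=
    (isCompact_stdSimplex ℝ G).prod (isCompact_stdSimplex ℝ G)
  have hmem : ∀ {p : G → ℝ}, IsLaw p → p ∈ stdSimplex ℝ G := fun h => ⟨h.nn, h.sum⟩
  obtain ⟨⟨p, q⟩, ⟨hp, hq⟩, hmin⟩ := hK.exists_isMinOn
    ⟨(p₀, q₀), hmem hp₀, hmem hq₀⟩ (ThmA_tau_cont B).continuousOn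
  exact ⟨p, q, ⟨hp.1, hp.2⟩, ⟨hq.1, hq.2⟩, fun p' q' hp' hq' =>
    hmin (show (p', q') ∈ stdSimplex ℝ G ×ˢ stdSimplex ℝ G from ⟨hmem hp', hmem hq'⟩)⟩

theorem thm_ThmA (hT : St_PairT) (hZ : St_DZero) (hC : St_Coset) : St_ThmA := by
  intro G _ _ h2 B p₀ q₀ hB hS hp₀ hq₀
  obtain ⟨p, q, hp, hq, hmin⟩ := ThmA_min B p₀ q₀ hp₀ hq₀
  have hPI : PIneq B (-ThmA_tau B (p, q)) (-(7 / 16)) 1 (1 / 12) := by
    intro p' q' hp' hq'
    have h := hmin p' q' hp' hq'
    unfold ThmA_tau at h ⊢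
    simp only at h ⊢
    linarith
  obtain ⟨hS1, hS2⟩ := thm_PairS G h2 B p q hB hp hq _ _ _ _ (by norm_num) hPI
  obtain ⟨hC1, hC2⟩ := thm_PairC G h2 B p q hB hp hq _ _ _ _ (by norm_num) hPI
  have hT1 := hT G h2 B p q hB hp hq _ _ _ _ (by norm_num) (by norm_num) hPI
  obtain ⟨hM1, hM2⟩ := thm_Mutual G h2 p q hp hq
  have hk1 := ent_le_conv h2 hp hq
  have hk2 := ent_le_conv' h2 hp hq
  have hk3 : ent (conv p q) ≤ h4 p q := ent_le_conv h2 (conv_law hp hq) (conv_law hp hq)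
  have m1 := min_le_right (2 * (Ib B p + Ib B q))
    (Ib B p + Ib B q + 2 * ent (conv p q) - ent p - ent q)
  have m2 := min_le_right (2 * (Ib B p + Ib B q))
    (Ib B p + Ib B q + ent (conv p p) + ent (conv q q) - ent p - ent q)
  have hdd : dd p q ≤ 0 := by
    unfold dd
    unfold ThmA_tau at hS1 hS2 hC1 hC2 hT1
    simp only at hS1 hS2 hC1 hC2 hT1
    linarith
  obtain ⟨W, a, b, hWa, hWb⟩ := hZ G h2 p q hp hq hdd
  obtain ⟨e1, e2⟩ := hC G h2 B p W a hB hWa
  obtain ⟨e3, e4⟩ := hC G h2 B q W b hB hWb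
  have hsp := hS W
  unfold cod at hsp
  have hm0 := hmin p₀ q₀ hp₀ hq₀
  unfold ThmA_tau at hm0
  simp only at hm0
  unfold dd Df
  rw [e1, e2, e3, e4] at hm0
  rw [e1] at hk1
  linarith

end Pool.Agent.BR
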