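import Pool.Agent.BR.Pairs

/-!
Theorem B: strong data processing for spread laws.
-/

set_option autoImplicit false

namespace Pool.Agent.BR

open Finset Real
open scoped Classical

/-- The potential, first branch. -/
noncomputable def thmB_F (be a s : ℝ) : ℝ := a ^ (1 + be - 400) * s ^ 400

/-- The potential. -/
noncomputable def thmB_Phi (be a s : ℝ) : ℝ := max (thmB_F be a s) (be ^ 400 * a ^ (1 + be))

theorem thmB_two {be : ℝ} (h0 : 0 < be) (h1 : be ≤ 1 / 5) : 2 < (2 - be) ^ (1 + be) := by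
  have hp : 0 < 2 - be := by linarith
  have e1 : log (2 - be) = log 2 + log ((2 - be) / 2) := by
    rw [log_div hp.ne' (by norm_num)]; ring
  have e2 : 1 - ((2 - be) / 2)⁻¹ ≤ log ((2 - be) / 2) := one_sub_inv_le_log_of_pos (by positivity)
  have e3 : 1 - ((2 - be) / 2)⁻¹ = -(be / (2 - be)) := by
    field_simp
    ring
  have e4 := log_two_gt_d9
  have e5 : be / (2 - be) ≤ be * (5 / 9) := by
    rw [div_le_iff₀ hp]
    nlinarith
  have h : log 2 < (1 + be) * log (2 - be) := by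
    rw [e1]
    have e6 : -(be * (5 / 9)) ≤ log ((2 - be) / 2) := by linarith
    nlinarith
  rw [rpow_def_of_pos hp]
  calc (2 : ℝ) = exp (log 2) := (exp_log (by norm_num)).symm
    _ < exp (log (2 - be) * (1 + be)) := exp_lt_exp.2 (by linarith)

theorem thmB_F_nonneg {be a s : ℝ} (ha : 0 ≤ a) (hs : 0 ≤ s) : 0 ≤ thmB_F be a s :=
  mul_nonneg (rpow_nonneg ha _) (pow_nonneg hs _)

theorem thmB_tan1 (h3 : St_Tan) {be a s a0 s0 : ℝ} (hb : 0 < be) (hb1 : be ≤ 1 / 5)
    (ha : 0 < a) (hs : 0 ≤ s) (ha0 : 0 < a0) (hs0 : 0 < s0) :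
    thmB_F be a0 s0 * ((1 + be - 400) * (a / a0) + 400 * (s / s0) - be) ≤ thmB_F be a s := by
  have h := (h3 be a s a0 s0 400 hb (by linarith) (by norm_num) ha hs ha0 hs0).1
  simp only [Nat.cast_ofNat] at h
  exact h

theorem thmB_tan2 (h3 : St_Tan) {be a a0 : ℝ} (hb : 0 < be) (hb1 : be ≤ 1 / 5)
    (ha : 0 < a) (ha0 : 0 < a0) :
    a0 ^ (1 + be) * ((1 + be) * (a / a0) - be) ≤ a ^ (1 + be) :=
  (h3 be a 1 a0 1 400 hb (by linarith) (by norm_num) ha (by norm_num) ha0 (by norm_num)).2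

variable {G : Type} [AddCommGroup G] [Fintype G]

/-- The functional. -/
noncomputable def thmB_J (e : ℝ) (B p q : G → ℝ) : ℝ :=
  (Ib B p + Ib B q) / 2 + e * ((Df p + Df q) / 2)

/-- The basic inequality. -/
def thmB_Hyp (be e Q : ℝ) (B : G → ℝ) : Prop := ∀ p q : G → ℝ, IsLaw p → IsLaw q →
  0 < (Df p + Df q) / 2 →
  Q * thmB_Phi be ((Df p + Df q) / 2) (Df (conv p q)) ≤ thmB_J e B p q

theorem thmB_J_nonneg (h2 : ∀ x : G, x + x = 0) {e : ℝ} (he : 0 ≤ e) {B p q : G → ℝ}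
    (hB : IsLaw B) (hp : IsLaw p) (hq : IsLaw q) : 0 ≤ thmB_J e B p q := by
  have h1 := Ib_nonneg h2 hB hp
  have h3 := Ib_nonneg h2 hB hq
  have h4 := Df_nonneg hp
  have h5 := Df_nonneg hq
  unfold thmB_J
  have : 0 ≤ e * ((Df p + Df q) / 2) := mul_nonneg he (by linarith)
  linarith

theorem thmB_PI1 (h2 : ∀ x : G, x + x = 0) (h3 : St_Tan) {be e Q a0 s0 : ℝ} {B : G → ℝ}
    (hB : IsLaw B) (hb : 0 < be) (hb1 : be ≤ 1 / 5) (he : 0 ≤ e) (hQ : 0 ≤ Q)
    (hyp : thmB_Hyp be e Q B) (ha0 : 0 < a0) (hs0 : 0 < s0) :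
    PIneq B (e * log (Fintype.card G) - Q * thmB_F be a0 s0 *
      ((1 + be - 400) * (log (Fintype.card G) / a0) + 400 * (log (Fintype.card G) / s0) - be))
      (-e / 2 + Q * thmB_F be a0 s0 * (1 + be - 400) / (2 * a0))
      (Q * thmB_F be a0 s0 * 400 / s0) (1 / 2) := by
  intro p q hp hq
  have hF0 := thmB_F_nonneg (be := be) ha0.le hs0.le
  have hsn := Df_nonneg (conv_law hp hq)
  have hsp := Df_conv_le h2 hp hq
  have hpn := Df_nonneg hp
  have hqn := Df_nonneg hq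
  have hsq : Df (conv p q) ≤ Df q := by
    rw [conv_comm h2]
    exact Df_conv_le h2 hq hp
  have key : Q * thmB_F be a0 s0 * ((1 + be - 400) * (((Df p + Df q) / 2) / a0) +
      400 * (Df (conv p q) / s0) - be) ≤ thmB_J e B p q := by
    have ha : 0 ≤ (Df p + Df q) / 2 := by linarith
    rcases ha.eq_or_lt with h0 | h0
    · have hs : Df (conv p q) = 0 := by linarith
      rw [← h0, hs]
      have h1 := thmB_J_nonneg h2 he hB hp hq
      have h4 : 0 ≤ Q * thmB_F be a0 s0 * be := by positivity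
      simp only [zero_div, mul_zero, zero_add, zero_sub]
      linarith
    · refine le_trans ?_ (hyp p q hp hq h0)
      rw [mul_assoc]
      refine mul_le_mul_of_nonneg_left ?_ hQ
      exact (thmB_tan1 h3 hb hb1 h0 hsn ha0 hs0).trans (le_max_left _ _)
  have e1 : (e * log (Fintype.card G) - Q * thmB_F be a0 s0 *
      ((1 + be - 400) * (log (Fintype.card G) / a0) + 400 * (log (Fintype.card G) / s0) - be)) +
      (-e / 2 + Q * thmB_F be a0 s0 * (1 + be - 400) / (2 * a0)) * (ent p + ent q) +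
      (Q * thmB_F be a0 s0 * 400 / s0) * ent (conv p q) + (1 / 2) * (Ib B p + Ib B q) =
      thmB_J e B p q - Q * thmB_F be a0 s0 * ((1 + be - 400) * (((Df p + Df q) / 2) / a0) +
      400 * (Df (conv p q) / s0) - be) := by
    unfold thmB_J Df
    field_simp
    ring
  rw [e1]
  linarith

theorem thmB_PI2 (h2 : ∀ x : G, x + x = 0) (h3 : St_Tan) {be e Q a0 : ℝ} {B : G → ℝ}
    (hB : IsLaw B) (hb : 0 < be) (hb1 : be ≤ 1 / 5) (he : 0 ≤ e) (hQ : 0 ≤ Q)
    (hyp : thmB_Hyp be e Q B) (ha0 : 0 < a0) :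
    PIneq B (e * log (Fintype.card G) - Q * (be ^ 400 * a0 ^ (1 + be)) *
      ((1 + be) * (log (Fintype.card G) / a0) - be))
      (-e / 2 + Q * (be ^ 400 * a0 ^ (1 + be)) * (1 + be) / (2 * a0)) 0 (1 / 2) := by
  intro p q hp hq
  have hF0 : 0 ≤ be ^ 400 * a0 ^ (1 + be) := by positivity
  have hpn := Df_nonneg hp
  have hqn := Df_nonneg hq
  have key : Q * (be ^ 400 * a0 ^ (1 + be)) * ((1 + be) * (((Df p + Df q) / 2) / a0) - be) ≤
      thmB_J e B p q := by
    have ha : 0 ≤ (Df p + Df q) / 2 := by linarith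
    rcases ha.eq_or_lt with h0 | h0
    · rw [← h0]
      have h1 := thmB_J_nonneg h2 he hB hp hq
      have h4 : 0 ≤ Q * (be ^ 400 * a0 ^ (1 + be)) * be := by positivity
      simp only [zero_div, mul_zero, zero_sub]
      linarith
    · refine le_trans ?_ (hyp p q hp hq h0)
      rw [mul_assoc]
      refine mul_le_mul_of_nonneg_left ?_ hQ
      refine le_trans ?_ (le_max_right _ _)
      rw [mul_assoc]
      exact mul_le_mul_of_nonneg_left (thmB_tan2 h3 hb hb1 h0 ha0) (by positivity)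
  have e1 : (e * log (Fintype.card G) - Q * (be ^ 400 * a0 ^ (1 + be)) *
      ((1 + be) * (log (Fintype.card G) / a0) - be)) +
      (-e / 2 + Q * (be ^ 400 * a0 ^ (1 + be)) * (1 + be) / (2 * a0)) * (ent p + ent q) +
      0 * ent (conv p q) + (1 / 2) * (Ib B p + Ib B q) =
      thmB_J e B p q - Q * (be ^ 400 * a0 ^ (1 + be)) *
        ((1 + be) * (((Df p + Df q) / 2) / a0) - be) := by
    unfold thmB_J Df
    field_simp
    ring
  rw [e1]
  linarith

/-- What the basic inequality gives for a derived (averaged) pair. -/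
theorem thmB_derive (h2 : ∀ x : G, x + x = 0) (h3 : St_Tan) {be e Q : ℝ} {B : G → ℝ}
    (hB : IsLaw B) (hb : 0 < be) (hb1 : be ≤ 1 / 5) (he : 0 ≤ e) (hQ : 0 ≤ Q)
    (hyp : thmB_Hyp be e Q B) {E2 V Im A S : ℝ}
    (hD : ∀ c₀ c₁ c₂ c₃ : ℝ, 0 ≤ c₂ → 0 ≤ c₃ → PIneq B c₀ c₁ c₂ c₃ →
      0 ≤ c₀ + c₁ * E2 + c₂ * V + c₃ * Im)
    (hA : A = log (Fintype.card G) - E2 / 2) (hS : S = log (Fintype.card G) - V)
    (hA0 : 0 < A) (hS0 : 0 ≤ S) :
    Q * thmB_F be A S ≤ Im / 2 + e * A ∧ Q * (be ^ 400 * A ^ (1 + be)) ≤ Im / 2 + e * A := by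
  have hE : E2 = 2 * (log (Fintype.card G) - A) := by rw [hA]; ring
  have hV : V = log (Fintype.card G) - S := by rw [hS]; ring
  have i2 : Q * (be ^ 400 * A ^ (1 + be)) ≤ Im / 2 + e * A := by
    have h := hD _ _ _ _ le_rfl (by norm_num)
      (thmB_PI2 h2 h3 hB hb hb1 he hQ hyp hA0)
    rw [hE] at h
    have e1 : e * log (Fintype.card G) - Q * (be ^ 400 * A ^ (1 + be)) *
        ((1 + be) * (log (Fintype.card G) / A) - be) +
        (-e / 2 + Q * (be ^ 400 * A ^ (1 + be)) * (1 + be) / (2 * A)) *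
          (2 * (log (Fintype.card G) - A)) + 0 * V + 1 / 2 * Im =
        Im / 2 + e * A - Q * (be ^ 400 * A ^ (1 + be)) := by
      field_simp
      ring
    rw [e1] at h
    linarith
  refine ⟨?_, i2⟩
  rcases hS0.eq_or_lt with h0 | h0
  · have : thmB_F be A S = 0 := by
      unfold thmB_F
      rw [← h0]
      norm_num
    rw [this, mul_zero]
    refine le_trans ?_ i2
    positivity
  · have hF0 := thmB_F_nonneg (be := be) hA0.le h0.le
    have h := hD _ _ _ _ (by positivity) (by norm_num)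
      (thmB_PI1 h2 h3 hB hb hb1 he hQ hyp hA0 h0)
    rw [hE, hV] at h
    have e1 : e * log (Fintype.card G) - Q * thmB_F be A S *
        ((1 + be - 400) * (log (Fintype.card G) / A) + 400 * (log (Fintype.card G) / S) - be) +
        (-e / 2 + Q * thmB_F be A S * (1 + be - 400) / (2 * A)) *
          (2 * (log (Fintype.card G) - A)) +
        Q * thmB_F be A S * 400 / S * (log (Fintype.card G) - S) + 1 / 2 * Im =
        Im / 2 + e * A - Q * thmB_F be A S := by
      field_simp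
      ring
    rw [e1] at h
    linarith

theorem thmB_PhiF {be a s : ℝ} (hb : 0 < be) (ha : 0 < a) (h : be * a ≤ s) :
    thmB_Phi be a s = thmB_F be a s := by
  unfold thmB_Phi
  refine max_eq_left ?_
  have h5 : (be * a) ^ 400 ≤ s ^ 400 := pow_le_pow_left₀ (by positivity) h 400
  have h6 : a ^ (1 + be) = a ^ (1 + be - 400) * a ^ 400 := by
    rw [← rpow_natCast a 400, ← rpow_add ha]
    congr 1
    push_cast
    ring
  have h7 := mul_le_mul_of_nonneg_left h5 (rpow_nonneg ha.le (1 + be - 400))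
  rw [mul_pow] at h7
  rw [h6]
  unfold thmB_F
  linarith

theorem thmB_PhiP {be a s : ℝ} (ha : 0 < a) (hs : 0 ≤ s) (h : s ≤ be * a) :
    thmB_Phi be a s = be ^ 400 * a ^ (1 + be) := by
  unfold thmB_Phi
  refine max_eq_right ?_
  have h5 : s ^ 400 ≤ (be * a) ^ 400 := pow_le_pow_left₀ hs h 400
  have h6 : a ^ (1 + be) = a ^ (1 + be - 400) * a ^ 400 := by
    rw [← rpow_natCast a 400, ← rpow_add ha]
    congr 1
    push_cast
    ring
  have h7 := mul_le_mul_of_nonneg_left h5 (rpow_nonneg ha.le (1 + be - 400))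
  rw [mul_pow] at h7
  rw [h6]
  unfold thmB_F
  linarith

theorem thmB_num (h4 : St_Num) {be a s sg sC s2 mu : ℝ} (h0 : 0 < be) (h1 : be ≤ 1 / 5)
    (h2 : 0 < a) (h3 : be * a ≤ s) (h5 : s ≤ a) (h6 : 0 ≤ sg) (h7 : sg ≤ s) (h8 : 0 ≤ mu)
    (h9 : mu ≤ 1) (h10 : s ≤ sC) (h11 : 0 ≤ s2)
    (hS : thmB_F be s sg ≤ exp 1 * thmB_F be a s)
    (hC : thmB_F be (2 * a - s) sC ≤ exp 1 * thmB_F be a s)
    (hS2 : 0 < mu → thmB_F be (mu * a) sg ≤ exp 1 * thmB_F be a s)
    (hm : mu = 0 → sg = 0)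
    (hC2 : thmB_F be ((2 - mu) * a) s2 ≤ exp 1 * thmB_F be a s)
    (hT : ∀ sT : ℝ, 0 < sT → sT = sC - (sg + sC - 2 * s) - 2 * (sg + s2 - 2 * s) →
      thmB_F be sC sT ≤ exp 1 * thmB_F be a s) : 24 * (a - s) ≤ a := by
  unfold thmB_F at hS hC hS2 hC2 hT
  exact h4 be a s sg sC s2 mu h0 h1 h2 h3 h5 h6 h7 h8 h9 h10 h11 hS hC hS2 hm hC2 hT

theorem thmB_fin {Q kap Jv F X c : ℝ} (hQ : 0 < Q) (hF : 0 ≤ F) (hk : c * kap ≤ exp 1)
    (hc : 0 ≤ c) (hnear : Jv ≤ kap * (Q * F)) (hX : Q * X ≤ c * Jv) : X ≤ exp 1 * F := by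
  have h1 : c * Jv ≤ c * (kap * (Q * F)) := mul_le_mul_of_nonneg_left hnear hc
  have h2 : c * kap * (Q * F) ≤ exp 1 * (Q * F) :=
    mul_le_mul_of_nonneg_right hk (mul_nonneg hQ.le hF)
  have h3 : Q * X ≤ Q * (exp 1 * F) := by linarith
  exact le_of_mul_le_mul_left h3 hQ

section near

variable (h2 : ∀ x : G, x + x = 0) (h3 : St_Tan) {be e Q : ℝ} {B p q : G → ℝ}

include h2 h3

theorem thmB_pC (hB : IsLaw B) (hb : 0 < be) (hb1 : be ≤ 1 / 5) (he : 0 ≤ e) (hQ : 0 ≤ Q)
    (hyp : thmB_Hyp be e Q B) (hp : IsLaw p) (hq : IsLaw q) (ha : 0 < (Df p + Df q) / 2) :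
    Q * thmB_F be (2 * ((Df p + Df q) / 2) - Df (conv p q))
      (log (Fintype.card G) - (J p q - 2 * ent (conv p q))) ≤ 2 * thmB_J e B p q ∧
    Q * (be ^ 400 * (2 * ((Df p + Df q) / 2) - Df (conv p q)) ^ (1 + be)) ≤
      2 * thmB_J e B p q := by
  have hsn := Df_nonneg (conv_law hp hq)
  have hsp := Df_conv_le h2 hp hq
  have hsq : Df (conv p q) ≤ Df q := by
    rw [conv_comm h2]
    exact Df_conv_le h2 hq hp
  obtain ⟨m1, -⟩ := thm_Mutual G h2 p q hp hq
  have h12 : ent (conv p q) ≤ h4 p q :=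
    ent_le_conv h2 (conv_law hp hq) (conv_law hp hq)
  have h13 : ent (conv p q) ≤ log (Fintype.card G) := ent_le_log (conv_law hp hq)
  have hC := thmB_derive h2 h3 hB hb hb1 he hQ hyp
    (E2 := 2 * (ent p + ent q - ent (conv p q))) (V := J p q - 2 * ent (conv p q))
    (Im := 2 * (Ib B p + Ib B q)) (A := 2 * ((Df p + Df q) / 2) - Df (conv p q))
    (S := log (Fintype.card G) - (J p q - 2 * ent (conv p q)))
    (fun c₀ c₁ c₂ c₃ hc2 hc3 hPI => by
      have h := (thm_PairC G h2 B p q hB hp hq c₀ c₁ c₂ c₃ hc3 hPI).1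
      have h5 := mul_le_mul_of_nonneg_left (min_le_left (2 * (Ib B p + Ib B q))
        (Ib B p + Ib B q + 2 * ent (conv p q) - ent p - ent q)) hc3
      linarith)
    (by unfold Df; ring) rfl (by linarith) (by linarith)
  have hJ2 : 2 * (Ib B p + Ib B q) / 2 + e * (2 * ((Df p + Df q) / 2) - Df (conv p q)) ≤
      2 * thmB_J e B p q := by
    unfold thmB_J
    have : 0 ≤ e * Df (conv p q) := mul_nonneg he hsn
    linarith
  exact ⟨hC.1.trans hJ2, hC.2.trans hJ2⟩

theorem thmB_pS (hB : IsLaw B) (hb : 0 < be) (hb1 : be ≤ 1 / 5) (he : 0 ≤ e) (hQ : 0 ≤ Q)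
    (hyp : thmB_Hyp be e Q B) (hp : IsLaw p) (hq : IsLaw q) (hs : 0 < Df (conv p q)) :
    Q * thmB_F be (Df (conv p q)) (log (Fintype.card G) - h4 p q) ≤ 1 * thmB_J e B p q := by
  have hsp := Df_conv_le h2 hp hq
  have hsq : Df (conv p q) ≤ Df q := by
    rw [conv_comm h2]
    exact Df_conv_le h2 hq hp
  have hh4 : h4 p q ≤ log (Fintype.card G) :=
    ent_le_log (conv_law (conv_law hp hq) (conv_law hp hq))
  have hS := thmB_derive h2 h3 hB hb hb1 he hQ hyp
    (E2 := 2 * ent (conv p q)) (V := h4 p q)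
    (Im := Ib B p + Ib B q) (A := Df (conv p q)) (S := log (Fintype.card G) - h4 p q)
    (fun c₀ c₁ c₂ c₃ hc2 hc3 hPI =>
      (thm_PairS G h2 B p q hB hp hq c₀ c₁ c₂ c₃ hc3 hPI).1)
    (by unfold Df; ring) rfl hs (by linarith)
  refine hS.1.trans ?_
  unfold thmB_J
  have : e * Df (conv p q) ≤ e * ((Df p + Df q) / 2) :=
    mul_le_mul_of_nonneg_left (by linarith) he
  linarith

theorem thmB_pS2 (hB : IsLaw B) (hb : 0 < be) (hb1 : be ≤ 1 / 5) (he : 0 ≤ e) (hQ : 0 ≤ Q)
    (hyp : thmB_Hyp be e Q B) (hp : IsLaw p) (hq : IsLaw q)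
    (hs : 0 < (Df (conv p p) + Df (conv q q)) / 2) :
    Q * thmB_F be ((Df (conv p p) + Df (conv q q)) / 2) (log (Fintype.card G) - h4 p q) ≤
      1 * thmB_J e B p q := by
  have h11 := Df_conv_le h2 hp hp
  have h22 := Df_conv_le h2 hq hq
  have hh4 : h4 p q ≤ log (Fintype.card G) :=
    ent_le_log (conv_law (conv_law hp hq) (conv_law hp hq))
  have hS := thmB_derive h2 h3 hB hb hb1 he hQ hyp
    (E2 := ent (conv p p) + ent (conv q q)) (V := h4 p q)
    (Im := Ib B p + Ib B q) (A := (Df (conv p p) + Df (conv q q)) / 2)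
    (S := log (Fintype.card G) - h4 p q)
    (fun c₀ c₁ c₂ c₃ hc2 hc3 hPI =>
      (thm_PairS G h2 B p q hB hp hq c₀ c₁ c₂ c₃ hc3 hPI).2)
    (by unfold Df; ring) rfl hs (by linarith)
  refine hS.1.trans ?_
  unfold thmB_J
  have : e * ((Df (conv p p) + Df (conv q q)) / 2) ≤ e * ((Df p + Df q) / 2) :=
    mul_le_mul_of_nonneg_left (by linarith) he
  linarith

theorem thmB_pC2 (hB : IsLaw B) (hb : 0 < be) (hb1 : be ≤ 1 / 5) (he : 0 ≤ e) (hQ : 0 ≤ Q)
    (hyp : thmB_Hyp be e Q B) (hp : IsLaw p) (hq : IsLaw q) (ha : 0 < (Df p + Df q) / 2) :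
    Q * thmB_F be (2 * ((Df p + Df q) / 2) - (Df (conv p p) + Df (conv q q)) / 2)
      (log (Fintype.card G) - (J p q - ent (conv p p) - ent (conv q q))) ≤
      2 * thmB_J e B p q := by
  have h11 := Df_conv_le h2 hp hp
  have h22 := Df_conv_le h2 hq hq
  have h11n := Df_nonneg (conv_law hp hp)
  have h22n := Df_nonneg (conv_law hq hq)
  obtain ⟨-, m2⟩ := thm_Mutual G h2 p q hp hq
  have h12 : ent (conv p q) ≤ h4 p q :=
    ent_le_conv h2 (conv_law hp hq) (conv_law hp hq)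
  have h13 : ent (conv p q) ≤ log (Fintype.card G) := ent_le_log (conv_law hp hq)
  have hC := thmB_derive h2 h3 hB hb hb1 he hQ hyp
    (E2 := 2 * ent p + 2 * ent q - ent (conv p p) - ent (conv q q))
    (V := J p q - ent (conv p p) - ent (conv q q))
    (Im := 2 * (Ib B p + Ib B q))
    (A := 2 * ((Df p + Df q) / 2) - (Df (conv p p) + Df (conv q q)) / 2)
    (S := log (Fintype.card G) - (J p q - ent (conv p p) - ent (conv q q)))
    (fun c₀ c₁ c₂ c₃ hc2 hc3 hPI => by
      have h := (thm_PairC G h2 B p q hB hp hq c₀ c₁ c₂ c₃ hc3 hPI).2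
      have h5 := mul_le_mul_of_nonneg_left (min_le_left (2 * (Ib B p + Ib B q))
        (Ib B p + Ib B q + ent (conv p p) + ent (conv q q) - ent p - ent q)) hc3
      linarith)
    (by unfold Df; ring) rfl (by linarith) (by linarith)
  refine hC.1.trans ?_
  unfold thmB_J
  have : 0 ≤ e * ((Df (conv p p) + Df (conv q q)) / 2) := mul_nonneg he (by linarith)
  linarith

omit h3 in
theorem thmB_Jge (hB : IsLaw B) (hp : IsLaw p) (hq : IsLaw q) :
    ent p + ent q + ent (conv p q) ≤ J p q := by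
  have h7 := (thm_PairC G h2 B p q hB hp hq 0 (-1 / 2) 1 0 le_rfl
    (fun p' q' hp' hq' => by
      have u1 := ent_le_conv h2 hp' hq'
      have u2 := ent_le_conv' h2 hp' hq'
      linarith)).1
  linarith

theorem thmB_pT (h1 : St_PairT) (hB : IsLaw B) (hb : 0 < be) (hb1 : be ≤ 1 / 5) (he : 0 ≤ e)
    (hQ : 0 ≤ Q) (hyp : thmB_Hyp be e Q B) (hp : IsLaw p) (hq : IsLaw q)
    (hs : 0 < Df (conv p q)) (sT : ℝ) (hsT0 : 0 < sT)
    (hsT : sT = log (Fintype.card G) - (6 * ent (conv p q) + 2 * ent (conv p p) +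
      2 * ent (conv q q) - 2 * J p q - 3 * h4 p q)) :
    Q * thmB_F be (log (Fintype.card G) - (J p q - 2 * ent (conv p q))) sT ≤
      2 * thmB_J e B p q := by
  obtain ⟨m1, -⟩ := thm_Mutual G h2 p q hp hq
  have h12 : ent (conv p q) ≤ h4 p q :=
    ent_le_conv h2 (conv_law hp hq) (conv_law hp hq)
  have h13 : ent (conv p q) ≤ log (Fintype.card G) := ent_le_log (conv_law hp hq)
  have hs' : 0 < log (Fintype.card G) - ent (conv p q) := hs
  have hJge := thmB_Jge h2 hB hp hq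
  have h := (thmB_derive h2 h3 hB hb hb1 he hQ hyp
    (E2 := 2 * (J p q - 2 * ent (conv p q)))
    (V := 6 * ent (conv p q) + 2 * ent (conv p p) + 2 * ent (conv q q) - 2 * J p q -
      3 * h4 p q)
    (Im := 2 * (Ib B p + Ib B q)) (A := log (Fintype.card G) - (J p q - 2 * ent (conv p q)))
    (S := sT)
    (fun c₀ c₁ c₂ c₃ hc2 hc3 hPI => by
      have h := h1 G h2 B p q hB hp hq c₀ c₁ c₂ c₃ hc2 hc3 hPI
      have h5 := mul_le_mul_of_nonneg_left (min_le_left (2 * (Ib B p + Ib B q))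
        (Ib B p + Ib B q + 2 * ent (conv p q) - ent p - ent q)) hc3
      linarith)
    (by ring) hsT (by linarith) hsT0.le).1
  refine h.trans ?_
  unfold thmB_J
  have h6 : e * (log (Fintype.card G) - (J p q - 2 * ent (conv p q))) ≤ e * (Df p + Df q) := by
    refine mul_le_mul_of_nonneg_left ?_ he
    unfold Df
    linarith
  linarith

/-- The heart: a near minimiser has `24 (a - s) ≤ a`. -/
theorem thmB_near (h1 : St_PairT) (h4' : St_Num) {kap : ℝ}
    (hB : IsLaw B) (hb : 0 < be) (hb1 : be ≤ 1 / 5) (he : 0 ≤ e) (hQ : 0 < Q)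
    (hyp : thmB_Hyp be e Q B) (hp : IsLaw p) (hq : IsLaw q) (hk1 : kap ≤ exp 1 / 2)
    (hk0 : 1 ≤ kap)
    (hk2 : 2 * kap < (2 - be) ^ (1 + be)) (ha : 0 < (Df p + Df q) / 2)
    (hnear : thmB_J e B p q ≤ kap * (Q * thmB_Phi be ((Df p + Df q) / 2) (Df (conv p q)))) :
    24 * ((Df p + Df q) / 2 - Df (conv p q)) ≤ (Df p + Df q) / 2 := by
  have hsn := Df_nonneg (conv_law hp hq)
  have hsp := Df_conv_le h2 hp hq
  have hsq : Df (conv p q) ≤ Df q := by
    rw [conv_comm h2]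
    exact Df_conv_le h2 hq hp
  have hC := thmB_pC h2 h3 hB hb hb1 he hQ.le hyp hp hq ha
  by_cases hlam : be * ((Df p + Df q) / 2) ≤ Df (conv p q)
  · rw [thmB_PhiF hb ha hlam] at hnear
    have hFn := thmB_F_nonneg (be := be) ha.le hsn
    have hs0 : 0 < Df (conv p q) := lt_of_lt_of_le (by positivity) hlam
    obtain ⟨m1, m2⟩ := thm_Mutual G h2 p q hp hq
    have h12 : ent (conv p q) ≤ h4 p q :=
      ent_le_conv h2 (conv_law hp hq) (conv_law hp hq)
    have hh4 : h4 p q ≤ log (Fintype.card G) :=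
      ent_le_log (conv_law (conv_law hp hq) (conv_law hp hq))
    have h11n := Df_nonneg (conv_law hp hp)
    have h22n := Df_nonneg (conv_law hq hq)
    have h11 := Df_conv_le h2 hp hp
    have h22 := Df_conv_le h2 hq hq
    have e12 : ent (conv p q) = log (Fintype.card G) - Df (conv p q) := by unfold Df; ring
    have e11 : ent (conv p p) = log (Fintype.card G) - Df (conv p p) := by unfold Df; ring
    have e22 : ent (conv q q) = log (Fintype.card G) - Df (conv q q) := by unfold Df; ring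
    set mu : ℝ := (Df (conv p p) + Df (conv q q)) / 2 / ((Df p + Df q) / 2) with hmu
    have hmua : mu * ((Df p + Df q) / 2) = (Df (conv p p) + Df (conv q q)) / 2 :=
      div_mul_cancel₀ _ ha.ne'
    have hmu0 : 0 ≤ mu := div_nonneg (by linarith) ha.le
    have hmu1 : mu ≤ 1 := by
      rw [hmu, div_le_one ha]
      linarith
    refine thmB_num h4' (be := be) (sg := log (Fintype.card G) - h4 p q)
      (sC := log (Fintype.card G) - (J p q - 2 * ent (conv p q)))
      (s2 := log (Fintype.card G) - (J p q - ent (conv p p) - ent (conv q q))) (mu := mu)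
      hb hb1 ha hlam (by linarith) (by linarith) (by linarith) hmu0 hmu1 (by linarith)
      (by linarith) ?_ ?_ ?_ ?_ ?_ ?_
    · exact thmB_fin hQ hFn (by linarith [exp_pos 1]) (by norm_num) hnear
        (thmB_pS h2 h3 hB hb hb1 he hQ.le hyp hp hq hs0)
    · exact thmB_fin hQ hFn (by linarith) (by norm_num) hnear hC.1
    · intro hm
      rw [hmua]
      refine thmB_fin hQ hFn (by linarith [exp_pos 1]) (by norm_num) hnear
        (thmB_pS2 h2 h3 hB hb hb1 he hQ.le hyp hp hq ?_)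
      rw [← hmua]
      positivity
    · intro hm
      rw [hm, zero_mul] at hmua
      have h5 : Df (conv (conv p p) (conv q q)) ≤ Df (conv p p) :=
        Df_conv_le h2 (conv_law hp hp) (conv_law hq hq)
      have h6 : Df (conv (conv p p) (conv q q)) = log (Fintype.card G) - h4 p q := by
        unfold Df
        rw [h4_eq h2]
      linarith
    · rw [sub_mul, hmua]
      exact thmB_fin hQ hFn (by linarith) (by norm_num) hnear
        (thmB_pC2 h2 h3 hB hb hb1 he hQ.le hyp hp hq ha)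
    · intro sT hsT0 hsT
      refine thmB_fin hQ hFn (by linarith) (by norm_num) hnear
        (thmB_pT h2 h3 h1 hB hb hb1 he hQ.le hyp hp hq hs0 sT hsT0 ?_)
      rw [hsT]
      linarith
  · exfalso
    push Not at hlam
    rw [thmB_PhiP ha hsn hlam.le] at hnear
    have hbe : 0 < be ^ 400 := by positivity
    have h5 : Q * (be ^ 400 * (2 * ((Df p + Df q) / 2) - Df (conv p q)) ^ (1 + be)) ≤
        Q * (be ^ 400 * (2 * kap * ((Df p + Df q) / 2) ^ (1 + be))) := by
      refine hC.2.trans ?_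
      have : 2 * thmB_J e B p q ≤
        2 * (kap * (Q * (be ^ 400 * ((Df p + Df q) / 2) ^ (1 + be)))) := by linarith
      refine this.trans (le_of_eq ?_)
      ring
    have h6 := le_of_mul_le_mul_left (le_of_mul_le_mul_left h5 hQ) hbe
    have h7 : ((2 - be) * ((Df p + Df q) / 2)) ^ (1 + be) ≤
        (2 * ((Df p + Df q) / 2) - Df (conv p q)) ^ (1 + be) := by
      refine rpow_le_rpow ?_ ?_ (by linarith)
      · have : 0 < 2 - be := by linarith
        positivity
      · linarith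
    rw [mul_rpow (by linarith) ha.le] at h7
    have h8 : 0 < ((Df p + Df q) / 2) ^ (1 + be) := rpow_pos_of_pos ha _
    have h9 : (2 - be) ^ (1 + be) ≤ 2 * kap := le_of_mul_le_mul_right (h7.trans h6) h8
    linarith

end near

theorem thmB_Phi_pos {be a s : ℝ} (hb : 0 < be) (ha : 0 < a) : 0 < thmB_Phi be a s :=
  lt_max_of_lt_right (by positivity)

theorem thmB_Phi_le {be a s : ℝ} (hb : 0 < be) (hb1 : be ≤ 1) (ha : 0 < a) (hs : 0 ≤ s)
    (hsa : s ≤ a) : thmB_Phi be a s ≤ a ^ (1 + be) := by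
  unfold thmB_Phi
  have h6 : a ^ (1 + be) = a ^ (1 + be - 400) * a ^ 400 := by
    rw [← rpow_natCast a 400, ← rpow_add ha]
    congr 1
    push_cast
    ring
  refine max_le ?_ ?_
  · rw [h6]
    exact mul_le_mul_of_nonneg_left (pow_le_pow_left₀ hs hsa 400) (rpow_nonneg ha.le _)
  · have h7 : be ^ 400 ≤ 1 := pow_le_one₀ hb.le hb1
    have h8 : 0 ≤ a ^ (1 + be) := rpow_nonneg ha.le _
    calc be ^ 400 * a ^ (1 + be) ≤ 1 * a ^ (1 + be) := mul_le_mul_of_nonneg_right h7 h8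
      _ = a ^ (1 + be) := one_mul _

theorem thmB_Q (h1 : St_PairT) (hA : St_ThmA) (h3 : St_Tan) (h4' : St_Num)
    (h2 : ∀ x : G, x + x = 0) {be e : ℝ} {B : G → ℝ} (hb : 0 < be) (hb1 : be ≤ 1 / 5)
    (he : 0 < e) (hB : IsLaw B) (hSp : Spread B) (hex : ∃ p : G → ℝ, IsLaw p ∧ 0 < Df p) :
    ∃ Q : ℝ, 1 / 3 ≤ log (Fintype.card G) ^ be * Q ∧ thmB_Hyp be e Q B := by
  obtain ⟨p0, hp0, hD0⟩ := hex
  have hn : 0 < log (Fintype.card G) := hD0.trans_le (Df_le hp0)
  set S : Set ℝ := {r | ∃ p q : G → ℝ, IsLaw p ∧ IsLaw q ∧ 0 < (Df p + Df q) / 2 ∧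
    r = thmB_J e B p q / thmB_Phi be ((Df p + Df q) / 2) (Df (conv p q))} with hS
  have hbase : ∀ p q : G → ℝ, IsLaw p → IsLaw q → 0 ≤ Df (conv p q) ∧
      Df (conv p q) ≤ (Df p + Df q) / 2 ∧ (Df p + Df q) / 2 ≤ log (Fintype.card G) := by
    intro p q hp hq
    have u1 := Df_nonneg (conv_law hp hq)
    have u2 := Df_conv_le h2 hp hq
    have u3 : Df (conv p q) ≤ Df q := by
      rw [conv_comm h2]
      exact Df_conv_le h2 hq hp
    have u4 := Df_le hp
    have u5 := Df_le hq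
    exact ⟨u1, by linarith, by linarith⟩
  have hlow : ∀ r ∈ S, e * log (Fintype.card G) ^ (-be) ≤ r := by
    rintro r ⟨p, q, hp, hq, ha, rfl⟩
    obtain ⟨u1, u2, u3⟩ := hbase p q hp hq
    rw [le_div_iff₀ (thmB_Phi_pos hb ha)]
    have v1 := thmB_Phi_le hb (by linarith) ha u1 u2
    have v2 : ((Df p + Df q) / 2) ^ (1 + be) =
        ((Df p + Df q) / 2) * ((Df p + Df q) / 2) ^ be := by
      rw [rpow_add ha, rpow_one]
    have v3 : ((Df p + Df q) / 2) ^ be ≤ log (Fintype.card G) ^ be :=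
      rpow_le_rpow ha.le u3 hb.le
    have v4 : log (Fintype.card G) ^ (-be) * log (Fintype.card G) ^ be = 1 := by
      rw [← rpow_add hn]
      simp
    have v5 : 0 < log (Fintype.card G) ^ (-be) := rpow_pos_of_pos hn _
    have hi : 0 ≤ (Ib B p + Ib B q) / 2 := by
      have := Ib_nonneg h2 hB hp
      have := Ib_nonneg h2 hB hq
      linarith
    calc e * log (Fintype.card G) ^ (-be) *
          thmB_Phi be ((Df p + Df q) / 2) (Df (conv p q)) ≤
        e * log (Fintype.card G) ^ (-be) *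
          (((Df p + Df q) / 2) * log (Fintype.card G) ^ be) := by
          refine mul_le_mul_of_nonneg_left ?_ (by positivity)
          rw [v2] at v1
          exact v1.trans (mul_le_mul_of_nonneg_left v3 ha.le)
      _ = e * ((Df p + Df q) / 2) *
          (log (Fintype.card G) ^ (-be) * log (Fintype.card G) ^ be) := by ring
      _ = e * ((Df p + Df q) / 2) := by rw [v4, mul_one]
      _ ≤ thmB_J e B p q := by
          unfold thmB_J
          linarith
  have hne : S.Nonempty := ⟨_, p0, p0, hp0, hp0, by linarith, rfl⟩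
  have hbdd : BddBelow S := ⟨_, hlow⟩
  have hQ0 : 0 < sInf S :=
    lt_of_lt_of_le (mul_pos he (rpow_pos_of_pos hn _)) (le_csInf hne hlow)
  have hyp : thmB_Hyp be e (sInf S) B := by
    intro p q hp hq ha
    have h := csInf_le hbdd (show _ ∈ S from ⟨p, q, hp, hq, ha, rfl⟩)
    rwa [le_div_iff₀ (thmB_Phi_pos hb ha)] at h
  refine ⟨sInf S, ?_, hyp⟩
  have hexp := exp_one_gt_d9
  have hexp' := exp_one_lt_d9
  have h2b := thmB_two hb hb1
  obtain ⟨kap, hk0, hk1, hk2⟩ : ∃ kap : ℝ, 1 < kap ∧ kap ≤ exp 1 / 2 ∧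
      2 * kap < (2 - be) ^ (1 + be) := by
    rcases le_total (exp 1) ((2 - be) ^ (1 + be)) with hc | hc
    · exact ⟨(1 + exp 1 / 2) / 2, by linarith, by linarith, by linarith⟩
    · exact ⟨(1 + (2 - be) ^ (1 + be) / 2) / 2, by linarith, by linarith, by linarith⟩
  obtain ⟨r, ⟨p, q, hp, hq, ha, rfl⟩, hr⟩ := exists_lt_of_csInf_lt hne
    (show sInf S < kap * sInf S by nlinarith)
  obtain ⟨u1, u2, u3⟩ := hbase p q hp hq
  rw [div_lt_iff₀ (thmB_Phi_pos hb ha)] at hr
  have hnear : thmB_J e B p q ≤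
      kap * (sInf S * thmB_Phi be ((Df p + Df q) / 2) (Df (conv p q))) := by
    rw [← mul_assoc]
    exact hr.le
  have hheart := thmB_near h2 h3 h1 h4' hB hb hb1 he.le hQ0 hyp hp hq hk1 hk0.le hk2 ha hnear
  have hTA := hA G h2 B p q hB hSp hp hq
  have hdd : dd p q = (Df p + Df q) / 2 - Df (conv p q) := by
    unfold dd Df
    ring
  rw [hdd] at hTA
  have hJ : (Df p + Df q) / 2 / 2 ≤ thmB_J e B p q := by
    unfold thmB_J
    have : 0 ≤ e * ((Df p + Df q) / 2) := mul_nonneg he.le ha.le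
    linarith
  have v1 := thmB_Phi_le hb (by linarith) ha u1 u2
  have v2 : ((Df p + Df q) / 2) ^ (1 + be) =
      ((Df p + Df q) / 2) * ((Df p + Df q) / 2) ^ be := by
    rw [rpow_add ha, rpow_one]
  have v3 : ((Df p + Df q) / 2) ^ be ≤ log (Fintype.card G) ^ be :=
    rpow_le_rpow ha.le u3 hb.le
  rw [v2] at v1
  have v6 : thmB_Phi be ((Df p + Df q) / 2) (Df (conv p q)) ≤
      ((Df p + Df q) / 2) * log (Fintype.card G) ^ be :=
    v1.trans (mul_le_mul_of_nonneg_left v3 ha.le)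
  have v7 : (Df p + Df q) / 2 * (1 / 2) ≤
      (Df p + Df q) / 2 * (kap * (sInf S * log (Fintype.card G) ^ be)) := by
    calc (Df p + Df q) / 2 * (1 / 2) = (Df p + Df q) / 2 / 2 := by ring
      _ ≤ kap * (sInf S * thmB_Phi be ((Df p + Df q) / 2) (Df (conv p q))) := hJ.trans hnear
      _ ≤ kap * (sInf S * (((Df p + Df q) / 2) * log (Fintype.card G) ^ be)) := by
          refine mul_le_mul_of_nonneg_left ?_ (by linarith)
          exact mul_le_mul_of_nonneg_left v6 hQ0.le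
      _ = _ := by ring
  have v8 := le_of_mul_le_mul_left v7 ha
  have v9 : 0 ≤ sInf S * log (Fintype.card G) ^ be := by positivity
  have v10 : kap * (sInf S * log (Fintype.card G) ^ be) ≤
      3 / 2 * (sInf S * log (Fintype.card G) ^ be) :=
    mul_le_mul_of_nonneg_right (by linarith) v9
  linarith

/-- Theorem B. -/
theorem thm_ThmB (h1 : St_PairT) (h2' : St_ThmA) (h3 : St_Tan) (h4' : St_Num) : St_ThmB := by
  intro G _ _ h2 be B p hb hb1 hB hSp hp
  have hD := Df_nonneg hp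
  have hI := Ib_nonneg h2 hB hp
  have hn0 : 0 ≤ log (Fintype.card G : ℝ) := log_card_nonneg
  rcases hD.eq_or_lt with h0 | h0
  · rw [← h0, zero_rpow (by linarith), mul_zero]
    exact mul_nonneg (rpow_nonneg hn0 _) hI
  · have hn : 0 < log (Fintype.card G : ℝ) := h0.trans_le (Df_le hp)
    have hnb : 0 < log (Fintype.card G : ℝ) ^ be := rpow_pos_of_pos hn _
    refine le_of_forall_pos_le_add fun δ hδ => ?_
    obtain ⟨Q, hQ, hyp⟩ := thmB_Q h1 h2' h3 h4' h2 (e := δ / (log (Fintype.card G) ^ be * Df p))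
      hb hb1 (by positivity) hB hSp ⟨p, hp, h0⟩
    have h := hyp p p hp hp (by linarith)
    have e1 : (Df p + Df p) / 2 = Df p := by ring
    have e2 : (Ib B p + Ib B p) / 2 = Ib B p := by ring
    unfold thmB_J at h
    rw [e1, e2] at h
    have hx : 0 < be ^ 400 * Df p ^ (1 + be) := by positivity
    have hQ0 : 0 ≤ Q := by
      by_contra hc
      push Not at hc
      have := mul_neg_of_pos_of_neg hnb hc
      linarith
    have h5 : Q * (be ^ 400 * Df p ^ (1 + be)) ≤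
        Ib B p + δ / (log (Fintype.card G) ^ be * Df p) * Df p :=
      (mul_le_mul_of_nonneg_left (le_max_right _ _) hQ0).trans h
    have h6 := mul_le_mul_of_nonneg_left h5 hnb.le
    have h7 : log (Fintype.card G : ℝ) ^ be *
        (Ib B p + δ / (log (Fintype.card G) ^ be * Df p) * Df p) =
        log (Fintype.card G : ℝ) ^ be * Ib B p + δ := by
      field_simp
    rw [h7] at h6
    have h8 : 1 / 3 * (be ^ 400 * Df p ^ (1 + be)) ≤
        log (Fintype.card G : ℝ) ^ be * Q * (be ^ 400 * Df p ^ (1 + be)) :=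
      mul_le_mul_of_nonneg_right hQ hx.le
    linarith

end Pool.Agent.BR
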