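import Pool.Agent.BR.St

/-!
Theorem M: iteration of the step.
-/

set_option autoImplicit false

namespace Pool.Agent.BR

open Finset Real
open scoped Classical

/-- the statement with the exponent `E` -/
def ThmM_claim (be E : ℝ) : Prop := ∃ e0 C : ℝ, 0 < e0 ∧ e0 ≤ 1 ∧ 0 < C ∧
  ∀ (G : Type) [AddCommGroup G] [Fintype G] (g : G → ℝ) (l n0 : ℝ), State G g l e0 →
  1 ≤ l → log (Fintype.card G) ≤ n0 → 1 ≤ n0 →
  ∃ (W : AddSubgroup G) (c : G), avc W g c ≤ 3 / 8 ∧ cod W ≤ C * n0 ^ be * l ^ E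

private theorem ThmM_mono {be E E' : ℝ} (h : E ≤ E') (hc : ThmM_claim be E) :
    ThmM_claim be E' := by
  obtain ⟨e0, C, he, he1, hC, hm⟩ := hc
  refine ⟨e0, C, he, he1, hC, fun G _ _ g l n0 hs hl hn h1 => ?_⟩
  obtain ⟨W, c, hW, hc⟩ := hm G g l n0 hs hl hn h1
  have hn0 : 0 ≤ n0 ^ be := rpow_nonneg (by linarith) _
  exact ⟨W, c, hW, hc.trans (mul_le_mul_of_nonneg_left (rpow_le_rpow_of_exponent_le hl h)
    (mul_nonneg hC.le hn0))⟩

private theorem ThmM_sub {G : Type} [AddCommGroup G] [Fintype G] (W1 : AddSubgroup G)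
    (W2 : AddSubgroup W1) (g : G → ℝ) (c1 : G) (c2 : W1) : ∃ W : AddSubgroup G,
    avc W g (c1 + c2) = avc W2 (fun w : W1 => g (c1 + w)) c2 ∧ cod W = cod W1 + cod W2 := by
  have hcard : Nat.card (W2.map W1.subtype) = Nat.card W2 :=
    Nat.card_congr (W2.equivMapOfInjective W1.subtype W1.subtype_injective).symm.toEquiv
  refine ⟨W2.map W1.subtype, ?_, ?_⟩
  · unfold avc
    rw [hcard]
    congr 1
    refine (Fintype.sum_equiv (W2.equivMapOfInjective W1.subtype W1.subtype_injective).toEquiv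
      _ _ fun w => ?_).symm
    show g (c1 + ((c2 + (w : W1) : W1) : G)) = g (c1 + c2 + ((w : W1) : G))
    rw [AddSubgroup.coe_add, add_assoc]
  · unfold cod
    rw [hcard, Nat.card_eq_fintype_card (α := W1)]
    ring

private theorem ThmM_logcard {G : Type} [AddCommGroup G] [Fintype G] (W1 : AddSubgroup G) :
    log (Fintype.card W1) ≤ log (Fintype.card G) := by
  have h1 : 0 < Fintype.card W1 := Fintype.card_pos_iff.2 ⟨0⟩
  have h2 : Fintype.card W1 ≤ Fintype.card G := Fintype.card_subtype_le _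
  exact log_le_log (by exact_mod_cast h1) (by exact_mod_cast h2)

private theorem ThmM_base (h1 : St_Step) (h2 : St_End) {be : ℝ} (hb : 0 < be) (hb1 : be ≤ 1 / 5) :
    ThmM_claim be 3 := by
  obtain ⟨C, hC, hst⟩ := h1 be (1 / 64) hb hb1 (by norm_num) (by norm_num)
  have hp : 0 < ((1 : ℝ) / 16) ^ (1 + be) := rpow_pos_of_pos (by norm_num) _
  refine ⟨1 / 32, C / ((1 : ℝ) / 16) ^ (1 + be), by norm_num, by norm_num, div_pos hC hp,
    fun G _ _ g l n0 hs hl hn h3 => ?_⟩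
  obtain ⟨W, c, hW, hcod⟩ := hst G g l (1 / 32) (1 / 16) n0 hs hl (by norm_num) (by norm_num)
    (by norm_num) (by linarith) hn h3
  refine ⟨W, c, ?_, hcod.trans (le_of_eq ?_)⟩
  · have h4 := h2 W (fun w => g (c + w)) _ hW
    unfold avc
    rw [Nat.card_eq_fintype_card]
    refine h4.trans ?_
    norm_num
  · have h5 : l ^ (3 : ℝ) = l ^ 3 := by
      have := rpow_natCast l 3
      exact_mod_cast this
    rw [h5]
    ring

private theorem ThmM_step (h1 : St_Step) {be E : ℝ} (hb : 0 < be) (hb1 : be ≤ 1 / 5)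
    (hE : ThmM_claim be E) : ThmM_claim be (max (2 + be) ((1 - be) * E)) := by
  obtain ⟨e0, C0, he, he1, hC0, hm⟩ := hE
  obtain ⟨C1, hC1, hst⟩ := h1 be (e0 / 8) hb hb1 (by linarith) (by linarith)
  refine ⟨e0 / 4, C1 + C0, by linarith, by linarith, by linarith,
    fun G _ _ g l n0 hs hl hn h3 => ?_⟩
  have hl0 : 0 < l := by linarith
  have ht1 : 1 ≤ l ^ (1 - be) := one_le_rpow hl (by linarith)
  have ht2 : l ^ (1 - be) ≤ l := by
    have := rpow_le_rpow_of_exponent_le hl (show 1 - be ≤ 1 by linarith)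
    rwa [rpow_one] at this
  obtain ⟨W1, c1, hW1, hcod1⟩ := hst G g l (e0 / 4) (l ^ (1 - be)) n0 hs hl (by linarith)
    (by linarith) (by linarith) ht2 hn h3
  have e1 : 2 * (e0 / 4 + 2 * (e0 / 8)) = e0 := by ring
  rw [e1] at hW1
  obtain ⟨W2, c2, hW2, hcod2⟩ := hm W1 (fun w => g (c1 + w)) (l ^ (1 - be)) n0 hW1 ht1
    ((ThmM_logcard W1).trans hn) h3
  obtain ⟨W, hW, hcod⟩ := ThmM_sub W1 W2 g c1 c2
  refine ⟨W, c1 + c2, by rw [hW]; exact hW2, ?_⟩
  rw [hcod]
  have hn0 : 0 ≤ n0 ^ be := rpow_nonneg (by linarith) _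
  have e2 : l ^ 3 / (l ^ (1 - be)) ^ (1 + be) ≤ l ^ (max (2 + be) ((1 - be) * E)) := by
    have h5 : l ^ (3 : ℝ) = l ^ 3 := by
      have := rpow_natCast l 3
      exact_mod_cast this
    rw [← h5, ← rpow_mul hl0.le, ← rpow_sub hl0]
    refine rpow_le_rpow_of_exponent_le hl (le_trans ?_ (le_max_left _ _))
    nlinarith
  have e3 : (l ^ (1 - be)) ^ E ≤ l ^ (max (2 + be) ((1 - be) * E)) := by
    rw [← rpow_mul hl0.le]
    exact rpow_le_rpow_of_exponent_le hl (le_max_right _ _)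
  have e4 : cod W1 ≤ C1 * n0 ^ be * l ^ (max (2 + be) ((1 - be) * E)) := by
    refine hcod1.trans ?_
    rw [mul_div_assoc]
    exact mul_le_mul_of_nonneg_left e2 (mul_nonneg hC1.le hn0)
  have e5 : cod W2 ≤ C0 * n0 ^ be * l ^ (max (2 + be) ((1 - be) * E)) :=
    hcod2.trans (mul_le_mul_of_nonneg_left e3 (mul_nonneg hC0.le hn0))
  calc cod W1 + cod W2 ≤ C1 * n0 ^ be * l ^ (max (2 + be) ((1 - be) * E)) +
        C0 * n0 ^ be * l ^ (max (2 + be) ((1 - be) * E)) := add_le_add e4 e5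
    _ = (C1 + C0) * n0 ^ be * l ^ (max (2 + be) ((1 - be) * E)) := by ring

private theorem ThmM_all (h1 : St_Step) (h2 : St_End) {be : ℝ} (hb : 0 < be) (hb1 : be ≤ 1 / 5)
    (j : ℕ) : ThmM_claim be (max (2 + be) ((1 - be) ^ j * 3)) := by
  induction j with
  | zero =>
    refine ThmM_mono ?_ (ThmM_base h1 h2 hb hb1)
    rw [pow_zero, one_mul]
    exact le_max_right _ _
  | succ j ih =>
    refine ThmM_mono ?_ (ThmM_step h1 hb hb1 ih)
    refine max_le (le_max_left _ _) ?_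
    rw [mul_max_of_nonneg _ _ (by linarith : (0 : ℝ) ≤ 1 - be)]
    refine max_le (le_trans ?_ (le_max_left _ _)) (le_trans (le_of_eq ?_) (le_max_right _ _))
    · nlinarith
    · rw [pow_succ]
      ring

theorem thm_ThmM (h1 : St_Step) (h2 : St_End) : St_ThmM := by
  intro be hb hb1
  obtain ⟨j, hj⟩ := exists_pow_lt_of_lt_one (show (0 : ℝ) < 2 / 3 by norm_num)
    (show 1 - be < 1 by linarith)
  have h3 : max (2 + be) ((1 - be) ^ j * 3) ≤ 2 + be := by
    refine max_le le_rfl ?_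
    linarith
  obtain ⟨e0, C, he, -, hC, hm⟩ := ThmM_mono h3 (ThmM_all h1 h2 hb hb1 j)
  exact ⟨e0, C, he, hC, hm⟩

end Pool.Agent.BR
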