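import Pool.Agent.BR.St

/-!
Lemma V: the weak data processing inequality, by Parseval's identity.
-/

set_option autoImplicit false

namespace Pool.Agent.BR

open Finset Real
open scoped Classical

variable {G : Type} [AddCommGroup G] [Fintype G]

/-- The real value of a character. -/
private noncomputable def Weak_r (ψ : AddChar G ℂ) (x : G) : ℝ := (ψ x).re

/-- The Fourier coefficient. -/
private noncomputable def Weak_F (f : G → ℝ) (ψ : AddChar G ℂ) : ℝ := ∑ x, f x * Weak_r ψ x

omit [Fintype G] in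
private theorem Weak_val (h2 : ∀ x : G, x + x = 0) (ψ : AddChar G ℂ) (x : G) :
    ψ x = 1 ∨ ψ x = -1 := by
  have h : ψ x * ψ x = 1 := by
    rw [← AddChar.map_add_eq_mul, h2, AddChar.map_zero_eq_one]
  exact mul_self_eq_one_iff.1 h

omit [Fintype G] in
private theorem Weak_r_val (h2 : ∀ x : G, x + x = 0) (ψ : AddChar G ℂ) (x : G) :
    Weak_r ψ x = 1 ∨ Weak_r ψ x = -1 := by
  unfold Weak_r
  rcases Weak_val h2 ψ x with h | h
  · left
    rw [h, Complex.one_re]
  · right
    rw [h, Complex.neg_re, Complex.one_re]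

omit [Fintype G] in
private theorem Weak_re (h2 : ∀ x : G, x + x = 0) (ψ : AddChar G ℂ) (x : G) :
    ψ x = ((Weak_r ψ x : ℝ) : ℂ) := by
  unfold Weak_r
  rcases Weak_val h2 ψ x with h | h
  · rw [h, Complex.one_re, Complex.ofReal_one]
  · rw [h, Complex.neg_re, Complex.one_re, Complex.ofReal_neg, Complex.ofReal_one]

omit [Fintype G] in
private theorem Weak_r_add (h2 : ∀ x : G, x + x = 0) (ψ : AddChar G ℂ) (x y : G) :
    Weak_r ψ (x + y) = Weak_r ψ x * Weak_r ψ y := by
  have h : ψ (x + y) = ψ x * ψ y := AddChar.map_add_eq_mul ψ x y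
  rw [Weak_re h2, Weak_re h2, Weak_re h2, ← Complex.ofReal_mul] at h
  exact Complex.ofReal_injective h

omit [Fintype G] in
private theorem Weak_r_zero (ψ : AddChar G ℂ) : Weak_r ψ 0 = 1 := by
  unfold Weak_r
  rw [AddChar.map_zero_eq_one, Complex.one_re]

private theorem Weak_r_sum (x : G) :
    ∑ ψ : AddChar G ℂ, Weak_r ψ x = if x = 0 then (Fintype.card G : ℝ) else 0 := by
  have h := congrArg Complex.re (AddChar.sum_apply_eq_ite x)
  rw [Complex.re_sum] at h
  unfold Weak_r
  rw [h]
  split_ifs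
  · rw [Complex.natCast_re]
  · rw [Complex.zero_re]

private theorem Weak_parseval (h2 : ∀ x : G, x + x = 0) (f : G → ℝ) :
    ∑ ψ : AddChar G ℂ, Weak_F f ψ ^ 2 = (Fintype.card G : ℝ) * ∑ x, f x ^ 2 := by
  have e : ∀ ψ : AddChar G ℂ, Weak_F f ψ ^ 2 = ∑ x, ∑ y, f x * f y * Weak_r ψ (x + y) := by
    intro ψ
    unfold Weak_F
    rw [sq, sum_mul_sum]
    refine sum_congr rfl fun x _ => sum_congr rfl fun y _ => ?_
    rw [Weak_r_add h2]
    ring
  simp only [e]
  rw [sum_comm, mul_sum]
  refine sum_congr rfl fun x _ => ?_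
  rw [sum_comm]
  simp only [← mul_sum, Weak_r_sum]
  rw [sum_eq_single x]
  · rw [if_pos (h2 x)]
    ring
  · intro y _ hy
    rw [if_neg, mul_zero]
    intro h
    apply hy
    have h3 := (add_eq_iff h2 x y 0).1 h
    rw [zero_add] at h3
    exact h3
  · intro h
    exact absurd (mem_univ x) h

private theorem Weak_conv (h2 : ∀ x : G, x + x = 0) (f g : G → ℝ) (ψ : AddChar G ℂ) :
    Weak_F (conv f g) ψ = Weak_F f ψ * Weak_F g ψ := by
  unfold Weak_F conv
  simp only [sum_mul]
  rw [sum_comm]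
  refine sum_congr rfl fun y _ => ?_
  rw [mul_sum, ← sum_shift y]
  refine sum_congr rfl fun x _ => ?_
  rw [add_add_self h2, Weak_r_add h2]
  ring

private theorem Weak_F_zero {f : G → ℝ} (hf : IsLaw f) : Weak_F f (0 : AddChar G ℂ) = 1 := by
  unfold Weak_F Weak_r
  rw [← hf.sum]
  refine sum_congr rfl fun x _ => ?_
  rw [AddChar.zero_apply, Complex.one_re, mul_one]

/-- The kernel of a character. -/
private noncomputable def Weak_W (h2 : ∀ x : G, x + x = 0) (ψ : AddChar G ℂ) : AddSubgroup G where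
  carrier := {x | Weak_r ψ x = 1}
  add_mem' := by
    intro a b ha hb
    show Weak_r ψ (a + b) = 1
    rw [Weak_r_add h2, show Weak_r ψ a = 1 from ha, show Weak_r ψ b = 1 from hb, one_mul]
  zero_mem' := Weak_r_zero ψ
  neg_mem' := by
    intro a ha
    have h : -a = a := by
      rw [neg_eq_iff_add_eq_zero]
      exact h2 a
    show Weak_r ψ (-a) = 1
    rw [h]
    exact ha

omit [Fintype G] in
private theorem Weak_mem (h2 : ∀ x : G, x + x = 0) (ψ : AddChar G ℂ) (x : G) :
    x ∈ Weak_W h2 ψ ↔ Weak_r ψ x = 1 := Iff.rfl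

omit [Fintype G] in
private theorem Weak_ite (h2 : ∀ x : G, x + x = 0) (ψ : AddChar G ℂ) (x : G) :
    Weak_r ψ x = 2 * (if x ∈ Weak_W h2 ψ then 1 else 0) - 1 := by
  rcases Weak_r_val h2 ψ x with h | h
  · rw [if_pos ((Weak_mem h2 ψ x).2 h), h]
    norm_num
  · rw [if_neg, h]
    · norm_num
    · intro h'
      rw [Weak_mem, h] at h'
      norm_num at h'

private theorem Weak_card (h2 : ∀ x : G, x + x = 0) {ψ : AddChar G ℂ} (hψ : ψ ≠ 0) :
    (Fintype.card G : ℝ) = 2 * (Nat.card (Weak_W h2 ψ) : ℝ) := by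
  have h := congrArg Complex.re (AddChar.sum_eq_zero_iff_ne_zero.2 hψ)
  rw [Complex.re_sum, Complex.zero_re] at h
  have h1 : ∑ x : G, Weak_r ψ x = 0 := h
  simp only [Weak_ite h2 ψ] at h1
  rw [sum_sub_distrib, ← mul_sum, sum_boole, sum_const, nsmul_eq_mul, mul_one, card_univ] at h1
  have h3 : Nat.card (Weak_W h2 ψ) = (univ.filter fun x => x ∈ Weak_W h2 ψ).card := by
    rw [Nat.card_eq_fintype_card]
    exact Fintype.card_subtype _
  rw [h3]
  linarith

private theorem Weak_num : Real.binEntropy (4 / 5) < 3 / 4 * log 2 := by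
  rw [Real.binEntropy_eq_negMulLog_add_negMulLog_one_sub]
  unfold negMulLog
  have e1 : log (4 / 5 : ℝ) = 2 * log 2 - log 5 := by
    rw [log_div (by norm_num) (by norm_num), show (4 : ℝ) = 2 ^ 2 by norm_num, log_pow]
    push_cast
    ring
  have e2 : log (1 - 4 / 5 : ℝ) = - log 5 := by
    rw [show (1 - 4 / 5 : ℝ) = 5⁻¹ by norm_num, log_inv]
  rw [e1, e2]
  have h : log ((5 : ℝ) ^ 20) < log ((2 : ℝ) ^ 47) := log_lt_log (by norm_num) (by norm_num)
  rw [log_pow, log_pow] at h
  push_cast at h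
  linarith

private theorem Weak_coef (h2 : ∀ x : G, x + x = 0) {B : G → ℝ} (hB : IsLaw B) (hS : Spread B)
    {ψ : AddChar G ℂ} (hψ : ψ ≠ 0) : Weak_F B ψ ^ 2 ≤ 9 / 25 := by
  set W := Weak_W h2 ψ with hW
  obtain ⟨b, hb⟩ : ∃ b, b = ∑ x, (if x ∈ W then B x else 0) := ⟨_, rfl⟩
  have hF : Weak_F B ψ = 2 * b - 1 := by
    unfold Weak_F
    rw [hb, mul_sum, ← hB.sum, ← sum_sub_distrib]
    refine sum_congr rfl fun x _ => ?_
    rw [Weak_ite h2 ψ x]
    split_ifs <;> ring
  have hb0 : 0 ≤ b := by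
    rw [hb]
    refine sum_nonneg fun x _ => ?_
    split_ifs
    · exact hB.nn x
    · exact le_rfl
  have hb1 : b ≤ 1 := by
    rw [hb, ← hB.sum]
    refine sum_le_sum fun x _ => ?_
    split_ifs
    · exact le_rfl
    · exact hB.nn x
  have hcod : cod W = log 2 := by
    unfold cod
    have h := Weak_card h2 hψ
    have hpos : (0 : ℝ) < Nat.card W := by
      have h3 : (0 : ℝ) < (Fintype.card G : ℝ) := card_pos
      rw [h] at h3
      linarith
    rw [h, log_mul (by norm_num) hpos.ne']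
    ring
  have hent : entq W B = Real.binEntropy b := by
    have e1 : entq W B = H B (fun x => decide (x ∈ W)) := by
      refine H_eq fun x y => ?_
      rw [QuotientAddGroup.eq, decide_eq_decide]
      have hn : -x = x := by
        rw [neg_eq_iff_add_eq_zero]
        exact h2 x
      rw [hn, hW, Weak_mem, Weak_mem, Weak_mem, Weak_r_add h2]
      rcases Weak_r_val h2 ψ x with h | h <;> rcases Weak_r_val h2 ψ y with h' | h' <;>
        rw [h, h'] <;> norm_num
    have e2 : pr B (fun x => decide (x ∈ W)) true = b := by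
      unfold pr
      rw [hb, sum_filter]
      refine sum_congr rfl fun x _ => ?_
      simp only [decide_eq_true_eq]
    have e3 : pr B (fun x => decide (x ∈ W)) false = 1 - b := by
      have h := sum_pr B (fun x => decide (x ∈ W))
      rw [Fintype.sum_bool, e2, hB.sum] at h
      linarith
    rw [e1, H_eq_univ, Fintype.sum_bool, e2, e3,
      Real.binEntropy_eq_negMulLog_add_negMulLog_one_sub]
  have hsp := hS W
  rw [hcod, hent] at hsp
  have hnum := Weak_num
  have hb4 : b < 4 / 5 := by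
    by_contra hcon
    push Not at hcon
    have h := Real.binEntropy_strictAntiOn.antitoneOn (a := 4 / 5) (b := b)
      ⟨by norm_num, by norm_num⟩ ⟨by norm_num; linarith, hb1⟩ hcon
    linarith
  have hb5 : 1 / 5 < b := by
    by_contra hcon
    push Not at hcon
    have h := Real.binEntropy_strictAntiOn.antitoneOn (a := 4 / 5) (b := 1 - b)
      ⟨by norm_num, by norm_num⟩ ⟨by norm_num; linarith, by linarith⟩ (by linarith)
    rw [Real.binEntropy_one_sub] at h
    linarith
  rw [hF]
  nlinarith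

/-- One convolution contracts the chi-square distance. -/
private theorem Weak_step (h2 : ∀ x : G, x + x = 0) {B q : G → ℝ} (hB : IsLaw B) (hS : Spread B)
    (hq : IsLaw q) : (Fintype.card G : ℝ) * ∑ x, conv q B x ^ 2 - 1 ≤
      9 / 25 * ((Fintype.card G : ℝ) * ∑ x, q x ^ 2 - 1) := by
  rw [← Weak_parseval h2, ← Weak_parseval h2]
  have h : ∑ ψ : AddChar G ℂ, Weak_F (conv q B) ψ ^ 2 ≤
      ∑ ψ : AddChar G ℂ, (9 / 25 * Weak_F q ψ ^ 2 + if ψ = 0 then 16 / 25 else 0) := by
    refine sum_le_sum fun ψ _ => ?_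
    rw [Weak_conv h2, mul_pow]
    split_ifs with h0
    · rw [h0, Weak_F_zero hq, Weak_F_zero hB]
      norm_num
    · have h1 := Weak_coef h2 hB hS h0
      have h3 := mul_le_mul_of_nonneg_left h1 (sq_nonneg (Weak_F q ψ))
      linarith
  rw [sum_add_distrib, ← mul_sum, sum_ite_eq' univ (0 : AddChar G ℂ), if_pos (mem_univ _)] at h
  linarith

private theorem Weak_base {p : G → ℝ} (hp : IsLaw p) :
    Df p ≤ (Fintype.card G : ℝ) * ∑ x, p x ^ 2 - 1 := by
  have hN : (0 : ℝ) < (Fintype.card G : ℝ) := card_pos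
  have e1 : Df p = ∑ x, (p x * log (Fintype.card G : ℝ) - negMulLog (p x)) := by
    unfold Df ent
    rw [sum_sub_distrib, ← sum_mul, hp.sum, one_mul]
  have e2 : (Fintype.card G : ℝ) * ∑ x, p x ^ 2 - 1 =
      ∑ x, p x * ((Fintype.card G : ℝ) * p x - 1) := by
    have h : ∑ x, p x * ((Fintype.card G : ℝ) * p x - 1) =
        (Fintype.card G : ℝ) * ∑ x, p x ^ 2 - ∑ x, p x := by
      rw [mul_sum, ← sum_sub_distrib]
      refine sum_congr rfl fun x _ => ?_
      ring
    rw [h, hp.sum]
  rw [e1, e2]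
  refine sum_le_sum fun x _ => ?_
  rcases (hp.nn x).eq_or_lt with h | h
  · rw [← h, negMulLog_zero]
    simp
  · have e3 : p x * log (Fintype.card G : ℝ) - negMulLog (p x) =
        p x * log ((Fintype.card G : ℝ) * p x) := by
      unfold negMulLog
      rw [log_mul hN.ne' h.ne']
      ring
    rw [e3]
    exact mul_le_mul_of_nonneg_left (log_le_sub_one_of_pos (mul_pos hN h)) h.le

private theorem Weak_ind (h2 : ∀ x : G, x + x = 0) {B : G → ℝ} (hB : IsLaw B) (hS : Spread B)
    (k : ℕ) : ∀ p : G → ℝ, IsLaw p →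
    Df p ≤ k * Ib B p + (9 / 25) ^ k * ((Fintype.card G : ℝ) * ∑ x, p x ^ 2 - 1) := by
  induction k with
  | zero =>
    intro p hp
    have h := Weak_base hp
    simpa using h
  | succ k ih =>
    intro p hp
    have h1 := ih (conv p B) (conv_law hp hB)
    have h3 : Df p = Ib B p + Df (conv p B) := by
      unfold Df Ib
      ring
    have h4 := mul_le_mul_of_nonneg_left (Ib_conv_le h2 hB hp hB) (Nat.cast_nonneg (α := ℝ) k)
    have h5 := mul_le_mul_of_nonneg_left (Weak_step h2 hB hS hp)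
      (pow_nonneg (by norm_num : (0 : ℝ) ≤ 9 / 25) k)
    rw [h3, pow_succ]
    push_cast
    nlinarith

theorem thm_Weak : St_Weak := by
  intro G _ _ h2 M k B p hB hS hp hM
  have hN : (0 : ℝ) < (Fintype.card G : ℝ) := card_pos
  have h1 := Weak_ind h2 hB hS k p hp
  have h3 := Weak_base hp
  have h4 := Df_nonneg hp
  have h5 : (Fintype.card G : ℝ) * ∑ x, p x ^ 2 ≤ M := by
    rw [mul_sum]
    calc ∑ x, (Fintype.card G : ℝ) * p x ^ 2 ≤ ∑ x, p x * M := by
          refine sum_le_sum fun x _ => ?_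
          have h := mul_le_mul_of_nonneg_left (hM x) (mul_nonneg hN.le (hp.nn x))
          have e : (Fintype.card G : ℝ) * p x * (M / (Fintype.card G : ℝ)) = p x * M := by
            field_simp
          rw [e] at h
          linarith
      _ = M := by rw [← sum_mul, hp.sum, one_mul]
  have h6 : ((9 : ℝ) / 25) ^ k ≤ exp (-k) := by
    have h7 : (9 : ℝ) / 25 ≤ exp (-1) := by
      have h8 := Real.exp_one_lt_d9
      rw [exp_neg, ← one_div, le_div_iff₀ (exp_pos 1)]
      linarith
    have h9 : exp (-(k : ℝ)) = exp (-1) ^ k := by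
      rw [← exp_nat_mul]
      ring_nf
    rw [h9]
    exact pow_le_pow_left₀ (by norm_num) h7 k
  have h10 : ((9 : ℝ) / 25) ^ k * ((Fintype.card G : ℝ) * ∑ x, p x ^ 2 - 1) ≤ exp (-k) * M :=
    mul_le_mul h6 (by linarith) (by linarith) (exp_pos _).le
  linarith

end Pool.Agent.BR
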