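import Pool.Agent.BR.Pairs
import Pool.Agent.BR.LemT
import Pool.Agent.BR.PairT
import Pool.Agent.BR.Coset
import Pool.Agent.BR.ThmA
import Pool.Agent.BR.Num
import Pool.Agent.BR.ThmB
import Pool.Agent.BR.Samp
import Pool.Agent.BR.Cond
import Pool.Agent.BR.LemS
import Pool.Agent.BR.DW
import Pool.Agent.BR.Core
import Pool.Agent.BR.Inv
import Pool.Agent.BR.Weak
import Pool.Agent.BR.OV
import Pool.Agent.BR.Step
import Pool.Agent.BR.Quot
import Pool.Agent.BR.ThmM
import Pool.Agent.BR.DR
import Pool.Agent.BR.Fin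

/-!
Assembly: `f(α) ≤ C_ε (log 2/α)^(2+ε)`.
-/

set_option autoImplicit false

namespace Pool.Agent.BR

theorem final : St_Final := by
  have hPT : St_PairT := thm_PairT thm_LemT
  have hA : St_ThmA := thm_ThmA hPT thm_DZero thm_Coset
  have hB : St_ThmB := thm_ThmB hPT hA thm_Tan thm_Num
  have hS : St_LemS := thm_LemS thm_Samp thm_Cond thm_Diag
  have hDW : St_DW := thm_DW
  have hC : St_Core := thm_Core hDW
  have hI : St_Inv := thm_Inv hDW
  have hOV : St_OV := thm_OV hS hC hI hB hDW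
  have hStep : St_Step := thm_Step hOV thm_Gibbs hDW (thm_Choose hDW)
  have hM : St_ThmM := thm_ThmM hStep thm_End
  have hDR : St_DR := thm_DR hS hC hI thm_Weak hDW (thm_Quot hDW) thm_Gibbs
  exact thm_Final (thm_Main hDR hM)

end Pool.Agent.BR
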