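import Pool.Agent.BR.Fib

/-!
The pairs `S`, `S2`, `C`, `C2`.
-/

set_option autoImplicit false

namespace Pool.Agent.BR

open Finset Real
open scoped Classical

variable {G : Type} [AddCommGroup G] [Fintype G]

omit [AddCommGroup G] in
theorem law4_law {p q p' q' : G → ℝ} (hp : IsLaw p) (hq : IsLaw q) (hp' : IsLaw p')
    (hq' : IsLaw q') : IsLaw (law4 p q p' q') :=
  isLaw_prod hp (isLaw_prod hq (isLaw_prod hp' hq'))

omit [AddCommGroup G] in
theorem H_law4 {p q p' q' : G → ℝ} (hp : IsLaw p) (hq : IsLaw q) (hp' : IsLaw p')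
    (hq' : IsLaw q') {α β : Type} (F : G → G → α) (K : G → G → β) :
    H (law4 p q p' q') (fun x => (F x.1 x.2.1, K x.2.2.1 x.2.2.2)) =
      H (fun ω : G × G => p ω.1 * q ω.2) (fun ω => F ω.1 ω.2) +
      H (fun ω : G × G => p' ω.1 * q' ω.2) (fun ω => K ω.1 ω.2) := by
  rw [← H_prod (X := fun ω : G × G => F ω.1 ω.2) (Y := fun ω : G × G => K ω.1 ω.2)
    (isLaw_prod hp hq) (isLaw_prod hp' hq')]
  refine (H_equiv (P := law4 p q p' q')
    (Q := fun ω : (G × G) × (G × G) => (p ω.1.1 * q ω.1.2) * (p' ω.2.1 * q' ω.2.2))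
    (e := ⟨fun x => ((x.1, x.2.1), (x.2.2.1, x.2.2.2)),
    fun ω => (ω.1.1, ω.1.2, ω.2.1, ω.2.2), fun _ => rfl, fun _ => rfl⟩) ?_
    (fun ω : (G × G) × (G × G) => (F ω.1.1 ω.1.2, K ω.2.1 ω.2.2))).symm
  rintro ⟨a, b, c, d⟩
  show (p a * q b) * (p' c * q' d) = p a * (q b * (p' c * q' d))
  ring

omit [AddCommGroup G] in
/-- exchange coordinates 2 and 3 -/
theorem perm23 (p q p' q' : G → ℝ) {α : Type} (X : G × G × G × G → α) :
    H (law4 p q p' q') X = H (law4 p p' q q') (fun x => X (x.1, x.2.2.1, x.2.1, x.2.2.2)) := by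
  refine H_equiv (e := ⟨fun x => (x.1, x.2.2.1, x.2.1, x.2.2.2),
    fun x => (x.1, x.2.2.1, x.2.1, x.2.2.2), fun _ => rfl, fun _ => rfl⟩) ?_ X
  rintro ⟨a, b, c, d⟩
  show p a * (q c * (p' b * q' d)) = p a * (p' b * (q c * q' d))
  ring

omit [AddCommGroup G] in
/-- exchange coordinates 2 and 4 -/
theorem perm24 (p q p' q' : G → ℝ) {α : Type} (X : G × G × G × G → α) :
    H (law4 p q p' q') X = H (law4 p q' p' q) (fun x => X (x.1, x.2.2.2, x.2.2.1, x.2.1)) := by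
  refine H_equiv (e := ⟨fun x => (x.1, x.2.2.2, x.2.2.1, x.2.1),
    fun x => (x.1, x.2.2.2, x.2.2.1, x.2.1), fun _ => rfl, fun _ => rfl⟩) ?_ X
  rintro ⟨a, b, c, d⟩
  show p a * (q d * (p' c * q' b)) = p a * (q' b * (p' c * q d))
  ring

omit [Fintype G] in
theorem tri (h2 : ∀ x : G, x + x = 0) (u v w : G) : (u + v) + (v + w) = u + w := by
  rw [add_assoc, self_add_add h2]

omit [Fintype G] in
theorem tri' (h2 : ∀ x : G, x + x = 0) (u v w : G) : (u + v) + (u + w) = v + w := by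
  rw [add_comm u v, tri h2]

omit [Fintype G] in
theorem tri'' (h2 : ∀ x : G, x + x = 0) (u v w : G) : (u + v) + (w + v) = u + w := by
  rw [add_comm w v, tri h2]

/-- `H(X+Y, X'+Y')`. -/
theorem H_two (h2 : ∀ x : G, x + x = 0) {p q p' q' : G → ℝ} (hp : IsLaw p) (hq : IsLaw q)
    (hp' : IsLaw p') (hq' : IsLaw q') :
    H (law4 p q p' q') (fun x => (x.1 + x.2.1, x.2.2.1 + x.2.2.2)) =
      ent (conv p q) + ent (conv p' q') := by
  rw [H_law4 hp hq hp' hq' (fun x y => x + y) (fun x y => x + y), H_add' h2, H_add' h2]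

theorem h4_eq (h2 : ∀ x : G, x + x = 0) (p q : G → ℝ) :
    ent (conv (conv p p) (conv q q)) = h4 p q := by
  unfold h4
  congr 1
  rw [conv_assoc h2, conv_assoc h2, ← conv_assoc h2 p q q, conv_comm h2 (conv p q) q]

theorem H_sum4 (h2 : ∀ x : G, x + x = 0) (p q : G → ℝ) :
    H (law4 p p q q) (fun x => x.1 + x.2.1 + (x.2.2.1 + x.2.2.2)) = h4 p q := by
  rw [← h4_eq h2]
  have h := H_add h2 (fun ω : G × G => p ω.1 * p ω.2) (fun ω : G × G => q ω.1 * q ω.2)
    (fun ω => ω.1 + ω.2) (fun ω => ω.1 + ω.2)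
  rw [pr_sum h2, pr_sum h2] at h
  rw [← h]
  refine (H_equiv (P := law4 p p q q)
    (Q := fun ω : (G × G) × (G × G) => (p ω.1.1 * p ω.1.2) * (q ω.2.1 * q ω.2.2))
    (e := ⟨fun x => ((x.1, x.2.1), (x.2.2.1, x.2.2.2)),
    fun ω => (ω.1.1, ω.1.2, ω.2.1, ω.2.2), fun _ => rfl, fun _ => rfl⟩) ?_
    (fun ω : (G × G) × (G × G) => ω.1.1 + ω.1.2 + (ω.2.1 + ω.2.2))).symm
  rintro ⟨a, b, c, d⟩
  show (p a * p b) * (q c * q d) = p a * (p b * (q c * q d))
  ring

theorem thm_Mutual : St_Mutual := by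
  intro G _ _ h2 p q hp hq
  have hl : IsLaw (law4 p p q q) := law4_law hp hp hq hq
  have hs4 := H_sum4 h2 p q
  -- H(X+Y, S)
  have eU : H (law4 p p q q) (fun x => (x.1 + x.2.2.1, x.1 + x.2.1 + (x.2.2.1 + x.2.2.2))) =
      2 * ent (conv p q) := by
    rw [perm23]
    have : H (law4 p q p q) (fun x => (x.1 + x.2.1, x.1 + x.2.2.1 + (x.2.1 + x.2.2.2))) =
        H (law4 p q p q) (fun x => (x.1 + x.2.1, x.2.2.1 + x.2.2.2)) := by
      refine H_eq ?_
      rintro ⟨a, b, c, d⟩ ⟨a', b', c', d'⟩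
      simp only [Prod.mk.injEq]
      have e : ∀ a b c d : G, a + c + (b + d) = a + b + (c + d) := fun a b c d =>
        add_add_add_comm a c b d
      constructor
      · rintro ⟨h1, h3⟩
        refine ⟨h1, ?_⟩
        rw [e a b c d, e a' b' c' d', h1] at h3
        exact add_left_cancel h3
      · rintro ⟨h1, h3⟩
        exact ⟨h1, by rw [e a b c d, e a' b' c' d', h1, h3]⟩
    rw [this, H_two h2 hp hq hp hq]
    ring
  -- H(X'+Y, S)
  have eV : H (law4 p p q q) (fun x => (x.2.1 + x.2.2.1, x.1 + x.2.1 + (x.2.2.1 + x.2.2.2))) =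
      2 * ent (conv p q) := by
    rw [perm24]
    have h3 := H_two h2 hp hq hq hp
    have : H (law4 p q q p) (fun x => (x.2.2.2 + x.2.2.1, x.1 + x.2.2.2 + (x.2.2.1 + x.2.1))) =
        H (law4 p q q p) (fun x => (x.1 + x.2.1, x.2.2.1 + x.2.2.2)) := by
      refine H_eq ?_
      rintro ⟨a, b, c, d⟩ ⟨a', b', c', d'⟩
      simp only [Prod.mk.injEq]
      have e : ∀ a b c d : G, a + d + (c + b) = (a + b) + (c + d) := by
        intro a b c d
        rw [add_comm c b, add_add_add_comm, add_comm d c]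
      rw [add_comm d c, add_comm d' c']
      constructor
      · rintro ⟨h1, h3⟩
        refine ⟨?_, h1⟩
        rw [e a b c d, e a' b' c' d', h1] at h3
        exact add_right_cancel h3
      · rintro ⟨h1, h3⟩
        exact ⟨h3, by rw [e a b c d, e a' b' c' d', h1, h3]⟩
    rw [this, h3, conv_comm h2 q p]
    ring
  -- H(X+X', S)
  have eW : H (law4 p p q q) (fun x => (x.1 + x.2.1, x.1 + x.2.1 + (x.2.2.1 + x.2.2.2))) =
      ent (conv p p) + ent (conv q q) := by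
    rw [← H_two h2 hp hp hq hq]
    refine H_eq ?_
    rintro ⟨a, b, c, d⟩ ⟨a', b', c', d'⟩
    simp only [Prod.mk.injEq]
    constructor
    · rintro ⟨h1, h3⟩
      refine ⟨h1, ?_⟩
      rw [h1] at h3
      exact add_left_cancel h3
    · rintro ⟨h1, h3⟩
      exact ⟨h1, by rw [h1, h3]⟩
  constructor
  · have h := H_submod hl
      (U := fun x => (x.1 + x.2.2.1, x.1 + x.2.1 + (x.2.2.1 + x.2.2.2)))
      (V := fun x => (x.2.1 + x.2.2.1, x.1 + x.2.1 + (x.2.2.1 + x.2.2.2)))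
      (Z := fun x => x.1 + x.2.1 + (x.2.2.1 + x.2.2.2))
      (fun ω ω' h => (Prod.mk.inj h).2) (fun ω ω' h => (Prod.mk.inj h).2)
    have eJ : H (law4 p p q q) (fun x => ((x.1 + x.2.2.1, x.1 + x.2.1 + (x.2.2.1 + x.2.2.2)),
        (x.2.1 + x.2.2.1, x.1 + x.2.1 + (x.2.2.1 + x.2.2.2)))) = J p q := by
      unfold J
      refine H_eq ?_
      rintro ⟨a, b, c, d⟩ ⟨a', b', c', d'⟩
      simp only [Prod.mk.injEq]
      constructor
      · rintro ⟨⟨h1, h3⟩, h4, -⟩
        have h5 : a + b = a' + b' := by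
          rw [← tri'' h2 a c b, ← tri'' h2 a' c' b', h1, h4]
        refine ⟨h5, ?_, h1⟩
        rw [h5] at h3
        exact add_left_cancel h3
      · rintro ⟨h1, h3, h4⟩
        refine ⟨⟨h4, by rw [h1, h3]⟩, ?_, by rw [h1, h3]⟩
        rw [← tri' h2 a b c, ← tri' h2 a' b' c', h1, h4]
    rw [eJ, hs4, eU, eV] at h
    linarith
  · have h := H_submod hl
      (U := fun x => (x.1 + x.2.2.1, x.1 + x.2.1 + (x.2.2.1 + x.2.2.2)))
      (V := fun x => (x.1 + x.2.1, x.1 + x.2.1 + (x.2.2.1 + x.2.2.2)))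
      (Z := fun x => x.1 + x.2.1 + (x.2.2.1 + x.2.2.2))
      (fun ω ω' h => (Prod.mk.inj h).2) (fun ω ω' h => (Prod.mk.inj h).2)
    have eJ : H (law4 p p q q) (fun x => ((x.1 + x.2.2.1, x.1 + x.2.1 + (x.2.2.1 + x.2.2.2)),
        (x.1 + x.2.1, x.1 + x.2.1 + (x.2.2.1 + x.2.2.2)))) = J p q := by
      unfold J
      refine H_eq ?_
      rintro ⟨a, b, c, d⟩ ⟨a', b', c', d'⟩
      simp only [Prod.mk.injEq]
      constructor
      · rintro ⟨⟨h1, h3⟩, h4, -⟩
        refine ⟨h4, ?_, h1⟩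
        rw [h4] at h3
        exact add_left_cancel h3
      · rintro ⟨h1, h3, h4⟩
        exact ⟨⟨h4, by rw [h1, h3]⟩, h1, by rw [h1, h3]⟩
    rw [eJ, hs4, eU, eW] at h
    linarith

theorem thm_PairS : St_PairS := by
  intro G _ _ h2 B p q hB hp hq c₀ c₁ c₂ c₃ hc3 hPI
  constructor
  · have h := hPI (conv p q) (conv p q) (conv_law hp hq) (conv_law hp hq)
    have h1 := mul_le_mul_of_nonneg_left (Ib_conv_le h2 hB hp hq) hc3
    have h3 := mul_le_mul_of_nonneg_left (Ib_conv_le' h2 hB hp hq) hc3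
    unfold h4
    linarith
  · have h := hPI (conv p p) (conv q q) (conv_law hp hp) (conv_law hq hq)
    have h1 := mul_le_mul_of_nonneg_left (Ib_conv_le h2 hB hp hp) hc3
    have h3 := mul_le_mul_of_nonneg_left (Ib_conv_le h2 hB hq hq) hc3
    rw [h4_eq h2] at h
    linarith

/-- Averaging a linear inequality over two independent families of laws. -/
theorem avg_PIneq {B : G → ℝ} {c₀ c₁ c₂ c₃ : ℝ} (hPI : PIneq B c₀ c₁ c₂ c₃)
    {m m' : G → ℝ} (hm : IsLaw m) (hm' : IsLaw m') {r r' : G → G → ℝ}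
    (hr : ∀ z, m z ≠ 0 → IsLaw (r z)) (hr' : ∀ z, m' z ≠ 0 → IsLaw (r' z)) :
    0 ≤ c₀ + c₁ * (∑ z, m z * ent (r z) + ∑ z, m' z * ent (r' z)) +
      c₂ * (∑ z, ∑ z', m z * m' z' * ent (conv (r z) (r' z'))) +
      c₃ * (∑ z, m z * Ib B (r z) + ∑ z, m' z * Ib B (r' z)) := by
  have h : 0 ≤ ∑ z, ∑ z', m z * m' z' * (c₀ + c₁ * (ent (r z) + ent (r' z')) +
      c₂ * ent (conv (r z) (r' z')) + c₃ * (Ib B (r z) + Ib B (r' z'))) := by
    refine sum_nonneg fun z _ => sum_nonneg fun z' _ => ?_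
    rcases eq_or_ne (m z) 0 with h0 | h0
    · rw [h0, zero_mul, zero_mul]
    rcases eq_or_ne (m' z') 0 with h0' | h0'
    · rw [h0', mul_zero, zero_mul]
    exact mul_nonneg (mul_nonneg (hm.nn z) (hm'.nn z')) (hPI _ _ (hr z h0) (hr' z' h0'))
  refine h.trans (le_of_eq ?_)
  have e : ∀ z z', m z * m' z' * (c₀ + c₁ * (ent (r z) + ent (r' z')) +
      c₂ * ent (conv (r z) (r' z')) + c₃ * (Ib B (r z) + Ib B (r' z'))) =
      c₀ * m z * m' z' + c₁ * (m z * ent (r z)) * m' z' + c₁ * m z * (m' z' * ent (r' z')) +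
      c₂ * (m z * m' z' * ent (conv (r z) (r' z'))) +
      c₃ * (m z * Ib B (r z)) * m' z' + c₃ * m z * (m' z' * Ib B (r' z')) := by
    intro z z'
    ring
  simp only [e, sum_add_distrib, ← mul_sum, ← sum_mul, hm.sum, hm'.sum, mul_one]
  ring

theorem thm_PairC : St_PairC := by
  intro G _ _ h2 B p q hB hp hq c₀ c₁ c₂ c₃ hc3 hPI
  constructor
  · have h := avg_PIneq hPI (conv_law hp hq) (conv_law hq hp) (r := fib p q) (r' := fib q p)
      (fun z hz => fib_law hp hq hz) (fun z hz => fib_law hq hp hz)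
    have e1 := thm_FibEnt G h2 p q hp hq
    have e2 := thm_FibEnt G h2 q p hq hp
    have e3 := thm_FibConv G h2 p q q p hp hq hq hp
    obtain ⟨i1, i2⟩ := thm_FibI G h2 B p q hB hp hq
    obtain ⟨i3, i4⟩ := thm_FibI G h2 B q p hB hq hp
    have eJ : H (law4 p q q p) (fun x => (x.1 + x.2.1, x.2.2.1 + x.2.2.2, x.1 + x.2.2.1)) =
        J p q := by
      rw [perm24]
      unfold J
      refine H_eq ?_
      rintro ⟨a, b, c, d⟩ ⟨a', b', c', d'⟩
      simp only [Prod.mk.injEq]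
      -- a + d, c + b, a + c   versus  a + b, c + d, a + c
      constructor
      · rintro ⟨h1, h3, h4⟩
        refine ⟨?_, ?_, h4⟩
        · rw [← tri h2 a c b, ← tri h2 a' c' b', h4, h3]
        · rw [← tri' h2 a c d, ← tri' h2 a' c' d', h4, h1]
      · rintro ⟨h1, h3, h4⟩
        refine ⟨?_, ?_, h4⟩
        · rw [← tri h2 a c d, ← tri h2 a' c' d', h4, h3]
        · rw [← tri' h2 a c b, ← tri' h2 a' c' b', h4, h1]
    rw [e1, e2, e3, eJ, conv_comm h2 q p] at h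
    rw [conv_comm h2 q p] at i3 i4
    have i5 : ∑ z, conv p q z * Ib B (fib p q z) + ∑ z, conv p q z * Ib B (fib q p z) ≤
        min (2 * (Ib B p + Ib B q))
          (Ib B p + Ib B q + 2 * ent (conv p q) - ent p - ent q) :=
      le_min (by linarith) (by linarith)
    have i6 := mul_le_mul_of_nonneg_left i5 hc3
    linarith
  · have h := avg_PIneq hPI (conv_law hp hp) (conv_law hq hq) (r := fib p p) (r' := fib q q)
      (fun z hz => fib_law hp hp hz) (fun z hz => fib_law hq hq hz)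
    have e1 := thm_FibEnt G h2 p p hp hp
    have e2 := thm_FibEnt G h2 q q hq hq
    have e3 := thm_FibConv G h2 p p q q hp hp hq hq
    obtain ⟨i1, i2⟩ := thm_FibI G h2 B p p hB hp hp
    obtain ⟨i3, i4⟩ := thm_FibI G h2 B q q hB hq hq
    change _ = J p q - _ - _ at e3
    rw [e1, e2, e3] at h
    have i5 : ∑ z, conv p p z * Ib B (fib p p z) + ∑ z, conv q q z * Ib B (fib q q z) ≤
        min (2 * (Ib B p + Ib B q))
          (Ib B p + Ib B q + ent (conv p p) + ent (conv q q) - ent p - ent q) :=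
      le_min (by linarith) (by linarith)
    have i6 := mul_le_mul_of_nonneg_left i5 hc3
    linarith

end Pool.Agent.BR
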