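import Pool.Agent.BR.Grp

/-!
Subspaces in `2A-2A`: the statements of the modules. Paper: `/team-store/BR_paper.md`.
`G` is always a finite abelian group of exponent two (`h2 : ∀ x, x + x = 0`), laws are functions
`G → ℝ` with `IsLaw`, logarithms are natural.
-/

set_option autoImplicit false

namespace Pool.Agent.BR

open Finset Real
open scoped Classical

section defs

variable {G : Type} [AddCommGroup G] [Fintype G]

/-- The law of `(X, Y, X', Y')`, independent with laws `p, q, p', q'`. -/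
def law4 (p q p' q' : G → ℝ) (x : G × G × G × G) : ℝ :=
  p x.1 * (q x.2.1 * (p' x.2.2.1 * q' x.2.2.2))

/-- `J` of the paper, section 2: the entropy of `(X + X', Y + Y', X + Y)` for independent
`X, X' ~ p`, `Y, Y' ~ q`; coordinates of the probability space: `(X, X', Y, Y')`. -/
noncomputable def J (p q : G → ℝ) : ℝ :=
  H (law4 p p q q) (fun x => (x.1 + x.2.1, x.2.2.1 + x.2.2.2, x.1 + x.2.2.1))

/-- The entropy of `X + Y + X' + Y'`. -/
noncomputable def h4 (p q : G → ℝ) : ℝ := ent (conv (conv p q) (conv p q))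

/-- A linear inequality valid for all pairs of laws. -/
def PIneq (B : G → ℝ) (c₀ c₁ c₂ c₃ : ℝ) : Prop := ∀ p q : G → ℝ, IsLaw p → IsLaw q →
  0 ≤ c₀ + c₁ * (ent p + ent q) + c₂ * ent (conv p q) + c₃ * (Ib B p + Ib B q)

/-- The distance `d[p;q]`. -/
noncomputable def dd (p q : G → ℝ) : ℝ := ent (conv p q) - (ent p + ent q) / 2

/-- Relative entropy (`q` positive). -/
noncomputable def KL (p q : G → ℝ) : ℝ := ∑ x, p x * log (p x / q x)

/-- The Gibbs law of the energy `s`. -/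
noncomputable def gib (K : ℝ) (s : G → ℝ) (x : G) : ℝ := exp (-K * s x) / ∑ y, exp (-K * s y)

/-- Expectation of `g (x + Y)`, `Y ~ q`. -/
def av (g q : G → ℝ) (x : G) : ℝ := ∑ y, q y * g (x + y)

/-- Expectation of `g (X + Y)`. -/
def avv (g p q : G → ℝ) : ℝ := ∑ x, p x * av g q x

/-- The law of the `W`-part of `X` on the coset of `x`: `w ↦ p (x + w) / p (x + W)`. -/
noncomputable def fw (W : AddSubgroup G) (p : G → ℝ) (x : G) (w : W) : ℝ :=
  p (x + w) / ∑ w' : W, p (x + w')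

/-- Average deficiency of `p` on the cosets of `W`. -/
noncomputable def DW (W : AddSubgroup G) (p : G → ℝ) : ℝ := ∑ x, p x * Df (fw W p x)

/-- The law of `X` modulo `W`. -/
noncomputable def prq (W : AddSubgroup G) (p : G → ℝ) : G ⧸ W → ℝ :=
  pr p (fun x => (QuotientAddGroup.mk x : G ⧸ W))

/-- The average of `g` over the coset of `x`. -/
noncomputable def avc (W : AddSubgroup G) (g : G → ℝ) (x : G) : ℝ :=
  (∑ w : W, g (x + w)) / Nat.card W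

end defs

/-! ### Two copies -/

/-- Fibres, entropy. Take `Ω = G × G` with `p ⊗ q`, `Z = x + y`, `X = x` in `H_fib` (with
`R = fib p q`, `conv_mul_fib`); `(x + y, x)` and `(x, y)` have the same level sets. -/
def St_FibEnt : Prop := ∀ (G : Type) [AddCommGroup G] [Fintype G], (∀ x : G, x + x = 0) →
  ∀ p q : G → ℝ, IsLaw p → IsLaw q →
  ∑ z, conv p q z * ent (fib p q z) = ent p + ent q - ent (conv p q)

/-- Fibres, gain. `∑ z, conv p q z * ent (conv (fib p q z) B) = H(X + B, X + Y) - H(X + Y)`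
(`H_fib` on `(G × G) × G` or on a space with coordinates `z, x, b`), and
`H(X + B, X + Y) ≤ H(X + B) + H(X + Y)`; also `(X + B, X + Y)` and `(X + B, Y + B)` have the same
level sets. Then `St_FibEnt`. -/
def St_FibI : Prop := ∀ (G : Type) [AddCommGroup G] [Fintype G], (∀ x : G, x + x = 0) →
  ∀ B p q : G → ℝ, IsLaw B → IsLaw p → IsLaw q →
  ∑ z, conv p q z * Ib B (fib p q z) ≤ Ib B p + Ib B q ∧
  ∑ z, conv p q z * Ib B (fib p q z) ≤ Ib B p + ent (conv p q) - ent q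

/-- Fibres, convolution of two fibres: `X ~ p, Y ~ q, X' ~ p', Y' ~ q'` independent; the left side
plus `H(X+Y) + H(X'+Y')` is `H(X+Y, X'+Y', X+X')` (`H_fib` with `Z = (X+Y, X'+Y')`; use the space
with coordinates `(z, x), (z', x')` or compute `pr` directly with `conv_mul_fib`). -/
def St_FibConv : Prop := ∀ (G : Type) [AddCommGroup G] [Fintype G], (∀ x : G, x + x = 0) →
  ∀ p q p' q' : G → ℝ, IsLaw p → IsLaw q → IsLaw p' → IsLaw q' →
  ∑ z, ∑ z', conv p q z * conv p' q' z' * ent (conv (fib p q z) (fib p' q' z')) =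
    H (law4 p q p' q') (fun x => (x.1 + x.2.1, x.2.2.1 + x.2.2.2, x.1 + x.2.2.1)) -
      ent (conv p q) - ent (conv p' q')

/-- `I1 ≥ 0`, `I2 ≥ 0`. `H_submod` with `Z = S` the sum of the four variables,
`U = (X + Y, S)`, `V = (X' + Y, S)` and `V = (X + X', S)`; `(U, V)` has the level sets of `J`;
`H(X+Y, S) = H(X+Y, X'+Y') = 2 ent (conv p q)` etc. -/
def St_Mutual : Prop := ∀ (G : Type) [AddCommGroup G] [Fintype G], (∀ x : G, x + x = 0) →
  ∀ p q : G → ℝ, IsLaw p → IsLaw q →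
  J p q + h4 p q ≤ 4 * ent (conv p q) ∧
  J p q + h4 p q ≤ 2 * ent (conv p q) + ent (conv p p) + ent (conv q q)

/-- Pairs `S` and `S2` of the paper. -/
def St_PairS : Prop := ∀ (G : Type) [AddCommGroup G] [Fintype G], (∀ x : G, x + x = 0) →
  ∀ B p q : G → ℝ, IsLaw B → IsLaw p → IsLaw q → ∀ c₀ c₁ c₂ c₃ : ℝ, 0 ≤ c₃ →
  PIneq B c₀ c₁ c₂ c₃ →
  0 ≤ c₀ + c₁ * (2 * ent (conv p q)) + c₂ * h4 p q + c₃ * (Ib B p + Ib B q) ∧
  0 ≤ c₀ + c₁ * (ent (conv p p) + ent (conv q q)) + c₂ * h4 p q + c₃ * (Ib B p + Ib B q)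

/-- Pairs `C` (`fib p q z`, `fib q p z'`, weight `conv p q z * conv p q z'`) and `C2`
(`fib p p z`, `fib q q z'`). Average `PIneq` over `z, z'`; `St_FibEnt`, `St_FibI`, `St_FibConv`;
`H (law4 p q q p) (...) = J p q` and `H (law4 p p q q) (...) = J p q` (relabelling: `H_equiv`,
`H_eq`). -/
def St_PairC : Prop := ∀ (G : Type) [AddCommGroup G] [Fintype G], (∀ x : G, x + x = 0) →
  ∀ B p q : G → ℝ, IsLaw B → IsLaw p → IsLaw q → ∀ c₀ c₁ c₂ c₃ : ℝ, 0 ≤ c₃ →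
  PIneq B c₀ c₁ c₂ c₃ →
  0 ≤ c₀ + c₁ * (2 * (ent p + ent q - ent (conv p q))) + c₂ * (J p q - 2 * ent (conv p q)) +
    c₃ * min (2 * (Ib B p + Ib B q)) (Ib B p + Ib B q + 2 * ent (conv p q) - ent p - ent q) ∧
  0 ≤ c₀ + c₁ * (2 * ent p + 2 * ent q - ent (conv p p) - ent (conv q q)) +
    c₂ * (J p q - ent (conv p p) - ent (conv q q)) +
    c₃ * min (2 * (Ib B p + Ib B q))
      (Ib B p + Ib B q + ent (conv p p) + ent (conv q q) - ent p - ent q)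

/-- Lemma T of the paper (entropic Balog-Szemeredi-Gowers): with `t = conv r_z r_z'`,
`r_z = fib p q z`, the average of `ent (conv t t)` is at most
`(J - 2 h12) + (8 h12 + 2 h11 + 2 h22 - 3 J - 3 h4)`. Proof in the paper, section 2: space with
coordinates `z, z', x, y, x', y'` and weight
`conv p q z * conv p q z' * fib p q z x * fib p q z y * fib p q z' x' * fib p q z' y'`. -/
def St_LemT : Prop := ∀ (G : Type) [AddCommGroup G] [Fintype G], (∀ x : G, x + x = 0) →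
  ∀ p q : G → ℝ, IsLaw p → IsLaw q →
  ∑ z, ∑ z', conv p q z * conv p q z' * ent (conv (conv (fib p q z) (fib p q z'))
      (conv (fib p q z) (fib p q z'))) ≤
    6 * ent (conv p q) + 2 * ent (conv p p) + 2 * ent (conv q q) - 2 * J p q - 3 * h4 p q

/-- Pair `T`: average `PIneq` for `(t, t)`, `t = conv (fib p q z) (fib p q z')`; `Ib_conv_le`,
`St_FibI` for `fib p q` and (by `fib_comm`, `Ib_sh`) for `fib q p`; average of `ent t` is
`J p q - 2 * ent (conv p q)` by `St_FibConv` (relabelling as in `St_PairC`); `St_LemT`. -/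
def St_PairT : Prop := ∀ (G : Type) [AddCommGroup G] [Fintype G], (∀ x : G, x + x = 0) →
  ∀ B p q : G → ℝ, IsLaw B → IsLaw p → IsLaw q → ∀ c₀ c₁ c₂ c₃ : ℝ, 0 ≤ c₂ → 0 ≤ c₃ →
  PIneq B c₀ c₁ c₂ c₃ →
  0 ≤ c₀ + c₁ * (2 * (J p q - 2 * ent (conv p q))) +
    c₂ * (6 * ent (conv p q) + 2 * ent (conv p p) + 2 * ent (conv q q) - 2 * J p q -
      3 * h4 p q) +
    c₃ * min (2 * (Ib B p + Ib B q)) (Ib B p + Ib B q + 2 * ent (conv p q) - ent p - ent q)

/-! ### Theorems A and B -/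

/-- Equality case: `d[p;q] = 0` only for cosets of one subgroup. From `ent (conv p q) = ent p =
ent q` (`ent_le_conv`): `X + Y` is independent of `Y` (equality in `H_pair_le`/Gibbs), so `p` is
invariant under differences of the support of `q`, and vice versa. -/
def St_DZero : Prop := ∀ (G : Type) [AddCommGroup G] [Fintype G], (∀ x : G, x + x = 0) →
  ∀ p q : G → ℝ, IsLaw p → IsLaw q → dd p q ≤ 0 → ∃ (W : AddSubgroup G) (a b : G),
    (∀ x, p x = if x + a ∈ W then 1 / (Nat.card W : ℝ) else 0) ∧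
    (∀ x, q x = if x + b ∈ W then 1 / (Nat.card W : ℝ) else 0)

/-- Gain of the uniform law of a coset. -/
def St_Coset : Prop := ∀ (G : Type) [AddCommGroup G] [Fintype G], (∀ x : G, x + x = 0) →
  ∀ (B p : G → ℝ) (W : AddSubgroup G) (a : G), IsLaw B →
  (∀ x, p x = if x + a ∈ W then 1 / (Nat.card W : ℝ) else 0) →
  ent p = log (Nat.card W) ∧ Ib B p = entq W B

/-- Theorem A. Section 3 of the paper: minimiser of
`tau = dd p q + (1/6) (Ib p + Ib q)/2 - (3/4)(1/6)(Df p + Df q)/2` over the compact set of pairs of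
laws; `PIneq` holds with the constants of `tau - tau_min`; then the five pairs. -/
def St_ThmA : Prop := ∀ (G : Type) [AddCommGroup G] [Fintype G], (∀ x : G, x + x = 0) →
  ∀ B p q : G → ℝ, IsLaw B → Spread B → IsLaw p → IsLaw q →
  3 / 4 * ((Df p + Df q) / 2) ≤ (Ib B p + Ib B q) / 2 + 6 * dd p q

/-- Tangent inequality (weighted AM-GM, weights `1/gam, (gam-1-be)/gam, be/gam`). -/
def St_Tan : Prop := ∀ (be a s a0 s0 : ℝ) (gam : ℕ), 0 < be → be ≤ 1 → 3 ≤ gam → 0 < a →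
  0 ≤ s → 0 < a0 → 0 < s0 →
  a0 ^ (1 + be - gam) * s0 ^ gam * ((1 + be - gam) * (a / a0) + gam * (s / s0) - be) ≤
    a ^ (1 + be - gam) * s ^ gam ∧
  a0 ^ (1 + be) * ((1 + be) * (a / a0) - be) ≤ a ^ (1 + be)

/-- The numerical heart of Theorem B (section 4 of the paper, everything after the choice of the
near minimiser; `E = exp 1`). Variables: `a, s, sg = sigma, sC, s2 = s_C2, mu, aT = sC`, `I1, I2`,
`d` = average of `ent (t*t) - ent t`. Conclusion `24 (a - s) ≤ a`. -/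
def St_Num : Prop := ∀ be a s sg sC s2 mu : ℝ, 0 < be → be ≤ 1 / 5 → 0 < a → be * a ≤ s →
  s ≤ a → 0 ≤ sg → sg ≤ s → 0 ≤ mu → mu ≤ 1 → s ≤ sC → 0 ≤ s2 →
  -- (S)
  s ^ (1 + be - 400) * sg ^ 400 ≤ exp 1 * (a ^ (1 + be - 400) * s ^ 400) →
  -- (C)
  (2 * a - s) ^ (1 + be - 400) * sC ^ 400 ≤ exp 1 * (a ^ (1 + be - 400) * s ^ 400) →
  -- (S2), if `mu > 0`
  (0 < mu → (mu * a) ^ (1 + be - 400) * sg ^ 400 ≤ exp 1 * (a ^ (1 + be - 400) * s ^ 400)) →
  (mu = 0 → sg = 0) →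
  -- (C2)
  ((2 - mu) * a) ^ (1 + be - 400) * s2 ^ 400 ≤ exp 1 * (a ^ (1 + be - 400) * s ^ 400) →
  -- (T)
  (∀ sT : ℝ, 0 < sT → sT = sC - (sg + sC - 2 * s) - 2 * (sg + s2 - 2 * s) →
    sC ^ (1 + be - 400) * sT ^ 400 ≤ exp 1 * (a ^ (1 + be - 400) * s ^ 400)) →
  24 * (a - s) ≤ a

/-- Theorem B. -/
def St_ThmB : Prop := ∀ (G : Type) [AddCommGroup G] [Fintype G], (∀ x : G, x + x = 0) →
  ∀ (be : ℝ) (B p : G → ℝ), 0 < be → be ≤ 1 / 5 → IsLaw B → Spread B → IsLaw p →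
  1 / 3 * be ^ 400 * Df p ^ (1 + be) ≤ log (Fintype.card G) ^ be * Ib B p

/-! ### Sampling -/

/-- Lemma G. -/
def St_Gibbs : Prop := ∀ (G : Type) [AddCommGroup G] [Fintype G] (K : ℝ) (s p : G → ℝ),
  IsLaw p → IsLaw (gib K s) ∧
  Df (gib K s) + K * ∑ x, gib K s x * s x ≤ Df p + K * ∑ x, p x * s x

/-- Expected relative entropy of the sampled Gibbs laws. `y : Fin N → G` with weight
`∏ i, q (y i)`. Section 5: the first term averages to zero, Jensen for the logarithm,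
independence, `E e^(-th g) ≤ 1 - (1 - e^(-th)) E g ≤ exp (-th E g + th^2 E g / 2)`. -/
def St_Samp : Prop := ∀ (G : Type) [AddCommGroup G] [Fintype G], (∀ x : G, x + x = 0) →
  ∀ (K : ℝ) (N : ℕ) (g q : G → ℝ), 0 < K → 1 ≤ N → (∀ x, 0 ≤ g x) → (∀ x, g x ≤ 1) → IsLaw q →
  ∑ y : Fin N → G, (∏ i, q (y i)) *
    KL (gib K (av g q)) (gib K (fun x => (∑ i, g (x + y i)) / N)) ≤ K ^ 2 / (2 * N)

/-- Conditioning on an event of probability at least one half. -/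
def St_Cond : Prop := ∀ (Ω : Type) [Fintype Ω] (P : Ω → ℝ) (E : Set Ω), IsLaw P →
  1 / 2 ≤ ∑ ω, (if ω ∈ E then P ω else 0) → ∃ Q : Ω → ℝ, IsLaw Q ∧ (∀ ω, Q ω ≠ 0 → ω ∈ E) ∧
  log (Fintype.card Ω) - ent Q ≤ 2 * (log (Fintype.card Ω) - ent P) + 2 * log 2

/-- Splitting off the diagonal: a law `Q` on `Fin N → G` (`1 ≤ N`): some class of differences has
a conditional law with no larger deficiency. `c` is the representative of the class, `B t` is
proportional to `Q (fun i => c i + t)`. -/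
def St_Diag : Prop := ∀ (G : Type) [AddCommGroup G] [Fintype G], (∀ x : G, x + x = 0) →
  ∀ (N : ℕ) (Q : (Fin N → G) → ℝ), 1 ≤ N → IsLaw Q → ∃ (c : Fin N → G) (B : G → ℝ), IsLaw B ∧
  (∀ t, B t ≠ 0 → Q (fun i => c i + t) ≠ 0) ∧ Df B ≤ log (Fintype.card (Fin N → G)) - ent Q

/-- Lemma S. From `St_Samp` (Markov), `St_Cond`, `St_Diag`; `ent` of the product law is
`N * ent q`. -/
def St_LemS : Prop := ∀ (G : Type) [AddCommGroup G] [Fintype G], (∀ x : G, x + x = 0) →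
  ∀ (K : ℝ) (N : ℕ) (g q : G → ℝ), 0 < K → 1 ≤ N → (∀ x, 0 ≤ g x) → (∀ x, g x ≤ 1) → IsLaw q →
  ∃ B ps : G → ℝ, IsLaw B ∧ IsLaw ps ∧ (∀ x, 0 < ps x) ∧ Df B ≤ 2 * N * Df q + 2 * log 2 ∧
  ∀ t, B t ≠ 0 → KL (gib K (av g q)) (sh t ps) ≤ K ^ 2 / N

/-- Lemma C (the core of `B`). -/
def St_Core : Prop := ∀ (G : Type) [AddCommGroup G] [Fintype G], (∀ x : G, x + x = 0) →
  ∀ B : G → ℝ, IsLaw B → ∃ (W : AddSubgroup G) (b : G), 0 < ∑ w : W, B (b + w) ∧
  Spread (fw W B b) ∧ cod W ≤ 4 * Df B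

/-- Lemma I. -/
def St_Inv : Prop := ∀ (G : Type) [AddCommGroup G] [Fintype G], (∀ x : G, x + x = 0) →
  ∀ (W : AddSubgroup G) (b : G) (B : W → ℝ) (ph ps : G → ℝ) (e : ℝ), IsLaw B → IsLaw ph →
  IsLaw ps → (∀ x, 0 < ps x) → (∀ w : W, B w ≠ 0 → KL ph (sh (b + w) ps) ≤ e) →
  ∑ x, ph x * Ib B (fw W ph x) ≤ e

/-- Chain rule for `DW`, monotonicity, pieces and quotients. -/
def St_DW : Prop := ∀ (G : Type) [AddCommGroup G] [Fintype G] (W W' : AddSubgroup G)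
  (p : G → ℝ), IsLaw p →
  (∀ x, p x ≠ 0 → IsLaw (fw W p x)) ∧ DW W p = log (Nat.card W) - ent p + entq W p ∧
  (W ≤ W' → DW W p ≤ DW W' p) ∧ IsLaw (prq W p) ∧ Df (prq W p) ≤ Df p

/-- Lemma V. -/
def St_Weak : Prop := ∀ (G : Type) [AddCommGroup G] [Fintype G], (∀ x : G, x + x = 0) →
  ∀ (M : ℝ) (k : ℕ) (B p : G → ℝ), IsLaw B → Spread B → IsLaw p →
  (∀ x, p x ≤ M / Fintype.card G) → Df p ≤ k * Ib B p + exp (-k) * M

/-- Corollary OV, for the Gibbs law `ph = gib K (av g q)`. `St_LemS`, `St_Core`, `St_Inv`,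
`St_ThmB` on `W` for the laws `fw W ph x`, convexity of `u ↦ u^(1+be)`. -/
def St_OV : Prop := ∀ (G : Type) [AddCommGroup G] [Fintype G], (∀ x : G, x + x = 0) →
  ∀ (be n0 K : ℝ) (N : ℕ) (g q : G → ℝ), 0 < be → be ≤ 1 / 5 → log (Fintype.card G) ≤ n0 →
  0 < K → 1 ≤ N → (∀ x, 0 ≤ g x) → (∀ x, g x ≤ 1) → IsLaw q →
  ∃ W : AddSubgroup G, cod W ≤ 8 * N * Df q + 8 * log 2 ∧
  1 / 3 * be ^ 400 * DW W (gib K (av g q)) ^ (1 + be) ≤ n0 ^ be * (K ^ 2 / N)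

/-! ### Iteration -/

/-- Choice of the pieces: Markov's inequality over `x ~ p`, `y ~ q`;
`avv g p q = ∑ x, p x * ∑ y, q y * avv (g (x + y + ·)) (fw W p x) (fw W q y)`. -/
def St_Choose : Prop := ∀ (G : Type) [AddCommGroup G] [Fintype G], (∀ x : G, x + x = 0) →
  ∀ (W : AddSubgroup G) (g p q : G → ℝ) (t m : ℝ), IsLaw p → IsLaw q → (∀ x, 0 ≤ g x) →
  0 < t → 0 < m → DW W p + DW W q ≤ t / 4 → avv g p q ≤ m →
  ∃ x y : G, IsLaw (fw W p x) ∧ IsLaw (fw W q y) ∧ Df (fw W p x) + Df (fw W q y) ≤ t ∧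
    avv (fun w : W => g (x + y + w)) (fw W p x) (fw W q y) ≤ 2 * m

/-- The state: badness `g`, two laws of total deficiency `≤ l`, error `≤ e`. -/
structure State (G : Type) [AddCommGroup G] [Fintype G] (g : G → ℝ) (l e : ℝ) : Prop where
  h2 : ∀ x : G, x + x = 0
  g0 : ∀ x, 0 ≤ g x
  g1 : ∀ x, g x ≤ 1
  ex : ∃ p q : G → ℝ, IsLaw p ∧ IsLaw q ∧ Df p + Df q ≤ l ∧ avv g p q ≤ e

/-- The step (section 6). -/
def St_Step : Prop := ∀ be xi : ℝ, 0 < be → be ≤ 1 / 5 → 0 < xi → xi ≤ 1 → ∃ C : ℝ, 0 < C ∧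
  ∀ (G : Type) [AddCommGroup G] [Fintype G] (g : G → ℝ) (l e t n0 : ℝ), State G g l e →
  1 ≤ l → 0 ≤ e → e ≤ 1 → 0 < t → t ≤ l → log (Fintype.card G) ≤ n0 → 1 ≤ n0 →
  ∃ (W : AddSubgroup G) (c : G), State W (fun w => g (c + w)) t (2 * (e + 2 * xi)) ∧
    cod W ≤ C * n0 ^ be * l ^ 3 / t ^ (1 + be)

/-- The end: deficiency at most `1/16`. `∑ |p - u| ≤ 2 sqrt(Df p)` (Hellinger), so the average of
`g` is at most `avv g p q + 1/4`. -/
def St_End : Prop := ∀ (G : Type) [AddCommGroup G] [Fintype G] (g : G → ℝ) (e : ℝ),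
  State G g (1 / 16) e → (∑ x, g x) / Fintype.card G ≤ e + 1 / 4

/-- Theorem M. -/
def St_ThmM : Prop := ∀ be : ℝ, 0 < be → be ≤ 1 / 5 → ∃ e0 C : ℝ, 0 < e0 ∧ 0 < C ∧
  ∀ (G : Type) [AddCommGroup G] [Fintype G] (g : G → ℝ) (l n0 : ℝ), State G g l e0 →
  1 ≤ l → log (Fintype.card G) ≤ n0 → 1 ≤ n0 →
  ∃ (W : AddSubgroup G) (c : G), avc W g c ≤ 3 / 8 ∧ cod W ≤ C * n0 ^ be * l ^ (2 + be)

/-! ### Dimension reduction and the end -/

/-- Total variation and quotients: `ph` almost uniform on the cosets of `W`. -/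
def St_Quot : Prop := ∀ (G : Type) [AddCommGroup G] [Fintype G], (∀ x : G, x + x = 0) →
  ∀ (W : AddSubgroup G) (g p q : G → ℝ), IsLaw p → IsLaw q → (∀ x, 0 ≤ g x) →
  (∀ x, g x ≤ 1) → ∃ gb : G ⧸ W → ℝ, (∀ x : G, gb (QuotientAddGroup.mk x) = avc W g x) ∧
  avv gb (prq W p) (prq W q) ≤ avv g p q + sqrt (DW W p)

/-- Dimension reduction. -/
def St_DR : Prop := ∀ xi : ℝ, 0 < xi → xi ≤ 1 → ∃ C : ℝ, 0 < C ∧
  ∀ (G : Type) [AddCommGroup G] [Fintype G] (g : G → ℝ) (l : ℝ), State G g l 0 → 1 ≤ l →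
  ∃ (W : AddSubgroup G) (gb : G ⧸ W → ℝ), (∀ x : G, gb (QuotientAddGroup.mk x) = avc W g x) ∧
    State (G ⧸ W) gb l (3 * xi) ∧ cod W ≤ C * l ^ 4

/-- Main theorem for groups of exponent two. -/
def St_Main : Prop := ∀ be : ℝ, 0 < be → be ≤ 1 / 5 → ∃ C : ℝ, 0 < C ∧
  ∀ (G : Type) [AddCommGroup G] [Fintype G] (g : G → ℝ) (l : ℝ), State G g l 0 → 1 ≤ l →
  ∃ (W : AddSubgroup G) (c : G), avc W g c ≤ 3 / 8 ∧ cod W ≤ C * l ^ (2 + 5 * be)

/-- The final theorem. -/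
def St_Final : Prop := ∀ eps : ℝ, 0 < eps → ∃ C : ℝ, 0 < C ∧
  ∀ (n : ℕ) (A : Finset (Fin n → ZMod 2)) (al : ℝ), 0 < al → al ≤ 1 →
  al * 2 ^ n ≤ (A.card : ℝ) →
  ∃ V : Submodule (ZMod 2) (Fin n → ZMod 2),
    (∀ v ∈ V, ∃ a ∈ A, ∃ b ∈ A, ∃ c ∈ A, ∃ d ∈ A, v = a + b - c - d) ∧
    (n : ℝ) - Module.finrank (ZMod 2) V ≤ C * log (2 / al) ^ (2 + eps)

end Pool.Agent.BR
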